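import Mathlib
set_option autoImplicit false

open MvPolynomial

namespace PL

/-- the `p`-Laplace expression in standard coordinates of `ℂ³`, `q = p - 1` -/
noncomputable def PE (q : ℂ) (u : MvPolynomial (Fin 3) ℂ) : MvPolynomial (Fin 3) ℂ :=
  (∑ i, (pderiv i u) ^ 2) * (∑ i, pderiv i (pderiv i u)) +
    C (q - 1) * ∑ i, ∑ j, pderiv i u * pderiv j u * pderiv i (pderiv j u)

/-- the `p`-Laplace expression in isotropic coordinates `(a,b,c) = (X 0, X 1, X 2)`
(quadratic form `2ab + c²`), `q = p - 1` -/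
noncomputable def PJ (q : ℂ) (U : MvPolynomial (Fin 3) ℂ) : MvPolynomial (Fin 3) ℂ :=
  (2 * pderiv 0 U * pderiv 1 U + (pderiv 2 U) ^ 2) *
    (2 * pderiv 0 (pderiv 1 U) + pderiv 2 (pderiv 2 U)) +
  C (q - 1) * ((pderiv 1 U) ^ 2 * pderiv 0 (pderiv 0 U)
    + (pderiv 0 U) ^ 2 * pderiv 1 (pderiv 1 U)
    + (pderiv 2 U) ^ 2 * pderiv 2 (pderiv 2 U)
    + 2 * pderiv 0 U * pderiv 1 U * pderiv 0 (pderiv 1 U)
    + 2 * pderiv 1 U * pderiv 2 U * pderiv 0 (pderiv 2 U)
    + 2 * pderiv 0 U * pderiv 2 U * pderiv 1 (pderiv 2 U))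

/-- linear substitution: `x = E y` -/
noncomputable def lin (E : Fin 3 → Fin 3 → ℂ) (u : MvPolynomial (Fin 3) ℂ) :
    MvPolynomial (Fin 3) ℂ :=
  aeval (fun i => ∑ j, C (E i j) * X j) u

/-- `E` carries the form `2ab + c²` to the standard one: `E J Eᵀ = 1`;
the columns of `E` are `e_a, e_b, e_c` -/
def Frame (E : Fin 3 → Fin 3 → ℂ) : Prop :=
  ∀ i k, E i 0 * E k 1 + E i 1 * E k 0 + E i 2 * E k 2 = if i = k then 1 else 0

/-- leading part for the weights `(0,2,1)`, as a polynomial in `β` (`a = 1, b = β, c = 1`) -/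
noncomputable def lowI (s : ℕ) (U : MvPolynomial (Fin 3) ℂ) : Polynomial ℂ :=
  ∑ d ∈ U.support.filter (fun d => 2 * d 1 + d 2 = s), Polynomial.monomial (d 1) (U.coeff d)

/-- leading part for the weights `(wa,wb,0)`, as a polynomial in `β` (`a = 1, b = β, c = 1`) -/
noncomputable def lowN (wa wb s : ℕ) (U : MvPolynomial (Fin 3) ℂ) : Polynomial ℂ :=
  ∑ d ∈ U.support.filter (fun d => wa * d 0 + wb * d 1 = s),
    Polynomial.monomial (d 1) (U.coeff d)

/-- the ordinary differential expression for the weights `(0,2,1)`; `lam = m - s` -/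
noncomputable def odeI (lam s q : ℂ) (f : Polynomial ℂ) : Polynomial ℂ :=
  let f1 := Polynomial.derivative f
  let f2 := Polynomial.derivative f1
  let Ub := f1
  let Uc := Polynomial.C s * f - 2 * Polynomial.X * f1
  let Ua := Polynomial.C lam * f + Polynomial.X * f1
  let Ubb := f2
  let Ubc := Polynomial.C (s - 2) * f1 - 2 * Polynomial.X * f2
  let Ucc := Polynomial.C (s - 1) * Uc - 2 * Polynomial.X * Ubc
  let Uab := Polynomial.C (lam + 1) * f1 + Polynomial.X * f2
  let Uac := Polynomial.C s * Ua - 2 * Polynomial.X * Uab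
  let Uaa := Polynomial.C (lam + s - 1) * Ua - Polynomial.X * Uab - Uac
  (2 * Ua * Ub + Uc ^ 2) * (2 * Uab + Ucc) +
    Polynomial.C (q - 1) * (Ub ^ 2 * Uaa + Ua ^ 2 * Ubb + Uc ^ 2 * Ucc
      + 2 * Ua * Ub * Uab + 2 * Ub * Uc * Uac + 2 * Ua * Uc * Ubc)

/-- the ordinary differential expression for the weights `(wa,wb,0)`;
`mu = s / wa`, `sig = wb / wa` -/
noncomputable def odeN (mu sig q : ℂ) (f : Polynomial ℂ) : Polynomial ℂ :=
  let f1 := Polynomial.derivative f
  let f2 := Polynomial.derivative f1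
  let A := Polynomial.C mu * f - Polynomial.C sig * Polynomial.X * f1
  let AB := Polynomial.C (mu - sig) * f1 - Polynomial.C sig * Polynomial.X * f2
  let AA := Polynomial.C (mu - 1) * A - Polynomial.C sig * Polynomial.X * AB
  4 * A * f1 * AB +
    Polynomial.C (q - 1) * (f1 ^ 2 * AA + A ^ 2 * f2 + 2 * A * f1 * AB)

end PL
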