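import Pool.Agent.Helper353.PL.Defs

set_option autoImplicit false

open MvPolynomial

namespace PL



/-- contradiction from the first three coefficients -/
theorem edge_final (lam s : ℕ) (hs : 2 ≤ s) (q : ℝ) (hq : 0 < q) (hq1 : q ≠ 1)
    (f : Polynomial ℂ) (hf0 : f.coeff 0 ≠ 0)
    (hD : s = 2 * f.natDegree ∨ s = 2 * f.natDegree + 1)
    (h : odeI lam s q f = 0)
    (hyp : Polynomial.C (2 * (q : ℂ)) * Polynomial.X * (1 + 2 * Polynomial.X) *
        Polynomial.derivative (Polynomial.derivative f) +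
      (Polynomial.C ((2 * lam + 1) * (q : ℂ) + 1) -
        Polynomial.C (2 * (q : ℂ) * (2 * s - 3)) * Polynomial.X) * Polynomial.derivative f
      = Polynomial.C (2 * (q : ℂ) * f.natDegree * (2 * f.natDegree - 2 * s + 1)) * f) :
    False := by
  obtain ⟨D, hDd⟩ : ∃ D : ℂ, D = (f.natDegree : ℂ) := ⟨_, rfl⟩
  have hDs : (s : ℂ) = 2 * D ∨ (s : ℂ) = 2 * D + 1 := by
    rcases hD with h | h
    · left; rw [hDd]; exact_mod_cast h
    · right; rw [hDd]; exact_mod_cast h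
  obtain ⟨F0, hF0⟩ : ∃ x, x = Polynomial.eval 0 f := ⟨_, rfl⟩
  obtain ⟨F1, hF1⟩ : ∃ x, x = Polynomial.eval 0 (Polynomial.derivative f) := ⟨_, rfl⟩
  obtain ⟨F2, hF2⟩ : ∃ x, x = Polynomial.eval 0 (Polynomial.derivative (Polynomial.derivative f)) :=
    ⟨_, rfl⟩
  have hF0ne : F0 ≠ 0 := by
    rw [hF0, ← Polynomial.coeff_zero_eq_eval_zero]; exact hf0
  have R1' := congrArg (Polynomial.eval 0) hyp
  have R2' := congrArg (Polynomial.eval 0) (congrArg Polynomial.derivative hyp)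
  have hc := congrArg (Polynomial.eval 0) h
  rw [← hDd] at R1' R2'
  simp only [Polynomial.derivative_add, Polynomial.derivative_sub, Polynomial.derivative_mul,
    Polynomial.derivative_C, Polynomial.derivative_X, Polynomial.derivative_one,
    Polynomial.derivative_ofNat, Polynomial.eval_add,
    Polynomial.eval_sub, Polynomial.eval_mul, Polynomial.eval_C, Polynomial.eval_X,
    Polynomial.eval_one, Polynomial.eval_ofNat, Polynomial.eval_zero, ← hF0, ← hF1, ← hF2]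
    at R1' R2'
  simp only [odeI, Polynomial.eval_add, Polynomial.eval_sub, Polynomial.eval_mul,
    Polynomial.eval_pow, Polynomial.eval_C, Polynomial.eval_X,
    Polynomial.eval_one, Polynomial.eval_ofNat, Polynomial.eval_zero, ← hF0, ← hF1, ← hF2] at hc
  obtain ⟨Q, hQ⟩ : ∃ x : ℂ, x = (q : ℂ) := ⟨_, rfl⟩
  obtain ⟨S, hS⟩ : ∃ x : ℂ, x = (s : ℂ) := ⟨_, rfl⟩
  obtain ⟨L, hL⟩ : ∃ x : ℂ, x = (lam : ℂ) := ⟨_, rfl⟩
  simp only [← hQ, ← hS, ← hL] at R1' R2' hc hDs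
  have R1 : ((2 * L + 1) * Q + 1) * F1 + Q * S * (S - 1) * F0 = 0 := by
    rcases hDs with h | h
    · rw [h] at R1' ⊢
      linear_combination R1'
    · rw [h] at R1' ⊢
      linear_combination R1'
  have R2 : ((2 * L + 3) * Q + 1) * F2 + Q * (S - 2) * (S - 3) * F1 = 0 := by
    rcases hDs with h | h
    · rw [h] at R2' ⊢
      linear_combination R2'
    · rw [h] at R2' ⊢
      linear_combination R2'
  have T : Q * S * (S - 1) * (Q - 1) * (((5 * L + 3) * S ^ 2 + (16 * L ^ 2 + 9 * L) * S +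
      6 * L ^ 2 * (2 * L + 1)) * Q ^ 2 + (S ^ 2 * (3 * L + 4) + S * (4 * L ^ 2 + 9 * L) +
      6 * L ^ 2) * Q + S * (S + 2 * L)) * F0 ^ 3 = 0 := by
    linear_combination ((2 * L + 1) * Q + 1) ^ 2 * ((2 * L + 3) * Q + 1) * hc -
      (((2 * L + 3) * Q + 1) * (4 * L * (L + 1) + (Q - 1) * (L * (L - 1) + 2 * L * (L + 1))) * F0 *
        (((2 * L + 1) * Q + 1) * F1 - Q * S * (S - 1) * F0) +
       ((2 * L + 3) * Q + 1) * (2 * L * S * (S - 1) + 2 * S ^ 2 * (L + 1) + (Q - 1) *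
        (2 * S ^ 2 * L + 2 * L * S * (S - 2))) * F0 ^ 2 * ((2 * L + 1) * Q + 1) -
       ((2 * L + 1) * Q + 1) * (Q - 1) * L ^ 2 * F0 ^ 2 * Q * (S - 2) * (S - 3)) * R1 -
      (((2 * L + 1) * Q + 1) ^ 2 * (Q - 1) * L ^ 2 * F0 ^ 2) * R2
  have hT : Q * S * (S - 1) * (Q - 1) * (((5 * L + 3) * S ^ 2 + (16 * L ^ 2 + 9 * L) * S +
      6 * L ^ 2 * (2 * L + 1)) * Q ^ 2 + (S ^ 2 * (3 * L + 4) + S * (4 * L ^ 2 + 9 * L) +
      6 * L ^ 2) * Q + S * (S + 2 * L)) = 0 := by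
    rcases mul_eq_zero.1 T with h | h
    · exact h
    · exact absurd h (pow_ne_zero 3 hF0ne)
  have hsR : (2:ℝ) ≤ (s:ℝ) := by exact_mod_cast hs
  have hlR : (0:ℝ) ≤ (lam:ℝ) := Nat.cast_nonneg _
  have hreal : q * s * (s - 1) * (q - 1) * (((5 * lam + 3) * s ^ 2 + (16 * lam ^ 2 + 9 * lam) * s +
      6 * lam ^ 2 * (2 * lam + 1)) * q ^ 2 + (s ^ 2 * (3 * lam + 4) + s * (4 * lam ^ 2 + 9 * lam) +
      6 * lam ^ 2) * q + s * (s + 2 * (lam : ℝ))) = (0 : ℝ) := by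
    rw [hQ, hS, hL] at hT
    exact_mod_cast hT
  have hpos : 0 < (((5 * lam + 3) * s ^ 2 + (16 * lam ^ 2 + 9 * lam) * s +
      6 * lam ^ 2 * (2 * lam + 1)) * q ^ 2 + (s ^ 2 * (3 * lam + 4) + s * (4 * lam ^ 2 + 9 * lam) +
      6 * lam ^ 2) * q + s * (s + 2 * (lam : ℝ))) := by
    have : (0:ℝ) < s := by linarith
    positivity
  have h1 : q * s * (s - 1) * (q - 1) = 0 := by
    rcases mul_eq_zero.1 hreal with h | h
    · exact h
    · exact absurd h hpos.ne'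
  have h2 : q * s * ((s:ℝ) - 1) ≠ 0 := by
    have h3 : (0:ℝ) < s := by linarith
    have h4 : (0:ℝ) < (s:ℝ) - 1 := by linarith
    positivity
  rcases mul_eq_zero.1 h1 with h | h
  · exact h2 h
  · exact hq1 (by linarith)

end PL
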