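import Pool.Agent.Helper353.PL.Defs

set_option autoImplicit false

open MvPolynomial

namespace PL



theorem eh_cXd (g : Polynomial ℂ) (n : ℕ) :
    (Polynomial.X * Polynomial.derivative g).coeff n = n * g.coeff n := by
  cases n with
  | zero => simp
  | succ n =>
    rw [Polynomial.coeff_X_mul, Polynomial.coeff_derivative]
    push_cast
    ring

theorem eh_coeff (Q a b : ℂ) (f : Polynomial ℂ) (n : ℕ) :
    (Polynomial.C Q * Polynomial.X * (1 + 2 * Polynomial.X) *
        Polynomial.derivative (Polynomial.derivative f) +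
      (Polynomial.C a - Polynomial.C b * Polynomial.X) * Polynomial.derivative f).coeff n =
    Q * (n * ((n + 1) * f.coeff (n + 1))) + 2 * (Q * (n * (n * f.coeff n) - n * f.coeff n)) +
      a * ((n + 1) * f.coeff (n + 1)) - b * (n * f.coeff n) := by
  have e : (Polynomial.C Q * Polynomial.X * (1 + 2 * Polynomial.X) *
        Polynomial.derivative (Polynomial.derivative f) +
      (Polynomial.C a - Polynomial.C b * Polynomial.X) * Polynomial.derivative f) =
      Polynomial.C Q * (Polynomial.X * Polynomial.derivative (Polynomial.derivative f)) +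
      Polynomial.C 2 * (Polynomial.C Q * (Polynomial.X * Polynomial.derivative
        (Polynomial.X * Polynomial.derivative f) - Polynomial.X * Polynomial.derivative f)) +
      Polynomial.C a * Polynomial.derivative f -
      Polynomial.C b * (Polynomial.X * Polynomial.derivative f) := by
    rw [Polynomial.derivative_mul, Polynomial.derivative_X, map_ofNat]
    ring
  rw [e]
  simp only [Polynomial.coeff_add, Polynomial.coeff_sub, Polynomial.coeff_C_mul, eh_cXd,
    Polynomial.coeff_derivative]
  ring

/-- the hypergeometric equation -/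
theorem edge_hyp (lam s : ℕ) (q : ℝ) (f : Polynomial ℂ) (hf : f ≠ 0)
    (hsimple : ∀ ν : ℂ, f.IsRoot ν → (Polynomial.derivative f).eval ν ≠ 0)
    (hrel : ∀ ν : ℂ, f.IsRoot ν →
      2 * q * ν * (1 + 2 * ν) * (Polynomial.derivative (Polynomial.derivative f)).eval ν +
      ((2 * lam + 1) * q + 1 - 2 * q * (2 * s - 3) * ν) * (Polynomial.derivative f).eval ν
      = 0) :
    Polynomial.C (2 * (q : ℂ)) * Polynomial.X * (1 + 2 * Polynomial.X) *
        Polynomial.derivative (Polynomial.derivative f) +
      (Polynomial.C ((2 * lam + 1) * (q : ℂ) + 1) -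
        Polynomial.C (2 * (q : ℂ) * (2 * s - 3)) * Polynomial.X) * Polynomial.derivative f
      = Polynomial.C (2 * (q : ℂ) * f.natDegree * (2 * f.natDegree - 2 * s + 1)) * f := by
  set L := Polynomial.C (2 * (q : ℂ)) * Polynomial.X * (1 + 2 * Polynomial.X) *
        Polynomial.derivative (Polynomial.derivative f) +
      (Polynomial.C ((2 * lam + 1) * (q : ℂ) + 1) -
        Polynomial.C (2 * (q : ℂ) * (2 * s - 3)) * Polynomial.X) * Polynomial.derivative f with hL
  have hLc : ∀ n : ℕ, L.coeff n = _ := fun n =>
    eh_coeff (2 * (q : ℂ)) ((2 * lam + 1) * (q : ℂ) + 1) (2 * (q : ℂ) * (2 * s - 3)) f n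
  have hdeg : L.natDegree ≤ f.natDegree := by
    rw [Polynomial.natDegree_le_iff_coeff_eq_zero]
    intro N hN
    rw [hLc, Polynomial.coeff_eq_zero_of_natDegree_lt hN,
      Polynomial.coeff_eq_zero_of_natDegree_lt (lt_trans hN (Nat.lt_succ_self N))]
    ring
  have hLroot : ∀ ν : ℂ, f.IsRoot ν → L.IsRoot ν := by
    intro ν hν
    have h1 := hrel ν hν
    rw [Polynomial.IsRoot, hL]
    simp only [Polynomial.eval_add, Polynomial.eval_mul, Polynomial.eval_sub, Polynomial.eval_C,
      Polynomial.eval_X, Polynomial.eval_one, Polynomial.eval_ofNat]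
    linear_combination h1
  have hnodup : f.roots.Nodup := by
    rw [Multiset.nodup_iff_count_le_one]
    intro a
    rw [Polynomial.count_roots]
    by_contra hc
    push Not at hc
    rw [Polynomial.one_lt_rootMultiplicity_iff_isRoot hf] at hc
    exact hsimple a hc.1 hc.2
  have hdvd : f ∣ L := by
    by_cases hL0 : L = 0
    · rw [hL0]; exact dvd_zero f
    · have hle : f.roots ≤ L.roots := by
        rw [Multiset.le_iff_subset hnodup]
        intro a ha
        rw [Polynomial.mem_roots hL0]
        exact hLroot a ((Polynomial.mem_roots hf).mp ha)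
      exact (IsAlgClosed.splits f).dvd_of_roots_le_roots hf hle
  obtain ⟨g, hg⟩ := hdvd
  have hgC : ∃ c, g = Polynomial.C c := by
    by_cases hg0 : g = 0
    · exact ⟨0, by rw [hg0, map_zero]⟩
    · have h1 : (f * g).natDegree = f.natDegree + g.natDegree := Polynomial.natDegree_mul hf hg0
      rw [← hg] at h1
      have h2 : g.natDegree = 0 := by omega
      exact ⟨g.coeff 0, Polynomial.eq_C_of_natDegree_eq_zero h2⟩
  obtain ⟨c, rfl⟩ := hgC
  have h3 := hLc f.natDegree
  rw [hg, Polynomial.coeff_mul_C,
    Polynomial.coeff_eq_zero_of_natDegree_lt (Nat.lt_succ_self f.natDegree)] at h3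
  have hlead : f.coeff f.natDegree ≠ 0 := by
    rw [Polynomial.coeff_natDegree]
    exact Polynomial.leadingCoeff_ne_zero.mpr hf
  have h4 : c = 2 * (q : ℂ) * f.natDegree * (2 * f.natDegree - 2 * s + 1) := by
    apply mul_left_cancel₀ hlead
    rw [h3]
    ring
  rw [hg, h4, mul_comm]

end PL
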