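import Pool.Agent.Helper353.PL.Defs

set_option autoImplicit false

open MvPolynomial

namespace PL



theorem edge_low_aux (lam s q : ℂ) (j : ℕ) (g : Polynomial ℂ)
    (h : odeI lam s q (Polynomial.X ^ (j + 1) * g) = 0) :
    ((lam + (j + 1)) * (j + 1) * (g.eval 0) ^ 3 *
      (q * (4 * (lam + (j + 1)) * (j + 1) - ((lam + (j + 1)) + (j + 1)))
        + ((lam + (j + 1)) + (j + 1))) : ℂ) = 0 := by
  obtain ⟨P, hP⟩ : ∃ P : Polynomial ℂ, P = Polynomial.X ^ j := ⟨_, rfl⟩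
  obtain ⟨g1, hg1⟩ : ∃ g1 : Polynomial ℂ, g1 = Polynomial.C ((j:ℂ) + 1) * g + Polynomial.X * Polynomial.derivative g := ⟨_, rfl⟩
  obtain ⟨g2, hg2⟩ : ∃ g2 : Polynomial ℂ, g2 = Polynomial.C (j:ℂ) * g1 + Polynomial.X * Polynomial.derivative g1 := ⟨_, rfl⟩
  have hf1 : Polynomial.derivative (Polynomial.X ^ (j + 1) * g) = P * g1 := by
    rw [Polynomial.derivative_mul, Polynomial.derivative_X_pow, hP, hg1]
    simp only [Nat.cast_add, Nat.cast_one, Nat.add_sub_cancel]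
    ring
  have hf2 : Polynomial.X * Polynomial.derivative (P * g1) = P * g2 := by
    rw [Polynomial.derivative_mul, hP, Polynomial.derivative_X_pow, hg2]
    rcases j with _ | k
    · simp
    · simp only [Nat.add_sub_cancel]
      ring
  have hf : (Polynomial.X ^ (j + 1) * g : Polynomial ℂ) = Polynomial.X * P * g := by rw [hP]; ring
  obtain ⟨f2, hf2'⟩ : ∃ f2 : Polynomial ℂ, f2 = Polynomial.derivative (P * g1) := ⟨_, rfl⟩
  rw [← hf2'] at hf2
  unfold odeI at h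
  simp only [hf1, ← hf2'] at h
  rw [hf] at h
  obtain ⟨a, ha⟩ : ∃ a : Polynomial ℂ, a = Polynomial.C lam * g + g1 := ⟨_, rfl⟩
  obtain ⟨cc, hcc⟩ : ∃ cc : Polynomial ℂ, cc = Polynomial.C s * g - 2 * g1 := ⟨_, rfl⟩
  obtain ⟨bc, hbc⟩ : ∃ bc : Polynomial ℂ, bc = Polynomial.C (s - 2) * g1 - 2 * g2 := ⟨_, rfl⟩
  obtain ⟨c3, hc3⟩ : ∃ c3 : Polynomial ℂ, c3 = Polynomial.C (s - 1) * cc - 2 * bc := ⟨_, rfl⟩
  obtain ⟨ab, hab⟩ : ∃ ab : Polynomial ℂ, ab = Polynomial.C (lam + 1) * g1 + g2 := ⟨_, rfl⟩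
  obtain ⟨ac, hac⟩ : ∃ ac : Polynomial ℂ, ac = Polynomial.C s * a - 2 * ab := ⟨_, rfl⟩
  obtain ⟨aa, haa⟩ : ∃ aa : Polynomial ℂ, aa = Polynomial.C (lam + s - 1) * a - ab - ac := ⟨_, rfl⟩
  have e1 : Polynomial.C lam * (Polynomial.X * P * g) + Polynomial.X * (P * g1) = Polynomial.X * P * a := by rw [ha]; ring
  have e2 : Polynomial.C s * (Polynomial.X * P * g) - 2 * Polynomial.X * (P * g1) = Polynomial.X * P * cc := by rw [hcc]; ring
  have e3 : Polynomial.C (s - 2) * (P * g1) - 2 * Polynomial.X * f2 = P * bc := by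
    rw [hbc]; linear_combination (-2) * hf2
  have e4 : Polynomial.C (s - 1) * (Polynomial.X * P * cc) - 2 * Polynomial.X * (P * bc) = Polynomial.X * P * c3 := by rw [hc3]; ring
  have e5 : Polynomial.C (lam + 1) * (P * g1) + Polynomial.X * f2 = P * ab := by
    rw [hab]; linear_combination hf2
  have e6 : Polynomial.C s * (Polynomial.X * P * a) - 2 * Polynomial.X * (P * ab) = Polynomial.X * P * ac := by rw [hac]; ring
  have e7 : Polynomial.C (lam + s - 1) * (Polynomial.X * P * a) - Polynomial.X * (P * ab) - Polynomial.X * P * ac = Polynomial.X * P * aa := by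
    rw [haa]; ring
  simp only [e1, e2, e3, e4, e5, e6, e7] at h
  have hW : Polynomial.X * P ^ 3 * ((2 * a * g1 + Polynomial.X * cc ^ 2) * (2 * ab + Polynomial.X * c3) +
      Polynomial.C (q - 1) * (g1 ^ 2 * aa + a ^ 2 * g2 + Polynomial.X ^ 2 * cc ^ 2 * c3 + 2 * a * g1 * ab
        + 2 * Polynomial.X * g1 * cc * ac + 2 * Polynomial.X * a * cc * bc)) = 0 := by
    linear_combination h - Polynomial.C (q - 1) * (Polynomial.X * P ^ 2 * a ^ 2) * hf2
  have hXP : Polynomial.X * P ^ 3 ≠ 0 := by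
    rw [hP]
    exact mul_ne_zero Polynomial.X_ne_zero (pow_ne_zero _ (pow_ne_zero _ Polynomial.X_ne_zero))
  have hW0 := (mul_eq_zero.1 hW).resolve_left hXP
  have hW1 := congrArg (Polynomial.eval 0) hW0
  have v1 : g1.eval 0 = ((j:ℂ) + 1) * g.eval 0 := by rw [hg1]; simp
  have v2 : g2.eval 0 = (j:ℂ) * (((j:ℂ) + 1) * g.eval 0) := by rw [hg2]; simp [v1]
  have v3 : a.eval 0 = (lam + (j + 1)) * g.eval 0 := by rw [ha]; simp [v1]; ring
  have v4 : ab.eval 0 = (lam + (j + 1)) * (j + 1) * g.eval 0 := by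
    rw [hab]; simp [v1, v2]; ring
  have v5 : ac.eval 0 = s * ((lam + (j + 1)) * g.eval 0) -
      2 * ((lam + (j + 1)) * (j + 1) * g.eval 0) := by rw [hac]; simp [v3, v4]
  have v6 : aa.eval 0 = (lam + (j + 1)) * (lam + (j + 1) - 1) * g.eval 0 := by
    rw [haa]; simp [v3, v4, v5]; ring
  simp only [Polynomial.eval_add, Polynomial.eval_mul, Polynomial.eval_pow, Polynomial.eval_X, Polynomial.eval_C, v1, v2, v3, v4, v6, Polynomial.eval_zero,
    Polynomial.eval_ofNat] at hW1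
  linear_combination hW1

/-- `0` is not a root -/
theorem edge_low (lam s : ℕ) (q : ℝ) (hq : 0 < q) (f : Polynomial ℂ) (hf : f ≠ 0)
    (h : odeI lam s q f = 0) : f.coeff 0 ≠ 0 := by
  intro h0
  obtain ⟨g, hg, hnd⟩ := Polynomial.exists_eq_pow_rootMultiplicity_mul_and_not_dvd f hf 0
  rw [Polynomial.C_0, sub_zero] at hg hnd
  rw [Polynomial.X_dvd_iff] at hnd
  obtain ⟨r, hr⟩ : ∃ r : ℕ, r = f.rootMultiplicity 0 := ⟨_, rfl⟩
  rw [← hr] at hg
  rcases r with _ | j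
  · rw [pow_zero, one_mul] at hg
    rw [hg] at h0
    exact hnd h0
  · rw [hg] at h
    have h1 := edge_low_aux lam s q j g h
    have hc : g.eval 0 ≠ 0 := by rwa [← Polynomial.coeff_zero_eq_eval_zero]
    have hpos : 0 < ((lam:ℝ) + (j + 1)) * (j + 1) *
      (q * (4 * ((lam:ℝ) + (j + 1)) * (j + 1) - (((lam:ℝ) + (j + 1)) + (j + 1)))
        + (((lam:ℝ) + (j + 1)) + (j + 1))) := by
      have hl : (0:ℝ) ≤ lam := Nat.cast_nonneg _
      have hj : (0:ℝ) ≤ j := Nat.cast_nonneg _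
      have h2 : 0 ≤ 4 * ((lam:ℝ) + (j + 1)) * (j + 1) - (((lam:ℝ) + (j + 1)) + (j + 1)) := by
        nlinarith [mul_nonneg hl hj, mul_nonneg hj hj]
      have h3 := mul_nonneg hq.le h2
      positivity
    have h4 : ((((lam:ℝ) + (j + 1)) * (j + 1) *
      (q * (4 * ((lam:ℝ) + (j + 1)) * (j + 1) - (((lam:ℝ) + (j + 1)) + (j + 1)))
        + (((lam:ℝ) + (j + 1)) + (j + 1))) : ℝ) : ℂ) * (g.eval 0) ^ 3 = 0 := by
      push_cast
      linear_combination h1
    rcases mul_eq_zero.1 h4 with h5 | h5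
    · rw [Complex.ofReal_eq_zero] at h5
      exact hpos.ne' h5
    · exact hc (pow_eq_zero_iff (by norm_num) |>.1 h5)

end PL
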