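import Pool.Agent.Helper353.PL.Defs

set_option autoImplicit false

open MvPolynomial

namespace PL



/-- the expression `odeI` in an arbitrary commutative ring, cleared of denominators by `x` -/
def odeX {A : Type*} [CommRing A] (L S Q X x f F1 F2 : A) : A :=
  let Ub := F1
  let Uc := S * x * f - 2 * X * F1
  let Ua := L * x * f + X * F1
  let Ubb := F2
  let Ubc := (S - 2) * x * F1 - 2 * X * F2
  let Ucc := (S - 1) * x * Uc - 2 * X * Ubc
  let Uab := (L + 1) * x * F1 + X * F2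
  let Uac := S * x * Ua - 2 * X * Uab
  let Uaa := (L + S - 1) * x * Ua - X * Uab - Uac
  (2 * Ua * Ub + Uc ^ 2) * (2 * Uab + Ucc) +
    (Q - 1) * (Ub ^ 2 * Uaa + Ua ^ 2 * Ubb + Uc ^ 2 * Ucc
      + 2 * Ua * Ub * Uab + 2 * Ub * Uc * Uac + 2 * Ua * Uc * Ubc)

theorem odeX_scale {A : Type*} [CommRing A] (L S Q X x y f F1 F2 : A) :
    odeX L S Q X x (y * f) (y * F1) (y * F2) = y ^ 3 * odeX L S Q X x f F1 F2 := by
  simp only [odeX]
  ring

theorem odeX_clear {A : Type*} [CommRing A] (L S Q X x f F1 F2 : A) :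
    odeX L S Q X x f (x * F1) (x ^ 2 * F2) = x ^ 4 * odeX L S Q X 1 f F1 F2 := by
  simp only [odeX]
  ring

/-- part of the second order term -/
def odeW0 {A : Type*} [CommRing A] (L S Q R g h k : A) : A :=
    (-12*R^2 + 8*Q*R^2 + 32*Q*R^3 + 4*S*R - 4*S*Q*R - 48*S*Q*R^2 + 16*S^2*Q*R + 4*L*R - 4*L*Q*R - 48*L*Q*R^2 + 32*L*S*Q*R + 16*L^2*Q*R)*g^2*h +
    (8*R^3 - 8*Q*R^3 - 32*Q*R^4 - 4*S*R^2 + 8*S*Q*R^2 + 64*S*Q*R^3 - 2*S^2*Q*R - 40*S^2*Q*R^2 + 8*S^3*Q*R + 8*L*R^2 + 32*L*Q*R^3 - 4*L*S*R - 32*L*S*Q*R^2 + 8*L*S^2*Q*R)*g^3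

/-- part of the second order term -/
def odeW1 {A : Type*} [CommRing A] (L S Q R g h k : A) : A :=
    (-6*R + 8*Q*R + 20*Q*R^2 + S - 3*S*Q - 20*S*Q*R + S^2 + 3*S^2*Q + L - 3*L*Q - 20*L*Q*R + 2*L*S + 6*L*S*Q + L^2 + 3*L^2*Q)*g*h^2 +
    (12*R^2 - 28*Q*R^2 - 64*Q*R^3 - 4*S*R + 24*S*Q*R + 96*S*Q*R^2 + 2*S^2 - 5*S^2*Q - 40*S^2*Q*R + 4*S^3*Q + 8*L*R + 8*L*Q*R + 48*L*Q*R^2 + 2*L*S - 4*L*S*Q - 32*L*S*Q*R + 4*L*S^2*Q)*g^2*h +
    (4*Q*R^2 - 4*S*Q*R - S^2 + S^2*Q - 4*L*Q*R - 2*L*S + 2*L*S*Q - L^2 + L^2*Q)*g^2*k +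
    (8*Q*R^3 + 16*Q*R^4 - 12*S*Q*R^2 - 32*S*Q*R^3 + 6*S^2*Q*R + 24*S^2*Q*R^2 - S^3*Q - 8*S^3*Q*R + S^4*Q)*g^3

/-- part of the second order term -/
def odeW2 {A : Type*} [CommRing A] (L S Q R g h k : A) : A :=
    (-1 + 2*Q + 4*Q*R - 2*S*Q - 2*L*Q)*h^3 +
    (6*R - 22*Q*R - 40*Q*R^2 - S + 10*S*Q + 40*S*Q*R - S^2 - 8*S^2*Q + 2*L + 4*L*Q + 20*L*Q*R - 2*L*S - 6*L*S*Q)*g*h^2 +
    (4*Q*R - 2*S*Q - 2*L*Q)*g*h*k +
    (-8*Q*R^2 + 8*S*Q*R + S^2 - 2*S^2*Q + 4*L*Q*R + 2*L*S - 2*L*S*Q)*g^2*k +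
    (20*Q*R^2 + 32*Q*R^3 - 20*S*Q*R - 48*S*Q*R^2 + 5*S^2*Q + 24*S^2*Q*R - 4*S^3*Q)*g^2*h

/-- part of the second order term -/
def odeW3 {A : Type*} [CommRing A] (L S Q R g h k : A) : A :=
    (1 - 5*Q - 8*Q*R + 4*S*Q + 2*L*Q)*h^3 +
    (Q)*h^2*k +
    (-8*Q*R + 4*S*Q + 2*L*Q)*g*h*k +
    (14*Q*R + 20*Q*R^2 - 7*S*Q - 20*S*Q*R + 5*S^2*Q)*g*h^2 +
    (4*Q*R^2 - 4*S*Q*R + S^2*Q)*g^2*k

/-- part of the second order term -/
def odeW4 {A : Type*} [CommRing A] (L S Q R g h k : A) : A :=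
    (-2*Q)*h^2*k +
    (3*Q + 4*Q*R - 2*S*Q)*h^3 +
    (4*Q*R - 2*S*Q)*g*h*k

/-- part of the second order term -/
def odeW5 {A : Type*} [CommRing A] (L S Q R g h k : A) : A :=
    (Q)*h^2*k

/-- the second order term of the cleared expression -/
def odeW {A : Type*} [CommRing A] (L S Q R x g h k : A) : A :=
    x^0 * odeW0 L S Q R g h k + x^1 * odeW1 L S Q R g h k + x^2 * odeW2 L S Q R g h k + x^3 * odeW3 L S Q R g h k + x^4 * odeW4 L S Q R g h k + x^5 * odeW5 L S Q R g h k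

theorem odeX_key {A : Type*} [CommRing A] (L S Q R X g h k : A) :
    odeX L S Q X (1 + 2 * X) g (2 * R * g + (1 + 2 * X) * h)
      (4 * R * (R - 1) * g + 4 * R * (1 + 2 * X) * h + (1 + 2 * X) ^ 2 * k) =
    (1 + 2 * X) ^ 2 * (4 * R * (L + S - R) * (2 * R * (2 * (L + S) - 2 * R + 1) +
      (Q - 1) * ((L + S) * (2 * R - 1) + 2 * R * (L + S - 2 * R))) * g ^ 3 +
      (1 + 2 * X) * odeW L S Q R (1 + 2 * X) g h k) := by
  simp only [odeX, odeW, odeW0, odeW1, odeW2, odeW3, odeW4, odeW5]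
  ring

/-- `-1/2` is not a root -/
theorem edge_root_half (lam s : ℕ) (q : ℝ) (hq : 0 < q) (f : Polynomial ℂ) (hf : f ≠ 0)
    (hdeg : 2 * f.natDegree ≤ s)
    (h : odeI lam s q f = 0) : ¬ f.IsRoot (-1/2 : ℂ) := by
  intro hroot
  have hr1 : 1 ≤ f.rootMultiplicity (-1/2 : ℂ) := (Polynomial.rootMultiplicity_pos hf).2 hroot
  obtain ⟨g0, hg0, hg0'⟩ :=
    Polynomial.exists_eq_pow_rootMultiplicity_mul_and_not_dvd f hf (-1/2 : ℂ)
  obtain ⟨t, ht⟩ : ∃ t, f.rootMultiplicity (-1/2 : ℂ) = t + 1 :=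
    ⟨_, (Nat.sub_add_cancel hr1).symm⟩
  rw [ht] at hg0
  have hg0ne : g0 ≠ 0 := by
    rintro rfl; exact hg0' (dvd_zero _)
  have hrdeg : t + 1 ≤ f.natDegree := by
    have : (t + 1) ≤ ((Polynomial.X - Polynomial.C (-1/2 : ℂ)) ^ (t + 1) * g0).natDegree := by
      rw [Polynomial.natDegree_mul (pow_ne_zero _ (Polynomial.X_sub_C_ne_zero _)) hg0ne,
        Polynomial.natDegree_pow, Polynomial.natDegree_X_sub_C]
      omega
    rwa [← hg0] at this
  have hge : g0.eval (-1/2 : ℂ) ≠ 0 := by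
    intro h0
    exact hg0' (Polynomial.dvd_iff_isRoot.2 h0)
  obtain ⟨g, hg, hgev⟩ : ∃ g : Polynomial ℂ, f = (1 + 2 * Polynomial.X) ^ (t + 1) * g ∧
      g.eval (-1/2 : ℂ) ≠ 0 := by
    refine ⟨Polynomial.C ((1/2 : ℂ) ^ (t + 1)) * g0, ?_, ?_⟩
    · rw [map_pow, ← mul_assoc, ← mul_pow]
      have : (1 + 2 * Polynomial.X) * Polynomial.C (1/2 : ℂ) =
          Polynomial.X - Polynomial.C (-1/2 : ℂ) := by
        have h2 : (2 : Polynomial ℂ) = Polynomial.C 2 := rfl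
        have h3 : Polynomial.C (2 : ℂ) * Polynomial.C (1/2 : ℂ) = 1 := by
          rw [← Polynomial.C_mul]; norm_num
        have h4 : Polynomial.C (-1/2 : ℂ) = - Polynomial.C (1/2 : ℂ) := by
          rw [← Polynomial.C_neg]; norm_num
        rw [h2, h4]
        linear_combination Polynomial.X * h3
      rw [this]
      exact hg0
    · rw [Polynomial.eval_mul, Polynomial.eval_C]
      exact mul_ne_zero (pow_ne_zero _ (by norm_num)) hge
  set r : ℕ := t + 1 with hr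
  have d1 : Polynomial.derivative (1 + 2 * Polynomial.X : Polynomial ℂ) = 2 := by
    simp
  have hF1 : (1 + 2 * Polynomial.X) * Polynomial.derivative f = (1 + 2 * Polynomial.X) ^ r *
      (2 * (r : Polynomial ℂ) * g + (1 + 2 * Polynomial.X) * Polynomial.derivative g) := by
    conv_lhs => rw [hg]
    rw [Polynomial.derivative_mul, Polynomial.derivative_pow, d1, hr, Nat.add_sub_cancel]
    simp only [Polynomial.C_eq_natCast, map_natCast]
    ring
  have hF2 : (1 + 2 * Polynomial.X) ^ 2 * Polynomial.derivative (Polynomial.derivative f) =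
      (1 + 2 * Polynomial.X) ^ r * (4 * (r : Polynomial ℂ) * ((r : Polynomial ℂ) - 1) * g +
        4 * (r : Polynomial ℂ) * (1 + 2 * Polynomial.X) * Polynomial.derivative g +
        (1 + 2 * Polynomial.X) ^ 2 * Polynomial.derivative (Polynomial.derivative g)) := by
    have hD := congrArg Polynomial.derivative hF1
    simp only [Polynomial.derivative_mul, Polynomial.derivative_add, Polynomial.derivative_pow,
      Polynomial.derivative_natCast, Polynomial.derivative_ofNat, Polynomial.derivative_one,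
      Polynomial.derivative_X, map_natCast] at hD hF1
    rw [hr, Nat.add_sub_cancel] at hD
    rw [hr] at hF1 ⊢
    linear_combination (1 + 2 * Polynomial.X) * hD - 2 * hF1
  have hI : odeI lam s q f = odeX (Polynomial.C (lam : ℂ)) (Polynomial.C (s : ℂ))
      (Polynomial.C (q : ℂ)) Polynomial.X 1 f (Polynomial.derivative f)
      (Polynomial.derivative (Polynomial.derivative f)) := by
    simp only [odeI, odeX, map_sub, map_add, map_one, map_ofNat]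
    ring
  have hmain := odeX_clear (Polynomial.C (lam : ℂ)) (Polynomial.C (s : ℂ))
      (Polynomial.C (q : ℂ)) Polynomial.X (1 + 2 * Polynomial.X) f (Polynomial.derivative f)
      (Polynomial.derivative (Polynomial.derivative f))
  rw [← hI, h, mul_zero, hF1, hF2] at hmain
  conv at hmain => lhs; rw [hg]
  rw [odeX_scale, odeX_key] at hmain
  have hx : (1 + 2 * Polynomial.X : Polynomial ℂ) ≠ 0 := by
    intro h0
    have := congrArg (Polynomial.eval (0 : ℂ)) h0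
    simp at this
  have hz := (mul_eq_zero.1 hmain).resolve_left (pow_ne_zero _ (pow_ne_zero _ hx))
  have hz2 := (mul_eq_zero.1 hz).resolve_left (pow_ne_zero _ hx)
  have hz3 := congrArg (Polynomial.eval (-1/2 : ℂ)) hz2
  have hxe : Polynomial.eval (-1/2 : ℂ) (1 + 2 * Polynomial.X : Polynomial ℂ) = 0 := by
    simp; norm_num
  rw [Polynomial.eval_add, Polynomial.eval_mul (p := 1 + 2 * Polynomial.X), hxe, zero_mul,
    add_zero, Polynomial.eval_zero, Polynomial.eval_mul, Polynomial.eval_pow] at hz3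
  have hz4 := (mul_eq_zero.1 hz3).resolve_right (pow_ne_zero _ hgev)
  simp only [Polynomial.eval_mul, Polynomial.eval_add, Polynomial.eval_sub, Polynomial.eval_C,
    Polynomial.eval_natCast, Polynomial.eval_ofNat, Polynomial.eval_one] at hz4
  have hM : 2 * (r : ℝ) ≤ (lam : ℝ) + s := by
    have : 2 * r ≤ lam + s := by omega
    exact_mod_cast this
  have hr0 : (1 : ℝ) ≤ r := by exact_mod_cast (by omega : 1 ≤ r)
  have hpos : 0 < 4 * (r : ℝ) * ((lam : ℝ) + s - r) *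
      (2 * r * (2 * ((lam : ℝ) + s) - 2 * r + 1) +
        (q - 1) * (((lam : ℝ) + s) * (2 * r - 1) + 2 * r * ((lam : ℝ) + s - 2 * r))) := by
    have h1 : 0 < (lam : ℝ) + s - r := by linarith
    have h2 : 0 ≤ ((lam : ℝ) + s) * (2 * r - 1) := mul_nonneg (by linarith) (by linarith)
    have h3 : 0 ≤ 2 * r * ((lam : ℝ) + s - 2 * r) := mul_nonneg (by linarith) (by linarith)
    have h4 : 0 < (2 * r * (2 * ((lam : ℝ) + s) - 2 * r + 1) +
        (q - 1) * (((lam : ℝ) + s) * (2 * r - 1) + 2 * r * ((lam : ℝ) + s - 2 * r))) := by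
      have h5 : 0 ≤ q * (((lam : ℝ) + s) * (2 * r - 1) + 2 * r * ((lam : ℝ) + s - 2 * r)) :=
        mul_nonneg hq.le (by linarith)
      nlinarith
    have h6 : (0 : ℝ) < 4 * r := by linarith
    exact mul_pos (mul_pos h6 h1) h4
  apply hpos.ne'
  have : ((4 * (r : ℝ) * ((lam : ℝ) + s - r) *
      (2 * r * (2 * ((lam : ℝ) + s) - 2 * r + 1) +
        (q - 1) * (((lam : ℝ) + s) * (2 * r - 1) + 2 * r * ((lam : ℝ) + s - 2 * r))) : ℝ) : ℂ)
      = 0 := by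
    push_cast
    exact hz4
  exact_mod_cast this

end PL
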