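import Pool.Agent.Helper353.PL.Defs

set_option autoImplicit false

open MvPolynomial

namespace PL



/-- the algebraic identity behind the leading term -/
theorem erm_ident {A : Type} [CommRing A] (X L S Q t T g g1 g2 f f1 f2 Uc Ua Ubc Ucc Uab Uac Uaa : A)
    (hf : f = T * t ^ 2 * g) (hf1 : f1 = T * t * g1) (hf2 : f2 = T * g2)
    (hUc : Uc = S * f - 2 * X * f1) (hUa : Ua = L * f + X * f1)
    (hUbc : Ubc = (S - 2) * f1 - 2 * X * f2) (hUcc : Ucc = (S - 1) * Uc - 2 * X * Ubc)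
    (hUab : Uab = (L + 1) * f1 + X * f2) (hUac : Uac = S * Ua - 2 * X * Uab)
    (hUaa : Uaa = (L + S - 1) * Ua - X * Uab - Uac) :
    (2 * Ua * f1 + Uc ^ 2) * (2 * Uab + Ucc) +
    (Q - 1) * (f1 ^ 2 * Uaa + Ua ^ 2 * f2 + Uc ^ 2 * Ucc
      + 2 * Ua * f1 * Uab + 2 * f1 * Uc * Uac + 2 * Ua * Uc * Ubc) =
    T ^ 3 * t ^ 2 * (4 * Q * X ^ 2 * (1 + 2 * X) ^ 2 * g1 ^ 2 * g2 + t * (- 16 * X ^ 3 * S * Q * g * g1 * g2 - 16 * X ^ 3 * S * Q * g1 ^ 3 + 24 * X ^ 3 * Q * g1 ^ 3 + 8 * X ^ 2 * L * Q * g * g1 * g2 + 8 * X ^ 2 * L * Q * g1 ^ 3 + 4 * X ^ 2 * S ^ 2 * Q * t * g ^ 2 * g2 + 20 * X ^ 2 * S ^ 2 * Q * t * g * g1 ^ 2 - 28 * X ^ 2 * S * Q * t * g * g1 ^ 2 - 8 * X ^ 2 * S * Q * g * g1 * g2 - 8 * X ^ 2 * S * Q * g1 ^ 3 + 16 * X ^ 2 * Q * g1 ^ 3 + 4 * X ^ 2 * g1 ^ 3 - 4 * X * L * S * Q * t * g ^ 2 * g2 - 12 * X * L * S * Q * t * g * g1 ^ 2 + 4 * X * L * S * t * g ^ 2 * g2 - 4 * X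 * L * S * t * g * g1 ^ 2 + 8 * X * L * Q * t * g * g1 ^ 2 + 4 * X * L * Q * g * g1 * g2 + 4 * X * L * Q * g1 ^ 3 + 4 * X * L * t * g * g1 ^ 2 - 8 * X * S ^ 3 * Q * t ^ 2 * g ^ 2 * g1 + 10 * X * S ^ 2 * Q * t ^ 2 * g ^ 2 * g1 + 4 * X * S ^ 2 * Q * t * g * g1 ^ 2 + 2 * X * S ^ 2 * t * g ^ 2 * g2 - 2 * X * S ^ 2 * t * g * g1 ^ 2 - 8 * X * S * Q * t * g * g1 ^ 2 - 2 * X * S * t * g * g1 ^ 2 + 2 * X * Q * g1 ^ 3 + 2 * X * g1 ^ 3 + L ^ 2 * Q * t * g ^ 2 * g2 + 3 * L ^ 2 * Q * t * g * g1 ^ 2 - L ^ 2 * t * g ^ 2 * g2 + L ^ 2 * t * g * g1 ^ 2 + 4 * L * S ^ 2 * Q * t ^ 2 * g ^ 2 * g1 - 4 * L * S * Q * t ^ 2 * g ^ 2 * g1 + 2 * L * S * t ^ 2 * g ^ 2 * g1 + L * Q * t * g * g1 ^ 2 + 3 * L * t * g * g1 ^ 2 + S ^ 4 * Q * t ^ 3 * g ^ 3 - S ^ 3 * Q * t ^ 3 * g ^ 3 + 2 * S ^ 2 * t ^ 2 * g ^ 2 * g1)) := by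
  rw [hUaa, hUac, hUcc, hUbc, hUab, hUc, hUa, hf, hf1, hf2]
  ring

/-- multiple roots other than `0`, `-1/2` are impossible -/
theorem edge_root_mult (lam s q : ℝ) (hq : 0 < q) (f : Polynomial ℂ) (hf : f ≠ 0)
    (h : odeI lam s q f = 0) (ν : ℂ) (h0 : ν ≠ 0) (h1 : 1 + 2 * ν ≠ 0) (hν : f.IsRoot ν) :
    (Polynomial.derivative f).eval ν ≠ 0 := by
  intro hd
  obtain ⟨g, hg, hgn⟩ := Polynomial.exists_eq_pow_rootMultiplicity_mul_and_not_dvd f hf ν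
  have hgν : g.eval ν ≠ 0 := fun hh => hgn (Polynomial.dvd_iff_isRoot.mpr hh)
  obtain ⟨k, hk⟩ : ∃ k, Polynomial.rootMultiplicity ν f = k + 2 := by
    have h2 : 1 < Polynomial.rootMultiplicity ν f :=
      (Polynomial.one_lt_rootMultiplicity_iff_isRoot hf).mpr ⟨hν, hd⟩
    exact ⟨Polynomial.rootMultiplicity ν f - 2, by omega⟩
  rw [hk] at hg
  set t : Polynomial ℂ := Polynomial.X - Polynomial.C ν with ht
  have hdt : Polynomial.derivative t = 1 := by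
    rw [ht]; simp
  set g1 : Polynomial ℂ := ((k : Polynomial ℂ) + 2) * g + t * Polynomial.derivative g with hg1
  set g2 : Polynomial ℂ := ((k : Polynomial ℂ) + 1) * g1 + t * Polynomial.derivative g1 with hg2
  have hf1 : Polynomial.derivative f = t ^ k * t * g1 := by
    rw [hg, Polynomial.derivative_mul, Polynomial.derivative_pow, hdt, hg1]
    have : (k + 2 - 1) = k + 1 := by omega
    rw [this]
    simp only [map_natCast, Nat.cast_add, Nat.cast_ofNat, map_add, map_ofNat]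
    ring
  have hf2 : Polynomial.derivative (Polynomial.derivative f) = t ^ k * g2 := by
    have e : t ^ k * t * g1 = t ^ (k + 1) * g1 := by ring
    rw [hf1, e, Polynomial.derivative_mul, Polynomial.derivative_pow, hdt, hg2]
    have : (k + 1 - 1) = k := by omega
    rw [this]
    simp only [map_natCast, Nat.cast_add, Nat.cast_one, map_add, map_one]
    ring
  have hf0 : f = t ^ k * t ^ 2 * g := by rw [← pow_add]; exact hg
  have key := erm_ident (A := Polynomial ℂ) Polynomial.X (Polynomial.C (lam : ℂ))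
    (Polynomial.C (s : ℂ)) (Polynomial.C (q : ℂ)) t (t ^ k) g g1 g2 f (Polynomial.derivative f)
    (Polynomial.derivative (Polynomial.derivative f)) _ _ _ _ _ _ _ hf0 hf1 hf2 rfl rfl rfl rfl rfl rfl rfl
  have h' := h
  simp only [odeI, map_sub, map_add, map_one, map_ofNat] at h'
  rw [h'] at key
  have hT : t ≠ 0 := Polynomial.X_sub_C_ne_zero ν
  have hT3 : (t ^ k) ^ 3 * t ^ 2 ≠ 0 := mul_ne_zero (pow_ne_zero _ (pow_ne_zero _ hT)) (pow_ne_zero _ hT)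
  have key2 := (mul_eq_zero.mp key.symm).resolve_left hT3
  have key3 := congrArg (Polynomial.eval ν) key2
  have ht0 : Polynomial.eval ν t = 0 := by rw [ht]; simp
  have e1 : Polynomial.eval ν g1 = ((k : ℂ) + 2) * Polynomial.eval ν g := by
    rw [hg1]
    simp [ht0]
  have e2 : Polynomial.eval ν g2 = ((k : ℂ) + 1) * (((k : ℂ) + 2) * Polynomial.eval ν g) := by
    rw [hg2]
    rw [Polynomial.eval_add, Polynomial.eval_mul, Polynomial.eval_mul, e1, ht0]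
    simp
  rw [Polynomial.eval_add, Polynomial.eval_mul (p := t), ht0, zero_mul, add_zero] at key3
  simp only [Polynomial.eval_mul, Polynomial.eval_pow, e1, e2, Polynomial.eval_add,
    Polynomial.eval_X, Polynomial.eval_C, Polynomial.eval_ofNat, Polynomial.eval_one,
    Polynomial.eval_zero] at key3
  have hk1 : ((k : ℂ) + 1) ≠ 0 := by exact_mod_cast Nat.succ_ne_zero k
  have hk2 : ((k : ℂ) + 2) ≠ 0 := by exact_mod_cast Nat.succ_ne_zero (k + 1)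
  have hq' : (q : ℂ) ≠ 0 := by exact_mod_cast hq.ne'
  have : (4 * (q : ℂ) * ν ^ 2 * (1 + 2 * ν) ^ 2 * (((k : ℂ) + 2) * Polynomial.eval ν g) ^ 2 *
      (((k : ℂ) + 1) * (((k : ℂ) + 2) * Polynomial.eval ν g))) ≠ 0 := by
    refine mul_ne_zero (mul_ne_zero (mul_ne_zero (mul_ne_zero (mul_ne_zero (by norm_num) hq')
      (pow_ne_zero _ h0)) (pow_ne_zero _ h1)) (pow_ne_zero _ (mul_ne_zero hk2 hgν)))
      (mul_ne_zero hk1 (mul_ne_zero hk2 hgν))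
  exact this key3

end PL
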