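import Pool.Agent.Helper353.PL.Defs

set_option autoImplicit false

open MvPolynomial

namespace PL



/-- relation at a simple root -/
theorem edge_root_rel (lam s q : ℝ) (f : Polynomial ℂ)
    (h : odeI lam s q f = 0) (ν : ℂ) (h0 : ν ≠ 0) (h1 : 1 + 2 * ν ≠ 0) (hν : f.IsRoot ν)
    (hν' : (Polynomial.derivative f).eval ν ≠ 0) :
    2 * q * ν * (1 + 2 * ν) * (Polynomial.derivative (Polynomial.derivative f)).eval ν +
      ((2 * lam + 1) * q + 1 - 2 * q * (2 * s - 3) * ν) * (Polynomial.derivative f).eval ν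
      = 0 := by
  have he := congrArg (Polynomial.eval ν) h
  have hf : Polynomial.eval ν f = 0 := hν
  unfold odeI at he
  simp only [Polynomial.eval_add, Polynomial.eval_sub, Polynomial.eval_mul, Polynomial.eval_pow,
    Polynomial.eval_C, Polynomial.eval_X, Polynomial.eval_ofNat, Polynomial.eval_zero, hf] at he
  set X1 := Polynomial.eval ν (Polynomial.derivative f) with hX1
  set B := Polynomial.eval ν (Polynomial.derivative (Polynomial.derivative f)) with hB
  have key : X1 ^ 2 * (2 * ν * (1 + 2 * ν)) * (2 * q * ν * (1 + 2 * ν) * B +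
      ((2 * lam + 1) * q + 1 - 2 * q * (2 * s - 3) * ν) * X1) = 0 := by
    linear_combination he
  have hne : X1 ^ 2 * (2 * ν * (1 + 2 * ν)) ≠ 0 :=
    mul_ne_zero (pow_ne_zero 2 hν') (mul_ne_zero (mul_ne_zero two_ne_zero h0) h1)
  exact (mul_eq_zero.1 key).resolve_left hne

end PL
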