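import Pool.Agent.Helper353.PL.Defs

set_option autoImplicit false

open MvPolynomial

namespace PL



theorem edge_top_T3 (D : ℕ) (P Q R : Polynomial ℂ) (hP : P.natDegree ≤ D)
    (hQ : Q.natDegree ≤ D) (hR : R.natDegree ≤ D) :
    (P * Q * R).coeff (D + D + D) = P.coeff D * Q.coeff D * R.coeff D := by
  rw [Polynomial.coeff_mul_add_eq_of_natDegree_le (Polynomial.natDegree_mul_le_of_le hP hQ) hR,
    Polynomial.coeff_mul_add_eq_of_natDegree_le hP hQ]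

theorem edge_top_abs (D : ℕ) (q : ℂ) (Ua Ub Uc Uaa Uab Uac Ubb Ubc Ucc : Polynomial ℂ)
    (h1 : Ua.natDegree ≤ D) (h2 : Ub.natDegree ≤ D) (h3 : Uc.natDegree ≤ D)
    (h4 : Uaa.natDegree ≤ D) (h5 : Uab.natDegree ≤ D) (h6 : Uac.natDegree ≤ D)
    (h7 : Ubb.natDegree ≤ D) (h8 : Ubc.natDegree ≤ D) (h9 : Ucc.natDegree ≤ D)
    (c2 : Ub.coeff D = 0) (c5 : Uab.coeff D = 0) (c7 : Ubb.coeff D = 0)
    (c8 : Ubc.coeff D = 0) :
    ((2 * Ua * Ub + Uc ^ 2) * (2 * Uab + Ucc) +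
      Polynomial.C (q - 1) * (Ub ^ 2 * Uaa + Ua ^ 2 * Ubb + Uc ^ 2 * Ucc
      + 2 * Ua * Ub * Uab + 2 * Ub * Uc * Uac + 2 * Ua * Uc * Ubc)).coeff (D + D + D) =
      q * (Uc.coeff D * Uc.coeff D * Ucc.coeff D) := by
  have e : (2 * Ua * Ub + Uc ^ 2) * (2 * Uab + Ucc) +
      Polynomial.C (q - 1) * (Ub ^ 2 * Uaa + Ua ^ 2 * Ubb + Uc ^ 2 * Ucc
      + 2 * Ua * Ub * Uab + 2 * Ub * Uc * Uac + 2 * Ua * Uc * Ubc) =
      Polynomial.C 2 * (Polynomial.C 2 * (Ua * Ub * Uab)) + Polynomial.C 2 * (Ua * Ub * Ucc) +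
      Polynomial.C 2 * (Uc * Uc * Uab) + Uc * Uc * Ucc +
      Polynomial.C (q - 1) * (Ub * Ub * Uaa + Ua * Ua * Ubb + Uc * Uc * Ucc
      + Polynomial.C 2 * (Ua * Ub * Uab) + Polynomial.C 2 * (Ub * Uc * Uac) +
      Polynomial.C 2 * (Ua * Uc * Ubc)) := by
    have h2 : (Polynomial.C 2 : Polynomial ℂ) = 2 := Polynomial.C_ofNat 2
    rw [h2]
    ring
  rw [e]
  simp only [Polynomial.coeff_add, Polynomial.coeff_C_mul]
  rw [edge_top_T3 D Ua Ub Uab h1 h2 h5, edge_top_T3 D Ua Ub Ucc h1 h2 h9,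
    edge_top_T3 D Uc Uc Uab h3 h3 h5, edge_top_T3 D Uc Uc Ucc h3 h3 h9,
    edge_top_T3 D Ub Ub Uaa h2 h2 h4, edge_top_T3 D Ua Ua Ubb h1 h1 h7,
    edge_top_T3 D Ub Uc Uac h2 h3 h6, edge_top_T3 D Ua Uc Ubc h1 h3 h8, c2, c5, c7, c8]
  ring

theorem edge_top_Xd (p : Polynomial ℂ) (n : ℕ) :
    (Polynomial.X * Polynomial.derivative p).coeff n = n * p.coeff n := by
  cases n with
  | zero => simp
  | succ n =>
    rw [Polynomial.coeff_X_mul, Polynomial.coeff_derivative]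
    push_cast
    ring

theorem edge_top_Xdd (p : Polynomial ℂ) (n : ℕ) :
    (Polynomial.X * (Polynomial.X * Polynomial.derivative (Polynomial.derivative p))).coeff n =
      n * (n - 1) * p.coeff n := by
  cases n with
  | zero => simp
  | succ n =>
    rw [Polynomial.coeff_X_mul, edge_top_Xd, Polynomial.coeff_derivative]
    push_cast
    ring

/-- the degree is `⌊s/2⌋` -/
theorem edge_top (lam s : ℕ) (q : ℝ) (hq : 0 < q) (f : Polynomial ℂ) (hf : f ≠ 0)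
    (hdeg : 2 * f.natDegree ≤ s)
    (h : odeI lam s q f = 0) : s = 2 * f.natDegree ∨ s = 2 * f.natDegree + 1 := by
  obtain ⟨D, hD⟩ : ∃ D, D = f.natDegree := ⟨_, rfl⟩
  obtain ⟨f1, hf1⟩ : ∃ f1, f1 = Polynomial.derivative f := ⟨_, rfl⟩
  obtain ⟨f2, hf2⟩ : ∃ f2, f2 = Polynomial.derivative f1 := ⟨_, rfl⟩
  -- degree bounds
  have d0 : ∀ n, D < n → f.coeff n = 0 := fun n hn =>
    Polynomial.coeff_eq_zero_of_natDegree_lt (hD ▸ hn)
  have d1 : ∀ n, D ≤ n → f1.coeff n = 0 := fun n hn => by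
    rw [hf1, Polynomial.coeff_derivative, d0 (n + 1) (by omega), zero_mul]
  have d2 : ∀ n, D ≤ n + 1 → f2.coeff n = 0 := fun n hn => by
    rw [hf2, Polynomial.coeff_derivative, d1 (n + 1) hn, zero_mul]
  have dX0 : ∀ p : Polynomial ℂ, (∀ n, D ≤ n → p.coeff n = 0) →
      ∀ n, D < n → (Polynomial.X * p).coeff n = 0 := by
    intro p hp n hn
    cases n with
    | zero => simp
    | succ n => rw [Polynomial.coeff_X_mul]; exact hp n (by omega)
  have dX1 : ∀ p : Polynomial ℂ, (∀ n, D ≤ n + 1 → p.coeff n = 0) →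
      ∀ n, D ≤ n → (Polynomial.X * p).coeff n = 0 := by
    intro p hp n hn
    cases n with
    | zero => simp
    | succ n => rw [Polynomial.coeff_X_mul]; exact hp n (by omega)
  have k1 : ∀ n, D ≤ n → (Polynomial.X * f2).coeff n = 0 := dX1 f2 d2
  have k0 : ∀ n, D < n → (Polynomial.X * f1).coeff n = 0 := dX0 f1 d1
  have h2C : (2 : Polynomial ℂ) = Polynomial.C 2 := (Polynomial.C_ofNat 2).symm
  obtain ⟨Uc, hUc⟩ : ∃ Uc : Polynomial ℂ, Uc = Polynomial.C (s : ℂ) * f - 2 * Polynomial.X * f1 :=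
    ⟨_, rfl⟩
  obtain ⟨Ua, hUa⟩ : ∃ Ua : Polynomial ℂ, Ua = Polynomial.C (lam : ℂ) * f + Polynomial.X * f1 :=
    ⟨_, rfl⟩
  obtain ⟨Ubc, hUbc⟩ : ∃ Ubc : Polynomial ℂ, Ubc = Polynomial.C ((s : ℂ) - 2) * f1 -
    2 * Polynomial.X * f2 := ⟨_, rfl⟩
  obtain ⟨Ucc, hUcc⟩ : ∃ Ucc : Polynomial ℂ, Ucc = Polynomial.C ((s : ℂ) - 1) * Uc -
    2 * Polynomial.X * Ubc := ⟨_, rfl⟩
  obtain ⟨Uab, hUab⟩ : ∃ Uab : Polynomial ℂ, Uab = Polynomial.C ((lam : ℂ) + 1) * f1 +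
    Polynomial.X * f2 := ⟨_, rfl⟩
  obtain ⟨Uac, hUac⟩ : ∃ Uac : Polynomial ℂ, Uac = Polynomial.C (s : ℂ) * Ua -
    2 * Polynomial.X * Uab := ⟨_, rfl⟩
  obtain ⟨Uaa, hUaa⟩ : ∃ Uaa : Polynomial ℂ, Uaa = Polynomial.C ((lam : ℂ) + s - 1) * Ua -
    Polynomial.X * Uab - Uac := ⟨_, rfl⟩
  have cUc : ∀ n, Uc.coeff n = s * f.coeff n - 2 * (Polynomial.X * f1).coeff n := fun n => by
    rw [hUc, mul_assoc, h2C, Polynomial.coeff_sub, Polynomial.coeff_C_mul, Polynomial.coeff_C_mul]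
  have cUa : ∀ n, Ua.coeff n = lam * f.coeff n + (Polynomial.X * f1).coeff n := fun n => by
    rw [hUa, Polynomial.coeff_add, Polynomial.coeff_C_mul]
  have cUbc : ∀ n, Ubc.coeff n = ((s : ℂ) - 2) * f1.coeff n -
      2 * (Polynomial.X * f2).coeff n := fun n => by
    rw [hUbc, mul_assoc, h2C, Polynomial.coeff_sub, Polynomial.coeff_C_mul, Polynomial.coeff_C_mul]
  have cUcc : ∀ n, Ucc.coeff n = ((s : ℂ) - 1) * Uc.coeff n -
      2 * (Polynomial.X * Ubc).coeff n := fun n => by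
    rw [hUcc, mul_assoc, h2C, Polynomial.coeff_sub, Polynomial.coeff_C_mul, Polynomial.coeff_C_mul]
  have cUab : ∀ n, Uab.coeff n = ((lam : ℂ) + 1) * f1.coeff n +
      (Polynomial.X * f2).coeff n := fun n => by
    rw [hUab, Polynomial.coeff_add, Polynomial.coeff_C_mul]
  have cUac : ∀ n, Uac.coeff n = s * Ua.coeff n - 2 * (Polynomial.X * Uab).coeff n :=
    fun n => by
    rw [hUac, mul_assoc, h2C, Polynomial.coeff_sub, Polynomial.coeff_C_mul, Polynomial.coeff_C_mul]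
  have cUaa : ∀ n, Uaa.coeff n = ((lam : ℂ) + s - 1) * Ua.coeff n -
      (Polynomial.X * Uab).coeff n - Uac.coeff n := fun n => by
    rw [hUaa, Polynomial.coeff_sub, Polynomial.coeff_sub, Polynomial.coeff_C_mul]
  have bUc : ∀ n, D < n → Uc.coeff n = 0 := fun n hn => by
    rw [cUc, d0 n hn, k0 n hn]; ring
  have bUa : ∀ n, D < n → Ua.coeff n = 0 := fun n hn => by
    rw [cUa, d0 n hn, k0 n hn]; ring
  have bUbc : ∀ n, D ≤ n → Ubc.coeff n = 0 := fun n hn => by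
    rw [cUbc, d1 n hn, k1 n hn]; ring
  have bUab : ∀ n, D ≤ n → Uab.coeff n = 0 := fun n hn => by
    rw [cUab, d1 n hn, k1 n hn]; ring
  have bUcc : ∀ n, D < n → Ucc.coeff n = 0 := fun n hn => by
    rw [cUcc, bUc n hn, dX0 Ubc bUbc n hn]; ring
  have bUac : ∀ n, D < n → Uac.coeff n = 0 := fun n hn => by
    rw [cUac, bUa n hn, dX0 Uab bUab n hn]; ring
  have bUaa : ∀ n, D < n → Uaa.coeff n = 0 := fun n hn => by
    rw [cUaa, bUa n hn, dX0 Uab bUab n hn, bUac n hn]; ring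
  have hode : odeI lam s q f = (2 * Ua * f1 + Uc ^ 2) * (2 * Uab + Ucc) +
      Polynomial.C ((q : ℂ) - 1) * (f1 ^ 2 * Uaa + Ua ^ 2 * f2 + Uc ^ 2 * Ucc
      + 2 * Ua * f1 * Uab + 2 * f1 * Uc * Uac + 2 * Ua * Uc * Ubc) := by
    rw [hUaa, hUac, hUab, hUcc, hUbc, hUa, hUc, hf2, hf1]
    rfl
  have key := edge_top_abs D (q : ℂ) Ua f1 Uc Uaa Uab Uac f2 Ubc Ucc
    (Polynomial.natDegree_le_iff_coeff_eq_zero.2 bUa)
    (Polynomial.natDegree_le_iff_coeff_eq_zero.2 fun n hn => d1 n hn.le)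
    (Polynomial.natDegree_le_iff_coeff_eq_zero.2 bUc)
    (Polynomial.natDegree_le_iff_coeff_eq_zero.2 bUaa)
    (Polynomial.natDegree_le_iff_coeff_eq_zero.2 fun n hn => bUab n hn.le)
    (Polynomial.natDegree_le_iff_coeff_eq_zero.2 bUac)
    (Polynomial.natDegree_le_iff_coeff_eq_zero.2 fun n hn => d2 n (by omega))
    (Polynomial.natDegree_le_iff_coeff_eq_zero.2 fun n hn => bUbc n hn.le)
    (Polynomial.natDegree_le_iff_coeff_eq_zero.2 bUcc)
    (d1 D le_rfl) (bUab D le_rfl) (d2 D (by omega)) (bUbc D le_rfl)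
  rw [← hode, h, Polynomial.coeff_zero] at key
  have hX1 : (Polynomial.X * f1).coeff D = D * f.coeff D := by rw [hf1]; exact edge_top_Xd f D
  have hX2 : (Polynomial.X * Ubc).coeff D = ((s : ℂ) - 2) * (D * f.coeff D) -
      2 * (D * (D - 1) * f.coeff D) := by
    have e : Polynomial.X * Ubc = Polynomial.C ((s : ℂ) - 2) * (Polynomial.X * f1) -
        Polynomial.C 2 * (Polynomial.X * (Polynomial.X * f2)) := by
      rw [hUbc, ← h2C]; ring
    rw [e, Polynomial.coeff_sub, Polynomial.coeff_C_mul, Polynomial.coeff_C_mul, hX1, hf2, hf1,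
      edge_top_Xdd]
  rw [cUcc D, hX2, cUc D, hX1] at key
  have hc : f.coeff D ≠ 0 := by
    rw [hD]
    exact Polynomial.leadingCoeff_ne_zero.2 hf
  have hq' : (q : ℂ) ≠ 0 := by exact_mod_cast hq.ne'
  obtain ⟨l, hl⟩ := Nat.exists_eq_add_of_le hdeg
  rw [← hD] at hl
  have hl' : (s : ℂ) = 2 * D + l := by rw [hl]; push_cast; ring
  rw [hl'] at key
  have key2 : (q : ℂ) * f.coeff D ^ 3 * ((l : ℂ) ^ 3 * (l - 1)) = 0 := by
    rw [key]
    ring
  have h3 : (l : ℂ) ^ 3 * (l - 1) = 0 :=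
    (mul_eq_zero.1 key2).resolve_left (mul_ne_zero hq' (pow_ne_zero _ hc))
  rcases mul_eq_zero.1 h3 with h4 | h4
  · left
    have h5 : (l : ℂ) = 0 := by simpa using h4
    have h6 : l = 0 := by exact_mod_cast h5
    omega
  · right
    have h5 : (l : ℂ) = 1 := by linear_combination h4
    have h6 : l = 1 := by exact_mod_cast h5
    omega

end PL
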