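import Pool.Agent.Helper353.PL.Defs

set_option autoImplicit false

open MvPolynomial

namespace PL



theorem pd_comm (i j : Fin 3) (P : MvPolynomial (Fin 3) ℂ) :
    pderiv i (pderiv j P) = pderiv j (pderiv i P) := by
  induction P using MvPolynomial.induction_on with
  | C a => simp
  | add p q hp hq => simp only [map_add, hp, hq]
  | mul_X p k hp =>
    simp only [pderiv_mul, map_add, hp, pderiv_X]
    have h1 : ∀ a b : Fin 3, pderiv a ((Pi.single b (1 : MvPolynomial (Fin 3) ℂ) :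
        Fin 3 → MvPolynomial (Fin 3) ℂ) k) = 0 := by
      intro a b
      by_cases h : k = b
      · subst h; simp
      · simp [Pi.single_eq_of_ne h]
    rw [h1, h1]
    ring

/-- restriction to the curve `(1, β t², t)` -/
noncomputable def Ph : MvPolynomial (Fin 3) ℂ →ₐ[ℂ] MvPolynomial (Fin 2) ℂ :=
  aeval ![1, X 0 * X 1 ^ 2, X 1]

/-- value at `t = 0` -/
noncomputable def e0 : MvPolynomial (Fin 2) ℂ →ₐ[ℂ] Polynomial ℂ :=
  aeval ![Polynomial.X, 0]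

theorem Ph_X0 : Ph (X 0) = 1 := by simp [Ph]
theorem Ph_X1 : Ph (X 1) = X 0 * X 1 ^ 2 := by simp [Ph]
theorem Ph_X2 : Ph (X 2) = X 1 := by simp [Ph]
theorem e0_X0 : e0 (X 0) = Polynomial.X := by simp [e0]
theorem e0_X1 : e0 (X 1) = 0 := by simp [e0]

theorem Ph_d0 (P : MvPolynomial (Fin 3) ℂ) :
    pderiv 0 (Ph P) = X 1 ^ 2 * Ph (pderiv 1 P) := by
  induction P using MvPolynomial.induction_on with
  | C a => simp [Ph]
  | add p q hp hq => simp only [map_add, hp, hq]; ring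
  | mul_X p k hp =>
    rw [map_mul, pderiv_mul, hp, pderiv_mul, map_add, map_mul, map_mul]
    fin_cases k
    · simp only [Fin.zero_eta, Ph_X0, pderiv_X]
      simp
    · simp only [Fin.mk_one, Ph_X1, pderiv_X, pderiv_mul, pderiv_pow]
      simp
      ring
    · simp only [Fin.reduceFinMk, Ph_X2, pderiv_X]
      simp
      ring

theorem Ph_d1 (P : MvPolynomial (Fin 3) ℂ) :
    X 1 * pderiv 1 (Ph P) = 2 * X 0 * (X 1 ^ 2 * Ph (pderiv 1 P)) + X 1 * Ph (pderiv 2 P) := by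
  induction P using MvPolynomial.induction_on with
  | C a => simp [Ph]
  | add p q hp hq =>
    simp only [map_add]
    linear_combination hp + hq
  | mul_X p k hp =>
    rw [map_mul, pderiv_mul, pderiv_mul, pderiv_mul, map_add, map_mul, map_mul, map_add,
      map_mul, map_mul, mul_add, ← mul_assoc, hp]
    fin_cases k
    · simp only [Fin.zero_eta, Ph_X0, pderiv_X]
      simp
    · simp only [Fin.mk_one, Ph_X1, pderiv_X, pderiv_mul, pderiv_pow]
      simp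
      ring
    · simp only [Fin.reduceFinMk, Ph_X2, pderiv_X]
      simp
      ring

theorem e0_d0 (P : MvPolynomial (Fin 2) ℂ) :
    e0 (pderiv 0 P) = Polynomial.derivative (e0 P) := by
  induction P using MvPolynomial.induction_on with
  | C a => simp [e0]
  | add p q hp hq => simp only [map_add, hp, hq]
  | mul_X p k hp =>
    rw [pderiv_mul, map_add, map_mul e0, map_mul e0, map_mul e0, hp, Polynomial.derivative_mul]
    fin_cases k
    · simp only [Fin.zero_eta, e0_X0, pderiv_X]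
      simp
    · simp only [Fin.mk_one, e0_X1, pderiv_X]
      simp

theorem Ph_monomial (d : Fin 3 →₀ ℕ) (a : ℂ) :
    Ph (monomial d a) = C a * X 0 ^ (d 1) * X 1 ^ (2 * d 1 + d 2) := by
  rw [Ph, aeval_monomial, Finsupp.prod_fintype _ _ (fun i => pow_zero _), Fin.prod_univ_three]
  simp
  ring

theorem Ph_lead (s : ℕ) (U : MvPolynomial (Fin 3) ℂ)
    (hs : ∀ d ∈ U.support, s ≤ 2 * d 1 + d 2) :
    ∃ G, Ph U = X 1 ^ s * G ∧ e0 G = lowI s U := by
  refine ⟨∑ d ∈ U.support, C (U.coeff d) * X 0 ^ (d 1) * X 1 ^ (2 * d 1 + d 2 - s), ?_, ?_⟩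
  · conv_lhs => rw [U.as_sum]
    rw [map_sum, Finset.mul_sum]
    refine Finset.sum_congr rfl fun d hd => ?_
    rw [Ph_monomial]
    have h1 : 2 * d 1 + d 2 = s + (2 * d 1 + d 2 - s) := by have := hs d hd; omega
    conv_lhs => rw [h1, pow_add]
    ring
  · rw [map_sum, lowI, Finset.sum_filter]
    refine Finset.sum_congr rfl fun d hd => ?_
    have h1 := hs d hd
    rw [map_mul, map_mul, map_pow, map_pow, e0_X0, e0_X1]
    have hC : e0 (C (U.coeff d)) = Polynomial.C (U.coeff d) := by simp [e0]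
    rw [hC]
    split_ifs with h2
    · rw [h2, Nat.sub_self, pow_zero, mul_one, Polynomial.C_mul_X_pow_eq_monomial]
    · rw [zero_pow (by omega), mul_zero]

theorem low_I (q : ℂ) (m s : ℕ) (U : MvPolynomial (Fin 3) ℂ) (hU : U.IsHomogeneous m)
    (hP : PJ q U = 0) (hs : ∀ d ∈ U.support, s ≤ 2 * d 1 + d 2) :
    odeI ((m : ℂ) - s) s q (lowI s U) = 0 := by
  obtain ⟨G, hG, hGe⟩ := Ph_lead s U hs
  -- the quantities in `S`
  have eul := hU.sum_X_mul_pderiv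
  rw [Fin.sum_univ_three, nsmul_eq_mul] at eul
  have eulA : pderiv 0 U + X 0 * pderiv 0 (pderiv 0 U) + X 1 * pderiv 0 (pderiv 1 U)
      + X 2 * pderiv 0 (pderiv 2 U) = (m : MvPolynomial (Fin 3) ℂ) * pderiv 0 U := by
    have h := congrArg (pderiv 0) eul
    have hm : pderiv 0 ((m : MvPolynomial (Fin 3) ℂ) * U) =
        (m : MvPolynomial (Fin 3) ℂ) * pderiv 0 U := by
      rw [pderiv_mul]
      have : pderiv (0 : Fin 3) ((m : MvPolynomial (Fin 3) ℂ)) = 0 := by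
        have h2 : ((m : MvPolynomial (Fin 3) ℂ)) = C (m : ℂ) := by simp
        rw [h2, pderiv_C]
      rw [this]
      ring
    rw [hm] at h
    simp only [map_add, pderiv_mul, pderiv_X] at h
    simp at h
    rw [← h]
  have PA : Ph (pderiv 0 U) + X 0 * (X 1 ^ 2 * Ph (pderiv 1 U)) + X 1 * Ph (pderiv 2 U) =
      (m : MvPolynomial (Fin 2) ℂ) * Ph U := by
    have h := congrArg Ph eul
    simp only [map_add, map_mul, Ph_X0, Ph_X1, Ph_X2, map_natCast] at h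
    rw [← h]
    ring
  have PAA : Ph (pderiv 0 U) + Ph (pderiv 0 (pderiv 0 U)) +
      X 0 * (X 1 ^ 2 * Ph (pderiv 0 (pderiv 1 U))) + X 1 * Ph (pderiv 0 (pderiv 2 U)) =
      (m : MvPolynomial (Fin 2) ℂ) * Ph (pderiv 0 U) := by
    have h := congrArg Ph eulA
    simp only [map_add, map_mul, Ph_X0, Ph_X1, Ph_X2, map_natCast] at h
    rw [← h]
    ring
  have dXs : pderiv (0 : Fin 2) ((X 1 : MvPolynomial (Fin 2) ℂ) ^ s) = 0 := by
    rw [pderiv_pow, pderiv_X]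
    simp
  have dX1s : (X 1 : MvPolynomial (Fin 2) ℂ) * pderiv (1 : Fin 2) ((X 1 : MvPolynomial (Fin 2) ℂ) ^ s)
      = (s : MvPolynomial (Fin 2) ℂ) * X 1 ^ s := by
    rw [pderiv_pow, pderiv_X]
    rcases s with _ | s
    · simp
    · simp
      ring
  have d0 : ∀ H : MvPolynomial (Fin 2) ℂ, pderiv 0 (X 1 ^ s * H) = X 1 ^ s * pderiv 0 H := by
    intro H
    rw [pderiv_mul, dXs]
    ring
  have d1 : ∀ H : MvPolynomial (Fin 2) ℂ, X 1 * pderiv 1 (X 1 ^ s * H) =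
      X 1 ^ s * ((s : MvPolynomial (Fin 2) ℂ) * H + X 1 * pderiv 1 H) := by
    intro H
    rw [pderiv_mul]
    linear_combination H * dX1s
  have dX2 : pderiv (0 : Fin 2) ((X 1 : MvPolynomial (Fin 2) ℂ) ^ 2) = 0 := by
    rw [pderiv_pow, pderiv_X]
    simp
  have dX10 : pderiv (0 : Fin 2) (X 1 : MvPolynomial (Fin 2) ℂ) = 0 := by
    rw [pderiv_X]
    simp
  have dX11 : pderiv (1 : Fin 2) (X 1 : MvPolynomial (Fin 2) ℂ) = 1 := by
    rw [pderiv_X]
    simp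
  have dX21 : pderiv (1 : Fin 2) ((X 1 : MvPolynomial (Fin 2) ℂ) ^ 2) = 2 * X 1 := by
    rw [pderiv_pow, pderiv_X]
    simp
  -- first derivatives
  obtain ⟨Gb, hGb⟩ : ∃ Gb, Gb = pderiv 0 G := ⟨_, rfl⟩
  have hB : X 1 ^ 2 * Ph (pderiv 1 U) = X 1 ^ s * Gb := by
    rw [← Ph_d0, hG, d0, hGb]
  obtain ⟨Gc, hGc⟩ : ∃ Gc, Gc = (s : MvPolynomial (Fin 2) ℂ) * G + X 1 * pderiv 1 G
      - 2 * X 0 * Gb := ⟨_, rfl⟩
  have hCc : X 1 * Ph (pderiv 2 U) = X 1 ^ s * Gc := by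
    have h := Ph_d1 U
    rw [hG, d1, hB] at h
    rw [hGc]
    linear_combination -h
  obtain ⟨Ga, hGa⟩ : ∃ Ga, Ga = (m : MvPolynomial (Fin 2) ℂ) * G - X 0 * Gb - Gc := ⟨_, rfl⟩
  have hA : Ph (pderiv 0 U) = X 1 ^ s * Ga := by
    rw [hB, hCc, hG] at PA
    rw [hGa]
    linear_combination PA
  -- second derivatives
  obtain ⟨Gbb, hGbb⟩ : ∃ Gbb, Gbb = pderiv 0 Gb := ⟨_, rfl⟩
  have hBB : X 1 ^ 4 * Ph (pderiv 1 (pderiv 1 U)) = X 1 ^ s * Gbb := by
    have h := congrArg (pderiv 0) hB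
    rw [d0, pderiv_mul, dX2, Ph_d0] at h
    rw [hGbb]
    linear_combination h
  obtain ⟨Gbc, hGbc⟩ : ∃ Gbc, Gbc = (s : MvPolynomial (Fin 2) ℂ) * Gb + X 1 * pderiv 1 Gb
      - 2 * Gb - 2 * X 0 * Gbb := ⟨_, rfl⟩
  have hBC : X 1 ^ 3 * Ph (pderiv 1 (pderiv 2 U)) = X 1 ^ s * Gbc := by
    have h := congrArg (fun z => X 1 * pderiv 1 z) hB
    rw [d1, pderiv_mul, dX21] at h
    have h2 := Ph_d1 (pderiv 1 U)
    rw [pd_comm 2 1 U] at h2
    rw [hGbc]
    linear_combination h - X 1 ^ 2 * h2 - 2 * hB - 2 * X 0 * hBB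
  obtain ⟨Gcc, hGcc⟩ : ∃ Gcc, Gcc = (s : MvPolynomial (Fin 2) ℂ) * Gc + X 1 * pderiv 1 Gc
      - Gc - 2 * X 0 * Gbc := ⟨_, rfl⟩
  have hCC : X 1 ^ 2 * Ph (pderiv 2 (pderiv 2 U)) = X 1 ^ s * Gcc := by
    have h := congrArg (fun z => X 1 * pderiv 1 z) hCc
    rw [d1, pderiv_mul, dX11] at h
    have h2 := Ph_d1 (pderiv 2 U)
    rw [hGcc]
    linear_combination h - X 1 * h2 - hCc - 2 * X 0 * hBC
  obtain ⟨Gab, hGab⟩ : ∃ Gab, Gab = pderiv 0 Ga := ⟨_, rfl⟩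
  have hAB : X 1 ^ 2 * Ph (pderiv 0 (pderiv 1 U)) = X 1 ^ s * Gab := by
    have h := Ph_d0 (pderiv 0 U)
    rw [hA, d0, pd_comm 1 0 U] at h
    rw [hGab]
    exact h.symm
  obtain ⟨Gac, hGac⟩ : ∃ Gac, Gac = (s : MvPolynomial (Fin 2) ℂ) * Ga + X 1 * pderiv 1 Ga
      - 2 * X 0 * Gab := ⟨_, rfl⟩
  have hAC : X 1 * Ph (pderiv 0 (pderiv 2 U)) = X 1 ^ s * Gac := by
    have h := Ph_d1 (pderiv 0 U)
    rw [hA, d1, pd_comm 1 0 U, pd_comm 2 0 U, hAB] at h
    rw [hGac]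
    linear_combination -h
  obtain ⟨Gaa, hGaa⟩ : ∃ Gaa, Gaa = (m : MvPolynomial (Fin 2) ℂ) * Ga - Ga - X 0 * Gab - Gac :=
    ⟨_, rfl⟩
  have hAA : Ph (pderiv 0 (pderiv 0 U)) = X 1 ^ s * Gaa := by
    rw [hA, hAB, hAC] at PAA
    rw [hGaa]
    linear_combination PAA
  -- the equation
  have hE := congrArg Ph hP
  rw [PJ] at hE
  simp only [map_add, map_mul, map_pow, map_ofNat, map_zero] at hE
  have hCq : Ph (C (q - 1)) = C (q - 1) := by simp [Ph]
  rw [hCq] at hE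
  have hX : (X 1 : MvPolynomial (Fin 2) ℂ) ≠ 0 := X_ne_zero 1
  have hfin : (X 1 : MvPolynomial (Fin 2) ℂ) ^ s * (X 1 ^ s * (X 1 ^ s *
      ((2 * Ga * Gb + Gc ^ 2) * (2 * Gab + Gcc) + C (q - 1) * (Gb ^ 2 * Gaa + Ga ^ 2 * Gbb
        + Gc ^ 2 * Gcc + 2 * Ga * Gb * Gab + 2 * Gb * Gc * Gac + 2 * Ga * Gc * Gbc)))) = 0 := by
    have h4 : (X 1 : MvPolynomial (Fin 2) ℂ) ^ s * (X 1 ^ s * (X 1 ^ s *
      ((2 * Ga * Gb + Gc ^ 2) * (2 * Gab + Gcc) + C (q - 1) * (Gb ^ 2 * Gaa + Ga ^ 2 * Gbb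
        + Gc ^ 2 * Gcc + 2 * Ga * Gb * Gab + 2 * Gb * Gc * Gac + 2 * Ga * Gc * Gbc)))) =
        ((2 * (X 1 ^ s * Ga) * (X 1 ^ s * Gb) + (X 1 ^ s * Gc) ^ 2) *
          (2 * (X 1 ^ s * Gab) + X 1 ^ s * Gcc) +
        C (q - 1) * ((X 1 ^ s * Gb) ^ 2 * (X 1 ^ s * Gaa) + (X 1 ^ s * Ga) ^ 2 * (X 1 ^ s * Gbb)
          + (X 1 ^ s * Gc) ^ 2 * (X 1 ^ s * Gcc)
          + 2 * (X 1 ^ s * Ga) * (X 1 ^ s * Gb) * (X 1 ^ s * Gab)
          + 2 * (X 1 ^ s * Gb) * (X 1 ^ s * Gc) * (X 1 ^ s * Gac)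
          + 2 * (X 1 ^ s * Ga) * (X 1 ^ s * Gc) * (X 1 ^ s * Gbc))) := by ring
    rw [h4, ← hA, ← hB, ← hCc, ← hAA, ← hBB, ← hCC, ← hAB, ← hAC, ← hBC]
    linear_combination X 1 ^ 4 * hE
  have hfin2 : ((2 * Ga * Gb + Gc ^ 2) * (2 * Gab + Gcc) + C (q - 1) * (Gb ^ 2 * Gaa + Ga ^ 2 * Gbb
        + Gc ^ 2 * Gcc + 2 * Ga * Gb * Gab + 2 * Gb * Gc * Gac + 2 * Ga * Gc * Gbc)) = 0 := by
    have hXs : (X 1 : MvPolynomial (Fin 2) ℂ) ^ s ≠ 0 := pow_ne_zero _ hX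
    exact (mul_eq_zero.1 ((mul_eq_zero.1 ((mul_eq_zero.1 hfin).resolve_left hXs)).resolve_left
      hXs)).resolve_left hXs
  -- values at `t = 0`
  have eC : ∀ c : ℂ, e0 (C c) = Polynomial.C c := by
    intro c
    simp [e0]
  have eb : e0 Gb = Polynomial.derivative (lowI s U) := by rw [hGb, e0_d0, hGe]
  have ec : e0 Gc = Polynomial.C (s : ℂ) * lowI s U
      - 2 * Polynomial.X * Polynomial.derivative (lowI s U) := by
    rw [hGc]
    simp only [map_add, map_sub, map_mul, e0_X0, e0_X1, hGe, eb, map_natCast, map_ofNat, zero_mul,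
      add_zero]
  have ea : e0 Ga = Polynomial.C ((m : ℂ) - s) * lowI s U
      + Polynomial.X * Polynomial.derivative (lowI s U) := by
    rw [hGa]
    simp only [map_sub, map_mul, e0_X0, hGe, eb, ec, map_natCast]
    ring
  have ebb : e0 Gbb = Polynomial.derivative (Polynomial.derivative (lowI s U)) := by
    rw [hGbb, e0_d0, eb]
  have ebc : e0 Gbc = Polynomial.C ((s : ℂ) - 2) * Polynomial.derivative (lowI s U)
      - 2 * Polynomial.X * Polynomial.derivative (Polynomial.derivative (lowI s U)) := by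
    rw [hGbc]
    simp only [map_add, map_sub, map_mul, e0_X0, e0_X1, eb, ebb, map_natCast, map_ofNat, zero_mul,
      add_zero]
    ring
  have ecc : e0 Gcc = Polynomial.C ((s : ℂ) - 1) * e0 Gc - 2 * Polynomial.X * e0 Gbc := by
    rw [hGcc]
    simp only [map_add, map_sub, map_mul, e0_X0, e0_X1, map_natCast, map_ofNat, zero_mul,
      add_zero, map_one]
    ring
  have eab : e0 Gab = Polynomial.C ((m : ℂ) - s + 1) * Polynomial.derivative (lowI s U)
      + Polynomial.X * Polynomial.derivative (Polynomial.derivative (lowI s U)) := by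
    rw [hGab, e0_d0, ea]
    simp only [Polynomial.derivative_add, Polynomial.derivative_mul, Polynomial.derivative_C,
      Polynomial.derivative_X, map_add, map_one]
    ring
  have eac : e0 Gac = Polynomial.C (s : ℂ) * e0 Ga - 2 * Polynomial.X * e0 Gab := by
    rw [hGac]
    simp only [map_add, map_sub, map_mul, e0_X0, e0_X1, map_natCast, map_ofNat, zero_mul,
      add_zero]
  have eaa : e0 Gaa = Polynomial.C ((m : ℂ) - s + s - 1) * e0 Ga - Polynomial.X * e0 Gab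
      - e0 Gac := by
    rw [hGaa]
    have h1 : (m : ℂ) - s + s - 1 = (m : ℂ) - 1 := by ring
    rw [h1]
    simp only [map_sub, map_mul, e0_X0, map_natCast, map_one]
    ring
  have hlast := congrArg e0 hfin2
  simp only [map_add, map_mul, map_pow, map_ofNat, map_zero, eC] at hlast
  rw [eaa, eac, ecc, ebc, eab, ebb, ea, ec, eb] at hlast
  rw [odeI]
  exact hlast

end PL
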