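import Pool.Agent.Helper353.PL.Defs
import Pool.Agent.Helper353.PL.P_low_I
import Pool.Agent.Helper353.PL.P_edge_root_mult
import Pool.Agent.Helper353.PL.P_edge_root_half
import Pool.Agent.Helper353.PL.P_edge_low
import Pool.Agent.Helper353.PL.P_edge_top
import Pool.Agent.Helper353.PL.P_edge_root_rel
import Pool.Agent.Helper353.PL.P_edge_hyp
import Pool.Agent.Helper353.PL.P_edge_final

set_option autoImplicit false

open MvPolynomial

namespace PL



theorem hom_sum' {m : ℕ} {U : MvPolynomial (Fin 3) ℂ} (hU : U.IsHomogeneous m) {d : Fin 3 →₀ ℕ}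
    (hd : d ∈ U.support) : d 0 + d 1 + d 2 = m := by
  have h := hU (mem_support_iff.mp hd)
  rw [Finsupp.weight_apply, Finsupp.sum_fintype _ _ (by simp), Fin.sum_univ_three] at h
  simpa using h

/-- an isotropic critical point is impossible -/
theorem II (q : ℝ) (hq : 0 < q) (hq1 : q ≠ 1) (m : ℕ) (U : MvPolynomial (Fin 3) ℂ)
    (hU : U.IsHomogeneous m) (hP : PJ q U = 0)
    (hcrit : ∀ d ∈ U.support, 2 ≤ 2 * d 1 + d 2)
    (h1 : ∃ d ∈ U.support, d 1 = 0) : False := by
  obtain ⟨d1, hd1, hd10⟩ := h1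
  obtain ⟨ds, hds, hmin⟩ := Finset.exists_min_image U.support (fun d => 2 * d 1 + d 2) ⟨d1, hd1⟩
  obtain ⟨s, hs⟩ : ∃ s, s = 2 * ds 1 + ds 2 := ⟨_, rfl⟩
  have hmin' : ∀ d ∈ U.support, s ≤ 2 * d 1 + d 2 := by
    intro d hd; rw [hs]; exact hmin d hd
  have hs2 : 2 ≤ s := by rw [hs]; exact hcrit ds hds
  have hsm : s ≤ m := by
    have h2 := hmin' d1 hd1
    have h3 := hom_sum' hU hd1
    omega
  obtain ⟨f, hf⟩ : ∃ f, f = lowI s U := ⟨_, rfl⟩
  have hode := low_I q m s U hU hP hmin'
  rw [← hf] at hode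
  have hcoef : f.coeff (ds 1) = U.coeff ds := by
    rw [hf, lowI, Polynomial.finset_sum_coeff]
    rw [Finset.sum_eq_single ds]
    · simp
    · intro d hd hne
      rw [Finset.mem_filter] at hd
      rw [Polynomial.coeff_monomial, if_neg]
      intro h0
      apply hne
      have h2 := hom_sum' hU hd.1
      have h3 := hom_sum' hU hds
      ext i
      fin_cases i
      · show d 0 = ds 0
        omega
      · exact h0
      · show d 2 = ds 2
        omega
    · intro h
      exact absurd (Finset.mem_filter.mpr ⟨hds, hs.symm⟩) h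
  have hf0 : f ≠ 0 := by
    rintro h0
    rw [h0, Polynomial.coeff_zero] at hcoef
    exact mem_support_iff.mp hds hcoef.symm
  have hdeg : 2 * f.natDegree ≤ s := by
    have h2 : f.natDegree ≤ s / 2 := by
      rw [hf, lowI]
      apply Polynomial.natDegree_sum_le_of_forall_le
      intro d hd
      rw [Finset.mem_filter] at hd
      refine (Polynomial.natDegree_monomial_le _).trans ?_
      omega
    omega
  have hlam : ((m : ℂ) - s) = ((m - s : ℕ) : ℂ) := by
    rw [Nat.cast_sub hsm]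
  rw [hlam] at hode
  obtain ⟨lam, hl⟩ : ∃ lam, lam = m - s := ⟨_, rfl⟩
  rw [← hl] at hode
  have hodeR : odeI (((lam : ℝ) : ℂ)) (((s : ℝ) : ℂ)) q f = 0 := by
    rw [Complex.ofReal_natCast, Complex.ofReal_natCast]
    exact hode
  have hlow := edge_low lam s q hq f hf0 hode
  have hhalf := edge_root_half lam s q hq f hf0 hdeg hode
  have hr0 : ∀ ν : ℂ, f.IsRoot ν → ν ≠ 0 := by
    rintro ν hν rfl
    apply hlow
    rw [Polynomial.coeff_zero_eq_eval_zero]
    exact hν
  have hr1 : ∀ ν : ℂ, f.IsRoot ν → 1 + 2 * ν ≠ 0 := by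
    intro ν hν h0
    apply hhalf
    have : ν = -1 / 2 := by linear_combination h0 / 2
    rw [← this]; exact hν
  have hsimple : ∀ ν : ℂ, f.IsRoot ν → (Polynomial.derivative f).eval ν ≠ 0 := fun ν hν =>
    edge_root_mult lam s q hq f hf0 hodeR ν (hr0 ν hν) (hr1 ν hν) hν
  have hrel : ∀ ν : ℂ, f.IsRoot ν →
      2 * q * ν * (1 + 2 * ν) * (Polynomial.derivative (Polynomial.derivative f)).eval ν +
      ((2 * lam + 1) * q + 1 - 2 * q * (2 * s - 3) * ν) * (Polynomial.derivative f).eval ν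
      = 0 := by
    intro ν hν
    have h2 := edge_root_rel lam s q f hodeR ν (hr0 ν hν) (hr1 ν hν) hν (hsimple ν hν)
    rw [Complex.ofReal_natCast, Complex.ofReal_natCast] at h2
    exact h2
  exact edge_final lam s hs2 q hq hq1 f hlow (edge_top lam s q hq f hf0 hdeg hode) hode
    (edge_hyp lam s q f hf0 hsimple hrel)

end PL
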