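import Pool.Agent.Helper353.PL.Defs

set_option autoImplicit false

open MvPolynomial

namespace PL



/-- the first positive exponent is `1` -/
theorem edgeN_first (mu sig : ℂ) (hmu : mu ≠ 0) (q : ℝ) (hq1 : q ≠ 1)
    (f : Polynomial ℂ) (hf0 : f.coeff 0 ≠ 0) (j : ℕ) (hj : 0 < j)
    (hlow : ∀ i, 0 < i → i < j → f.coeff i = 0) (hfj : f.coeff j ≠ 0)
    (h : odeN mu sig q f = 0) : j = 1 := by
  by_contra hj1
  obtain ⟨n, rfl⟩ : ∃ n, j = n + 2 := ⟨j - 2, by omega⟩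
  obtain ⟨f1, hf1⟩ : ∃ f1, f1 = Polynomial.derivative f := ⟨_, rfl⟩
  obtain ⟨f2, hf2⟩ : ∃ f2, f2 = Polynomial.derivative f1 := ⟨_, rfl⟩
  obtain ⟨A, hA⟩ : ∃ A, A = Polynomial.C mu * f - Polynomial.C sig * Polynomial.X * f1 := ⟨_, rfl⟩
  obtain ⟨AB, hAB⟩ : ∃ AB, AB = Polynomial.C (mu - sig) * f1 - Polynomial.C sig * Polynomial.X * f2 :=
    ⟨_, rfl⟩
  obtain ⟨AA, hAA⟩ : ∃ AA, AA = Polynomial.C (mu - 1) * A - Polynomial.C sig * Polynomial.X * AB :=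
    ⟨_, rfl⟩
  have h1 : f1 * (4 * A * AB + Polynomial.C ((q:ℂ) - 1) * (f1 * AA + 2 * A * AB)) +
      Polynomial.C ((q:ℂ) - 1) * (A ^ 2 * f2) = 0 := by
    rw [← h]
    unfold odeN
    simp only [← hf1, ← hf2, ← hA, ← hAB, ← hAA]
    ring
  have hd1 : Polynomial.X ^ (n + 1) ∣ f1 := by
    rw [Polynomial.X_pow_dvd_iff]
    intro d hd
    rw [hf1, Polynomial.coeff_derivative, hlow (d + 1) (by omega) (by omega), zero_mul]
  have hd2 : Polynomial.X ^ n ∣ f2 := by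
    rw [Polynomial.X_pow_dvd_iff]
    intro d hd
    rw [hf2, Polynomial.coeff_derivative, hf1, Polynomial.coeff_derivative,
      hlow (d + 1 + 1) (by omega) (by omega), zero_mul, zero_mul]
  have hc1 : (f1 * (4 * A * AB + Polynomial.C ((q:ℂ) - 1) * (f1 * AA + 2 * A * AB))).coeff n = 0 :=
    (Polynomial.X_pow_dvd_iff.1 (Dvd.dvd.mul_right hd1 _)) n (by omega)
  have hc2 : (A ^ 2 * f2).coeff n = (A.coeff 0) ^ 2 * f2.coeff n := by
    obtain ⟨g, hg⟩ := hd2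
    have e1 : A ^ 2 * f2 = (A ^ 2 * g) * Polynomial.X ^ n := by rw [hg]; ring
    have e2 : f2 = g * Polynomial.X ^ n := by rw [hg]; ring
    have e3 := Polynomial.coeff_mul_X_pow (A ^ 2 * g) n 0
    have e4 := Polynomial.coeff_mul_X_pow g n 0
    rw [zero_add] at e3 e4
    rw [e1, e3, e2, e4, Polynomial.mul_coeff_zero, pow_two, Polynomial.mul_coeff_zero, pow_two]
  have hA0 : A.coeff 0 = mu * f.coeff 0 := by
    rw [hA]
    simp [Polynomial.mul_coeff_zero]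
  have hf2n : f2.coeff n = f.coeff (n + 2) * ((n:ℂ) + 1 + 1) * ((n:ℂ) + 1) := by
    rw [hf2, Polynomial.coeff_derivative, hf1, Polynomial.coeff_derivative]
    push_cast
    ring
  have h2 := congrArg (fun P => Polynomial.coeff P n) h1
  beta_reduce at h2
  rw [Polynomial.coeff_add, hc1, Polynomial.coeff_C_mul, hc2, hA0, hf2n, Polynomial.coeff_zero,
    zero_add] at h2
  have hq : (q:ℂ) - 1 ≠ 0 := by
    intro hq
    apply hq1
    have : (q:ℂ) = 1 := by linear_combination hq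
    exact_mod_cast this
  have hn1 : (n:ℂ) + 1 ≠ 0 := by exact_mod_cast Nat.succ_ne_zero n
  have hn2 : (n:ℂ) + 1 + 1 ≠ 0 := by exact_mod_cast Nat.succ_ne_zero (n + 1)
  have hne : ((q:ℂ) - 1) * ((mu * f.coeff 0) ^ 2 *
      (f.coeff (n + 2) * ((n:ℂ) + 1 + 1) * ((n:ℂ) + 1))) ≠ 0 :=
    mul_ne_zero hq (mul_ne_zero (pow_ne_zero 2 (mul_ne_zero hmu hf0))
      (mul_ne_zero (mul_ne_zero hfj hn2) hn1))
  exact hne h2

end PL
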