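import Pool.Agent.Helper353.PL.Defs

set_option autoImplicit false

open MvPolynomial

namespace PL



/-- no binomial-type solution in two variables: the coefficients `0 < j < k` vanish -/
theorem edgeN_hom (k : ℕ) (hk : 2 ≤ k) (f : Polynomial ℂ) (hdeg : f.natDegree = k)
    (hroot : ∀ ν : ℂ, f.IsRoot ν → (Polynomial.derivative f).eval ν ≠ 0 ∧
      ν * (Polynomial.derivative (Polynomial.derivative f)).eval ν
      = (k - 1) * (Polynomial.derivative f).eval ν) : f.coeff 1 = 0 := by
  classical
  have hf0 : f ≠ 0 := by
    rintro rfl
    simp at hdeg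
    omega
  have hnd : f.roots.Nodup := by
    rw [Multiset.nodup_iff_count_le_one]
    intro ν
    rw [Polynomial.count_roots]
    by_contra hcon
    have h1 := (Polynomial.one_lt_rootMultiplicity_iff_isRoot hf0).mp (not_le.mp hcon)
    exact (hroot ν h1.1).1 h1.2
  have hcard : f.roots.toFinset.card = k := by
    rw [Multiset.toFinset_card_of_nodup hnd, ← hdeg]
    exact (IsAlgClosed.splits f).natDegree_eq_card_roots.symm
  set T : Polynomial ℂ := Polynomial.X * Polynomial.derivative (Polynomial.derivative f) -
    Polynomial.C ((k : ℂ) - 1) * Polynomial.derivative f with hT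
  have hTdeg : T.natDegree < f.roots.toFinset.card := by
    rw [hcard]
    have d1 : (Polynomial.derivative f).natDegree ≤ k - 1 := by
      have := Polynomial.natDegree_derivative_le f
      rwa [hdeg] at this
    have d2 : (Polynomial.derivative (Polynomial.derivative f)).natDegree ≤ k - 2 := by
      have := Polynomial.natDegree_derivative_le (Polynomial.derivative f)
      omega
    have e1 : (Polynomial.X * Polynomial.derivative (Polynomial.derivative f)).natDegree ≤
        k - 1 := by
      refine (Polynomial.natDegree_mul_le).trans ?_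
      rw [Polynomial.natDegree_X]
      omega
    have e2 : (Polynomial.C ((k : ℂ) - 1) * Polynomial.derivative f).natDegree ≤ k - 1 :=
      (Polynomial.natDegree_C_mul_le _ _).trans d1
    have h3 : T.natDegree ≤ max (k - 1) (k - 1) := Polynomial.natDegree_sub_le_of_le e1 e2
    rw [max_self] at h3
    omega
  have hT0 : T = 0 := by
    refine Polynomial.eq_zero_of_natDegree_lt_card_of_eval_eq_zero' T f.roots.toFinset ?_ hTdeg
    intro ν hν
    rw [Multiset.mem_toFinset, Polynomial.mem_roots hf0] at hν
    rw [hT]
    simp only [Polynomial.eval_sub, Polynomial.eval_mul, Polynomial.eval_X, Polynomial.eval_C]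
    rw [(hroot ν hν).2, sub_self]
  have hc : T.coeff 0 = 0 := by rw [hT0]; simp
  have hk1 : (k : ℂ) - 1 ≠ 0 := by
    rw [sub_ne_zero]
    exact_mod_cast (by omega : k ≠ 1)
  rw [hT] at hc
  simp only [Polynomial.coeff_sub, Polynomial.coeff_C_mul, Polynomial.mul_coeff_zero,
    Polynomial.coeff_X_zero, zero_mul, zero_sub, Polynomial.coeff_derivative, neg_eq_zero,
    mul_eq_zero, hk1, false_or] at hc
  rcases hc with hc | hc
  · exact absurd (by simpa using hc) hk1
  · norm_num at hc
    exact hc

end PL
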