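import Pool.Agent.Helper353.PL.Defs

set_option autoImplicit false

open MvPolynomial

namespace PL



/-- roots are simple and satisfy `ν f'' = (k-1) f'` -/
theorem edgeN_root (k : ℕ) (q : ℝ) (hq : 0 < q) (f : Polynomial ℂ) (hf : f ≠ 0)
    (h : odeN (k : ℂ) 1 q f = 0) (ν : ℂ) (h0 : ν ≠ 0) (hν : f.IsRoot ν) :
    (Polynomial.derivative f).eval ν ≠ 0 ∧
    ν * (Polynomial.derivative (Polynomial.derivative f)).eval ν
      = (k - 1) * (Polynomial.derivative f).eval ν := by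
  have hqc : (q : ℂ) ≠ 0 := by exact_mod_cast hq.ne'
  have hsimple : (Polynomial.derivative f).eval ν ≠ 0 := by
    intro hd
    have hr : 1 < f.rootMultiplicity ν :=
      (Polynomial.one_lt_rootMultiplicity_iff_isRoot hf).2 ⟨hν, hd⟩
    obtain ⟨g, hg, hgn⟩ := Polynomial.exists_eq_pow_rootMultiplicity_mul_and_not_dvd f hf ν
    obtain ⟨s, hs⟩ : ∃ s, f.rootMultiplicity ν = s + 2 := ⟨f.rootMultiplicity ν - 2, by omega⟩
    rw [hs] at hg
    have hg0 : g.eval ν ≠ 0 := by
      intro h'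
      exact hgn (Polynomial.dvd_iff_isRoot.2 h')
    obtain ⟨Y, hY⟩ : ∃ Y : Polynomial ℂ, Y = Polynomial.X - Polynomial.C ν := ⟨_, rfl⟩
    have hYd : Polynomial.derivative Y = 1 := by rw [hY]; simp
    have hYe : Y.eval ν = 0 := by rw [hY]; simp
    have hYn : Y ≠ 0 := by rw [hY]; exact Polynomial.X_sub_C_ne_zero ν
    rw [← hY] at hg
    obtain ⟨g1, hg1⟩ : ∃ g1 : Polynomial ℂ,
      g1 = Polynomial.C ((s : ℂ) + 2) * g + Y * Polynomial.derivative g := ⟨_, rfl⟩
    obtain ⟨g2, hg2⟩ : ∃ g2 : Polynomial ℂ,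
      g2 = Polynomial.C ((s : ℂ) + 1) * g1 + Y * Polynomial.derivative g1 := ⟨_, rfl⟩
    have hf1 : Polynomial.derivative f = Y ^ (s + 1) * g1 := by
      rw [hg, hg1, Polynomial.derivative_mul, Polynomial.derivative_pow, hYd]
      simp only [Nat.cast_add, Nat.cast_ofNat, map_add, map_natCast, Nat.add_sub_cancel, map_ofNat, show s + 2 - 1 = s + 1 by omega]
      ring
    have hf2 : Polynomial.derivative (Polynomial.derivative f) = Y ^ s * g2 := by
      rw [hf1, hg2, Polynomial.derivative_mul, Polynomial.derivative_pow, hYd]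
      simp only [Nat.cast_add, Nat.cast_one, map_add, map_natCast, Nat.add_sub_cancel, map_one]
      ring
    have hg1e : g1.eval ν = ((s : ℂ) + 2) * g.eval ν := by
      rw [hg1]; simp [hYe]
    have hg2e : g2.eval ν = ((s : ℂ) + 1) * g1.eval ν := by
      rw [hg2]; simp [hYe]
    have hs1 : ((s : ℂ) + 1) ≠ 0 := by exact_mod_cast Nat.succ_ne_zero s
    have hs2 : ((s : ℂ) + 2) ≠ 0 := by exact_mod_cast Nat.succ_ne_zero (s + 1)
    have hg1n : g1.eval ν ≠ 0 := by rw [hg1e]; exact mul_ne_zero hs2 hg0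
    have hg2n : g2.eval ν ≠ 0 := by rw [hg2e]; exact mul_ne_zero hs1 hg1n
    obtain ⟨α, hα⟩ : ∃ α : Polynomial ℂ,
      α = Polynomial.C (k : ℂ) * Y * g - Polynomial.X * g1 := ⟨_, rfl⟩
    obtain ⟨β, hβ⟩ : ∃ β : Polynomial ℂ,
      β = Polynomial.C ((k : ℂ) - 1) * Y * g1 - Polynomial.X * g2 := ⟨_, rfl⟩
    obtain ⟨γ, hγ⟩ : ∃ γ : Polynomial ℂ,
      γ = Polynomial.C ((k : ℂ) - 1) * Y * α - Polynomial.X * β := ⟨_, rfl⟩
    have hαe : α.eval ν = - (ν * g1.eval ν) := by rw [hα]; simp [hYe]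
    have hβe : β.eval ν = - (ν * g2.eval ν) := by rw [hβ]; simp [hYe]
    have hγe : γ.eval ν = ν * (ν * g2.eval ν) := by rw [hγ]; simp [hYe, hβe]
    have key : odeN (k : ℂ) 1 q f = (Y ^ (3 * s + 2)) *
        (4 * α * g1 * β + Polynomial.C ((q : ℂ) - 1) *
          (g1 ^ 2 * γ + α ^ 2 * g2 + 2 * α * g1 * β)) := by
      simp only [odeN, hf2]
      rw [hf1]
      have e1 : Polynomial.C (k : ℂ) * f - Polynomial.C 1 * Polynomial.X * (Y ^ (s + 1) * g1)
          = Y ^ (s + 1) * α := by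
        rw [hg, hα, map_one]; ring
      have e2 : Polynomial.C ((k : ℂ) - 1) * (Y ^ (s + 1) * g1) -
          Polynomial.C 1 * Polynomial.X * (Y ^ s * g2) = Y ^ s * β := by
        rw [hβ, map_one]; ring
      rw [e1, e2]
      have e3 : Polynomial.C ((k : ℂ) - 1) * (Y ^ (s + 1) * α) -
          Polynomial.C 1 * Polynomial.X * (Y ^ s * β) = Y ^ s * γ := by
        rw [hγ, map_one]; ring
      rw [e3]
      ring
    rw [key] at h
    have h3 := (mul_eq_zero.1 h).resolve_left (pow_ne_zero _ hYn)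
    have h4 := congrArg (Polynomial.eval ν) h3
    simp only [Polynomial.eval_add, Polynomial.eval_mul, Polynomial.eval_pow, Polynomial.eval_C,
      Polynomial.eval_zero, Polynomial.eval_ofNat, hαe, hβe, hγe] at h4
    have h5 : 4 * (q : ℂ) * ν ^ 2 * (g1.eval ν) ^ 2 * g2.eval ν = 0 := by
      linear_combination h4
    have h6 : 4 * (q : ℂ) * ν ^ 2 * (g1.eval ν) ^ 2 * g2.eval ν ≠ 0 := by
      refine mul_ne_zero (mul_ne_zero (mul_ne_zero (mul_ne_zero (by norm_num) hqc) ?_) ?_) hg2n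
      · exact pow_ne_zero _ h0
      · exact pow_ne_zero _ hg1n
    exact h6 h5
  refine ⟨hsimple, ?_⟩
  have hν' : f.eval ν = 0 := hν
  have h4 := congrArg (Polynomial.eval ν) h
  simp only [odeN, Polynomial.eval_add, Polynomial.eval_sub, Polynomial.eval_mul, Polynomial.eval_pow,
      Polynomial.eval_C, Polynomial.eval_X,
      Polynomial.eval_zero, Polynomial.eval_ofNat, hν'] at h4
  have h5 : (4 * (q : ℂ) * ν * ((Polynomial.derivative f).eval ν) ^ 2) *
      (ν * (Polynomial.derivative (Polynomial.derivative f)).eval ν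
      - (k - 1) * (Polynomial.derivative f).eval ν) = 0 := by
    linear_combination h4
  have h6 : (4 * (q : ℂ) * ν * ((Polynomial.derivative f).eval ν) ^ 2) ≠ 0 := by
    refine mul_ne_zero (mul_ne_zero (mul_ne_zero (by norm_num) hqc) h0) (pow_ne_zero _ hsimple)
  exact sub_eq_zero.1 ((mul_eq_zero.1 h5).resolve_left h6)

end PL
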