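import Pool.Agent.Helper353.PL.Defs
import Pool.Agent.Helper353.PL.P_edgeN_first
import Pool.Agent.Helper353.PL.P_edgeN_root
import Pool.Agent.Helper353.PL.P_edgeN_hom

set_option autoImplicit false

open MvPolynomial

namespace PL



/-- two-dimensional edges are impossible -/
theorem edgeN (k l : ℕ) (hk : 2 ≤ k) (hkl : k ≤ l) (q : ℝ) (hq : 0 < q) (hq1 : q ≠ 1)
    (f : Polynomial ℂ) (hf0 : f.coeff 0 ≠ 0) (hfl : f.coeff l ≠ 0) (hdeg : f.natDegree ≤ l)
    (hint : ∀ j, f.coeff j ≠ 0 → l ∣ k * j)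
    (h : odeN (k : ℂ) ((k : ℂ) / l) q f = 0) : False := by
  classical
  have hex : ∃ j, 0 < j ∧ f.coeff j ≠ 0 := ⟨l, by omega, hfl⟩
  have hk0 : (k : ℂ) ≠ 0 := Nat.cast_ne_zero.2 (by omega)
  have hj1 : Nat.find hex = 1 := by
    refine edgeN_first (k : ℂ) ((k : ℂ) / l) hk0 q hq1 f hf0 (Nat.find hex) (Nat.find_spec hex).1
      ?_ (Nat.find_spec hex).2 h
    intro i hi hij
    by_contra hne
    exact Nat.find_min hex hij ⟨hi, hne⟩
  have hc1 : f.coeff 1 ≠ 0 := by
    have := (Nat.find_spec hex).2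
    rwa [hj1] at this
  have hdvd := hint 1 hc1
  rw [mul_one] at hdvd
  have hle : l ≤ k := Nat.le_of_dvd (by omega) hdvd
  have hkl' : l = k := le_antisymm hle hkl
  subst hkl'
  rw [div_self hk0] at h
  have hdeg' : f.natDegree = l := le_antisymm hdeg (Polynomial.le_natDegree_of_ne_zero hfl)
  have hf : f ≠ 0 := by
    rintro rfl
    simp at hf0
  refine hc1 (edgeN_hom l hk f hdeg' ?_)
  intro ν hν
  have h0 : ν ≠ 0 := by
    rintro rfl
    apply hf0
    rw [Polynomial.coeff_zero_eq_eval_zero]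
    exact hν
  exact edgeN_root l q hq f hf h ν h0 hν

end PL
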