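import Pool.Agent.Helper353.PL.Defs

set_option autoImplicit false

open MvPolynomial

namespace PL



/-- the substitution `X0 -> t^wa, X1 -> beta t^wb, X2 -> 1` -/
noncomputable def Phi (wa wb : ℕ) : MvPolynomial (Fin 3) ℂ →+* Polynomial (Polynomial ℂ) :=
  eval₂Hom ((Polynomial.C).comp (Polynomial.C : ℂ →+* Polynomial ℂ))
    ![Polynomial.X ^ wa, Polynomial.C Polynomial.X * Polynomial.X ^ wb, 1]

theorem Phi_monomial (wa wb : ℕ) (d : Fin 3 →₀ ℕ) (c : ℂ) :
    Phi wa wb (monomial d c) =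
      Polynomial.monomial (wa * d 0 + wb * d 1) (Polynomial.monomial (d 1) c) := by
  rw [Phi, eval₂Hom_monomial, Finsupp.prod_fintype _ _ (fun i => pow_zero _),
    Fin.prod_univ_three]
  simp only [Matrix.cons_val_zero, Matrix.cons_val_one, Matrix.cons_val]
  rw [← Polynomial.C_mul_X_pow_eq_monomial, ← Polynomial.C_mul_X_pow_eq_monomial]
  simp only [RingHom.comp_apply, map_mul, map_pow, one_pow, mul_one, mul_pow, ← pow_mul, pow_add]
  ring

theorem Phi_eq_sum (wa wb : ℕ) (P : MvPolynomial (Fin 3) ℂ) :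
    Phi wa wb P = ∑ d ∈ P.support,
      Polynomial.monomial (wa * d 0 + wb * d 1) (Polynomial.monomial (d 1) (P.coeff d)) := by
  conv_lhs => rw [← P.support_sum_monomial_coeff, map_sum]
  exact Finset.sum_congr rfl fun d _ => Phi_monomial wa wb d _

theorem Phi_coeff (wa wb s : ℕ) (P : MvPolynomial (Fin 3) ℂ) :
    (Phi wa wb P).coeff s = lowN wa wb s P := by
  rw [Phi_eq_sum, Polynomial.finsetSum_coeff, lowN, Finset.sum_filter]
  refine Finset.sum_congr rfl fun d _ => ?_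
  rw [Polynomial.coeff_monomial]

theorem Phi_dvd (wa wb s : ℕ) (P : MvPolynomial (Fin 3) ℂ)
    (h : ∀ d, P.coeff d ≠ 0 → s ≤ wa * d 0 + wb * d 1) :
    ∃ g : Polynomial (Polynomial ℂ), Phi wa wb P = Polynomial.X ^ s * g ∧
      g.eval 0 = lowN wa wb s P := by
  have h1 : Polynomial.X ^ s ∣ Phi wa wb P := by
    rw [Phi_eq_sum]
    refine Finset.dvd_sum fun d hd => ?_
    rw [← Polynomial.C_mul_X_pow_eq_monomial]
    exact Dvd.dvd.mul_left (pow_dvd_pow _ (h d (mem_support_iff.1 hd))) _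
  obtain ⟨g, hg⟩ := h1
  refine ⟨g, hg, ?_⟩
  rw [← Phi_coeff, hg, ← Polynomial.coeff_zero_eq_eval_zero]
  have h2 := Polynomial.coeff_X_pow_mul g s 0
  rw [zero_add] at h2
  exact h2.symm

/-- the operator `X_i d/dX_i` multiplies the coefficients -/
theorem coeff_theta (i : Fin 3) (P : MvPolynomial (Fin 3) ℂ) (d : Fin 3 →₀ ℕ) :
    coeff d (X i * pderiv i P) = (d i : ℂ) * coeff d P := by
  induction P using MvPolynomial.induction_on' with
  | monomial u a =>
    rw [X_mul_pderiv_monomial, coeff_smul, coeff_monomial]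
    by_cases h : u = d
    · subst h
      simp
    · simp [h]
  | add p q hp hq =>
    rw [map_add, mul_add, coeff_add, coeff_add, hp, hq, mul_add]

theorem lowN_of_coeff (wa wb s : ℕ) (U P : MvPolynomial (Fin 3) ℂ) (φ : (Fin 3 →₀ ℕ) → ℂ)
    (h : ∀ d, coeff d P = φ d * coeff d U) :
    lowN wa wb s P = ∑ d ∈ U.support.filter (fun d => wa * d 0 + wb * d 1 = s),
      Polynomial.monomial (d 1) (φ d * U.coeff d) := by
  rw [lowN]
  have h1 : P.support.filter (fun d => wa * d 0 + wb * d 1 = s) ⊆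
      U.support.filter (fun d => wa * d 0 + wb * d 1 = s) := by
    intro d hd
    rw [Finset.mem_filter, mem_support_iff] at hd ⊢
    refine ⟨fun h0 => hd.1 ?_, hd.2⟩
    rw [h, h0, mul_zero]
  rw [Finset.sum_subset h1]
  · exact Finset.sum_congr rfl fun d _ => by rw [h]
  · intro d hd hd'
    rw [Finset.mem_filter, mem_support_iff] at hd hd'
    have : coeff d P = 0 := by
      by_contra h0
      exact hd' ⟨h0, hd.2⟩
    rw [this, map_zero]

theorem sum_X_deriv (S : Finset (Fin 3 →₀ ℕ)) (φ c : (Fin 3 →₀ ℕ) → ℂ) :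
    Polynomial.X * Polynomial.derivative
      (∑ d ∈ S, Polynomial.monomial (d 1) (φ d * c d)) =
      ∑ d ∈ S, Polynomial.monomial (d 1) (((d 1 : ℕ) : ℂ) * φ d * c d) := by
  rw [Polynomial.derivative_sum, Finset.mul_sum]
  refine Finset.sum_congr rfl fun d _ => ?_
  rw [Polynomial.derivative_monomial]
  rcases Nat.eq_zero_or_pos (d 1) with h | h
  · rw [h]
    simp
  · rw [Polynomial.X_mul_monomial, Nat.sub_add_cancel h]
    congr 1
    ring

theorem low_N (q : ℂ) (m s wa wb : ℕ) (hwa : 0 < wa) (hwb : 0 < wb)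
    (U : MvPolynomial (Fin 3) ℂ) (hU : U.IsHomogeneous m)
    (hP : PJ q U = 0) (hs : ∀ d ∈ U.support, s ≤ wa * d 0 + wb * d 1) :
    odeN ((s : ℂ) / wa) ((wb : ℂ) / wa) q (lowN wa wb s U) = 0 := by
  have hwa' : (wa : ℂ) ≠ 0 := Nat.cast_ne_zero.2 hwa.ne'
  have hsU : ∀ d, U.coeff d ≠ 0 → s ≤ wa * d 0 + wb * d 1 :=
    fun d hd => hs d (mem_support_iff.2 hd)
  -- the operators
  set A := X 0 * pderiv 0 U with hA
  set B := X 1 * pderiv 1 U with hB
  set Cc := X 2 * pderiv 2 U with hCc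
  set P01 := X 0 * pderiv 0 B with hP01
  set P02 := X 0 * pderiv 0 Cc with hP02
  set P12 := X 1 * pderiv 1 Cc with hP12
  set P00 := X 0 * pderiv 0 A with hP00
  set P11 := X 1 * pderiv 1 B with hP11
  set P22 := X 2 * pderiv 2 Cc with hP22
  have e01 : P01 = X 0 * X 1 * pderiv 0 (pderiv 1 U) := by
    rw [hP01, hB, pderiv_mul, pderiv_X_of_ne (by decide)]
    ring
  have e02 : P02 = X 0 * X 2 * pderiv 0 (pderiv 2 U) := by
    rw [hP02, hCc, pderiv_mul, pderiv_X_of_ne (by decide)]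
    ring
  have e12 : P12 = X 1 * X 2 * pderiv 1 (pderiv 2 U) := by
    rw [hP12, hCc, pderiv_mul, pderiv_X_of_ne (by decide)]
    ring
  have e00 : P00 = A + X 0 ^ 2 * pderiv 0 (pderiv 0 U) := by
    rw [hP00, hA, pderiv_mul, pderiv_X_self]
    ring
  have e11 : P11 = B + X 1 ^ 2 * pderiv 1 (pderiv 1 U) := by
    rw [hP11, hB, pderiv_mul, pderiv_X_self]
    ring
  have e22 : P22 = Cc + X 2 ^ 2 * pderiv 2 (pderiv 2 U) := by
    rw [hP22, hCc, pderiv_mul, pderiv_X_self]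
    ring
  have key : X 2 ^ 4 * (4 * A * B * P01 + C (q - 1) * (B ^ 2 * (P00 - A) + A ^ 2 * (P11 - B)
        + 2 * A * B * P01)) +
      X 0 * X 1 * (2 * A * B * X 2 ^ 2 * (P22 - Cc) + 2 * Cc ^ 2 * P01 * X 2 ^ 2 +
        Cc ^ 2 * (P22 - Cc) * (X 0 * X 1) + C (q - 1) * (Cc ^ 2 * (P22 - Cc) * (X 0 * X 1) +
          2 * B * Cc * P02 * X 2 ^ 2 + 2 * A * Cc * P12 * X 2 ^ 2)) = 0 := by
    have h1 : X 0 ^ 2 * X 1 ^ 2 * X 2 ^ 4 * PJ q U = 0 := by rw [hP, mul_zero]
    rw [← h1, e01, e02, e12, e00, e11, e22, hA, hB, hCc, PJ]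
    ring
  -- coefficients
  have cA : ∀ d, coeff d A = (d 0 : ℂ) * coeff d U := fun d => coeff_theta 0 U d
  have cB : ∀ d, coeff d B = (d 1 : ℂ) * coeff d U := fun d => coeff_theta 1 U d
  have cC : ∀ d, coeff d Cc = (d 2 : ℂ) * coeff d U := fun d => coeff_theta 2 U d
  have c01 : ∀ d, coeff d P01 = ((d 1 : ℂ) * (d 0 : ℂ)) * coeff d U := fun d => by
    rw [hP01, coeff_theta, cB]; ring
  have c02 : ∀ d, coeff d P02 = ((d 0 : ℂ) * (d 2 : ℂ)) * coeff d U := fun d => by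
    rw [hP02, coeff_theta, cC]; ring
  have c12 : ∀ d, coeff d P12 = ((d 1 : ℂ) * (d 2 : ℂ)) * coeff d U := fun d => by
    rw [hP12, coeff_theta, cC]; ring
  have c00 : ∀ d, coeff d P00 = ((d 0 : ℂ) * (d 0 : ℂ)) * coeff d U := fun d => by
    rw [hP00, coeff_theta, cA]; ring
  have c11 : ∀ d, coeff d P11 = ((d 1 : ℂ) * (d 1 : ℂ)) * coeff d U := fun d => by
    rw [hP11, coeff_theta, cB]; ring
  have c22 : ∀ d, coeff d P22 = ((d 2 : ℂ) * (d 2 : ℂ)) * coeff d U := fun d => by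
    rw [hP22, coeff_theta, cC]; ring
  have hdv : ∀ (P : MvPolynomial (Fin 3) ℂ) (φ : (Fin 3 →₀ ℕ) → ℂ),
      (∀ d, coeff d P = φ d * coeff d U) →
      ∃ g : Polynomial (Polynomial ℂ), Phi wa wb P = Polynomial.X ^ s * g ∧
        g.eval 0 = lowN wa wb s P := by
    intro P φ h
    refine Phi_dvd wa wb s P fun d hd => hsU d fun h0 => hd ?_
    rw [h, h0, mul_zero]
  obtain ⟨gA, hgA, vA⟩ := hdv A _ cA
  obtain ⟨gB, hgB, vB⟩ := hdv B _ cB
  obtain ⟨gC, hgC, -⟩ := hdv Cc _ cC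
  obtain ⟨g01, hg01, v01⟩ := hdv P01 _ c01
  obtain ⟨g02, hg02, -⟩ := hdv P02 _ c02
  obtain ⟨g12, hg12, -⟩ := hdv P12 _ c12
  obtain ⟨g00, hg00, v00⟩ := hdv P00 _ c00
  obtain ⟨g11, hg11, v11⟩ := hdv P11 _ c11
  obtain ⟨g22, hg22, -⟩ := hdv P22 _ c22
  have hX0 : Phi wa wb (X 0) = Polynomial.X ^ wa := by simp [Phi]
  have hX1 : Phi wa wb (X 1) = Polynomial.C Polynomial.X * Polynomial.X ^ wb := by simp [Phi]
  have hX2 : Phi wa wb (X 2) = 1 := by simp [Phi]
  have hCq : Phi wa wb (C (q - 1)) = Polynomial.C (Polynomial.C (q - 1)) := by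
    rw [Phi, eval₂Hom_C]
    rfl
  have h2 : Phi wa wb 2 = 2 := map_ofNat _ 2
  have h4 : Phi wa wb 4 = 4 := map_ofNat _ 4
  obtain ⟨q1, hq1⟩ : ∃ q1 : ℂ, q1 = q - 1 := ⟨_, rfl⟩
  rw [← hq1] at key hCq
  have key2 := congrArg (Phi wa wb) key
  simp only [map_add, map_mul, map_sub, map_pow, map_zero, hX0, hX1, hX2, hCq, hgA, hgB, hgC,
    hg01, hg02, hg12, hg00, hg11, hg22, h2, h4] at key2
  set c1 : Polynomial (Polynomial ℂ) := Polynomial.C (Polynomial.C q1) with hc1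
  set be : Polynomial (Polynomial ℂ) := Polynomial.C Polynomial.X with hbe
  set t : Polynomial (Polynomial ℂ) := Polynomial.X with ht
  have key3 : t ^ (3 * s) * ((4 * gA * gB * g01 + c1 * (gB ^ 2 * (g00 - gA) +
      gA ^ 2 * (g11 - gB) + 2 * gA * gB * g01)) + t ^ wa * (be * t ^ wb * (
        2 * gA * gB * (g22 - gC) + 2 * gC ^ 2 * g01 + gC ^ 2 * (g22 - gC) * (t ^ wa *
          (be * t ^ wb)) + c1 * (gC ^ 2 * (g22 - gC) * (t ^ wa * (be * t ^ wb)) +
            2 * gB * gC * g02 + 2 * gA * gC * g12)))) = 0 := by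
    rw [← key2, mul_comm 3 s, pow_mul]
    ring
  have ht0 : t ^ (3 * s) ≠ 0 := pow_ne_zero _ Polynomial.X_ne_zero
  have key4 := (mul_eq_zero.1 key3).resolve_left ht0
  have key5 := congrArg (Polynomial.eval 0) key4
  simp only [Polynomial.eval_add, Polynomial.eval_mul, Polynomial.eval_pow, Polynomial.eval_sub,
    Polynomial.eval_X, ht, zero_pow hwa.ne', zero_mul, add_zero, Polynomial.eval_zero, hc1,
    Polynomial.eval_C, vA, vB, v01, v00, v11, Polynomial.eval_ofNat] at key5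
  -- the values
  set S := U.support.filter (fun d => wa * d 0 + wb * d 1 = s) with hS
  have hf : lowN wa wb s U = ∑ d ∈ S, Polynomial.monomial (d 1) ((1 : ℂ) * U.coeff d) := by
    simp only [lowN, one_mul, hS]
  have hd0 : ∀ d ∈ S, (d 0 : ℂ) = (s : ℂ) / wa - (wb : ℂ) / wa * (d 1 : ℂ) := by
    intro d hd
    have h1 : wa * d 0 + wb * d 1 = s := (Finset.mem_filter.1 hd).2
    have h2 : (wa : ℂ) * (d 0 : ℂ) + wb * (d 1 : ℂ) = s := by exact_mod_cast h1
    field_simp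
    linear_combination h2
  have hmu : ∀ φ : (Fin 3 →₀ ℕ) → ℂ,
      ∑ d ∈ S, Polynomial.monomial (d 1) (((d 0 : ℂ) * φ d) * U.coeff d) =
      Polynomial.C ((s : ℂ) / wa) * (∑ d ∈ S, Polynomial.monomial (d 1) (φ d * U.coeff d)) -
      Polynomial.C ((wb : ℂ) / wa) *
        (∑ d ∈ S, Polynomial.monomial (d 1) (((d 1 : ℕ) : ℂ) * φ d * U.coeff d)) := by
    intro φ
    rw [Finset.mul_sum, Finset.mul_sum, ← Finset.sum_sub_distrib]
    refine Finset.sum_congr rfl fun d hd => ?_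
    rw [Polynomial.C_mul_monomial, Polynomial.C_mul_monomial, ← map_sub, hd0 d hd]
    congr 1
    ring
  set f := lowN wa wb s U with hfdef
  have wB : lowN wa wb s B = Polynomial.X * Polynomial.derivative f := by
    rw [lowN_of_coeff wa wb s U B _ cB, hf, sum_X_deriv]
    refine Finset.sum_congr rfl fun d _ => ?_
    rw [mul_one]
  have wA : lowN wa wb s A = Polynomial.C ((s : ℂ) / wa) * f -
      Polynomial.C ((wb : ℂ) / wa) * Polynomial.X * Polynomial.derivative f := by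
    have h1 := hmu (fun _ => 1)
    rw [mul_assoc, hf, sum_X_deriv, ← h1, lowN_of_coeff wa wb s U A _ cA]
    refine Finset.sum_congr rfl fun d _ => ?_
    rw [mul_one]
  have wA' : lowN wa wb s A = ∑ d ∈ S, Polynomial.monomial (d 1) ((d 0 : ℂ) * U.coeff d) :=
    lowN_of_coeff wa wb s U A _ cA
  have wB' : lowN wa wb s B = ∑ d ∈ S, Polynomial.monomial (d 1) ((d 1 : ℂ) * U.coeff d) :=
    lowN_of_coeff wa wb s U B _ cB
  have w01 : lowN wa wb s P01 = Polynomial.X * Polynomial.derivative (lowN wa wb s A) := by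
    rw [lowN_of_coeff wa wb s U P01 _ c01, wA', sum_X_deriv]
  have w11 : lowN wa wb s P11 = Polynomial.X * Polynomial.derivative (lowN wa wb s B) := by
    rw [lowN_of_coeff wa wb s U P11 _ c11, wB', sum_X_deriv]
  have w00 : lowN wa wb s P00 = Polynomial.C ((s : ℂ) / wa) * lowN wa wb s A -
      Polynomial.C ((wb : ℂ) / wa) * (Polynomial.X * Polynomial.derivative (lowN wa wb s A)) := by
    rw [lowN_of_coeff wa wb s U P00 _ c00, hmu (fun d => (d 0 : ℂ)), wA', sum_X_deriv]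
  have key6 : Polynomial.X ^ 2 * odeN ((s : ℂ) / wa) ((wb : ℂ) / wa) q f = 0 := by
    rw [← key5, w00, w11, w01, wB, wA, odeN, ← hq1]
    simp only [Polynomial.derivative_sub, Polynomial.derivative_mul, Polynomial.derivative_C,
      Polynomial.derivative_X, zero_mul, zero_add, mul_one, map_sub, map_one]
    ring
  exact (mul_eq_zero.1 key6).resolve_left (pow_ne_zero _ Polynomial.X_ne_zero)

end PL
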