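import Pool.Agent.Helper353.PL.Defs

set_option autoImplicit false

open MvPolynomial

namespace PL



theorem vertexN_low_aux (j : ℕ) (h : Polynomial ℂ) :
    Polynomial.X * Polynomial.derivative (Polynomial.X ^ j * h) =
      Polynomial.X ^ j * (Polynomial.C (j : ℂ) * h + Polynomial.X * Polynomial.derivative h) := by
  rw [Polynomial.derivative_mul, Polynomial.derivative_X_pow]
  rcases j with _ | m
  · simp
  · rw [Nat.add_sub_cancel]
    ring

/-- vertex relation at the lowest exponent -/
theorem vertexN_low (i j : ℕ) (q : ℝ) (hq : 0 < q) (f : Polynomial ℂ) (mu sig : ℂ)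
    (hlow : ∀ k < j, f.coeff k = 0) (hj : f.coeff j ≠ 0)
    (hmu : mu - sig * j = i)
    (h : odeN mu sig q f = 0) : i = 0 ∨ j = 0 := by
  by_cases hj0 : j = 0
  · exact Or.inr hj0
  left
  by_contra hi0
  obtain ⟨g, hg⟩ : (Polynomial.X : Polynomial ℂ) ^ j ∣ f := Polynomial.X_pow_dvd_iff.2 hlow
  have hc : g.eval 0 = f.coeff j := by
    rw [hg, Polynomial.coeff_X_pow_mul', if_pos (le_refl j), Nat.sub_self,
      Polynomial.coeff_zero_eq_eval_zero]
  set c := f.coeff j with hcdef
  set f1 := Polynomial.derivative f with hf1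
  set f2 := Polynomial.derivative f1 with hf2
  set g1 : Polynomial ℂ := Polynomial.C (j : ℂ) * g + Polynomial.X * Polynomial.derivative g
    with hg1
  set g2 : Polynomial ℂ := Polynomial.C (j : ℂ) * g1 + Polynomial.X * Polynomial.derivative g1 - g1
    with hg2
  have e1 : Polynomial.X * f1 = Polynomial.X ^ j * g1 := by
    rw [hf1, hg, vertexN_low_aux]
  have e2 : Polynomial.X ^ 2 * f2 = Polynomial.X ^ j * g2 := by
    have h1 : Polynomial.X * Polynomial.derivative (Polynomial.X * f1) =
        Polynomial.X * f1 + Polynomial.X ^ 2 * f2 := by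
      rw [Polynomial.derivative_mul, Polynomial.derivative_X, ← hf2]
      ring
    rw [e1, vertexN_low_aux] at h1
    rw [hg2]
    linear_combination -h1
  set A : Polynomial ℂ := Polynomial.C mu * f - Polynomial.C sig * Polynomial.X * f1 with hA
  set AB : Polynomial ℂ := Polynomial.C (mu - sig) * f1 - Polynomial.C sig * Polynomial.X * f2
    with hAB
  set AA : Polynomial ℂ := Polynomial.C (mu - 1) * A - Polynomial.C sig * Polynomial.X * AB
    with hAA
  set A' : Polynomial ℂ := Polynomial.C mu * g - Polynomial.C sig * g1 with hA'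
  set AB' : Polynomial ℂ := Polynomial.C (mu - sig) * g1 - Polynomial.C sig * g2 with hAB'
  set AA' : Polynomial ℂ := Polynomial.C (mu - 1) * A' - Polynomial.C sig * AB' with hAA'
  have eA : A = Polynomial.X ^ j * A' := by
    rw [hA, hA']
    have : Polynomial.C sig * Polynomial.X * f1 = Polynomial.C sig * (Polynomial.X * f1) := by ring
    rw [this, e1, hg]
    ring
  have eAB : Polynomial.X * AB = Polynomial.X ^ j * AB' := by
    rw [hAB, hAB']
    have : Polynomial.X * (Polynomial.C (mu - sig) * f1 - Polynomial.C sig * Polynomial.X * f2) =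
      Polynomial.C (mu - sig) * (Polynomial.X * f1) - Polynomial.C sig * (Polynomial.X ^ 2 * f2) := by
      ring
    rw [this, e1, e2]
    ring
  have eAA : AA = Polynomial.X ^ j * AA' := by
    rw [hAA, hAA']
    have : Polynomial.C sig * Polynomial.X * AB = Polynomial.C sig * (Polynomial.X * AB) := by ring
    rw [this, eAB, eA]
    ring
  set W : Polynomial ℂ := 4 * A' * g1 * AB' +
    Polynomial.C ((q : ℂ) - 1) * (g1 ^ 2 * AA' + A' ^ 2 * g2 + 2 * A' * g1 * AB') with hW
  have hmain : Polynomial.X ^ 2 * odeN mu sig q f = (Polynomial.X ^ j) ^ 3 * W := by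
    have h1 : Polynomial.X ^ 2 * odeN mu sig q f =
        4 * A * (Polynomial.X * f1) * (Polynomial.X * AB) +
        Polynomial.C ((q : ℂ) - 1) * ((Polynomial.X * f1) ^ 2 * AA + A ^ 2 * (Polynomial.X ^ 2 * f2)
          + 2 * A * (Polynomial.X * f1) * (Polynomial.X * AB)) := by
      simp only [odeN]
      rw [← hf1, ← hf2, ← hA, ← hAB, ← hAA]
      ring
    rw [h1, e1, e2, eAB, eAA, eA, hW]
    ring
  rw [h, mul_zero] at hmain
  have hW0 : W = 0 := by
    rcases mul_eq_zero.1 hmain.symm with h1 | h1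
    · exact absurd h1 (pow_ne_zero _ (pow_ne_zero _ Polynomial.X_ne_zero))
    · exact h1
  have v1 : g1.eval 0 = j * c := by
    rw [hg1]
    simp [hc]
  have v2 : g2.eval 0 = j * (j * c) - j * c := by
    rw [hg2]
    simp [v1]
  have vA : A'.eval 0 = i * c := by
    rw [hA']
    simp only [Polynomial.eval_sub, Polynomial.eval_mul, Polynomial.eval_C, hc, v1]
    rw [← hmu]
    ring
  have vAB : AB'.eval 0 = i * j * c := by
    rw [hAB']
    simp only [Polynomial.eval_sub, Polynomial.eval_mul, Polynomial.eval_C, v1, v2]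
    rw [← hmu]
    ring
  have vAA : AA'.eval 0 = i * (i - 1) * c := by
    rw [hAA']
    simp only [Polynomial.eval_sub, Polynomial.eval_mul, Polynomial.eval_C, vA, vAB]
    rw [← hmu]
    ring
  have vW : W.eval 0 = (c ^ 3 * (i * j)) * (4 * q * i * j - (q - 1) * (i + j)) := by
    rw [hW]
    simp only [Polynomial.eval_add, Polynomial.eval_mul, Polynomial.eval_pow, Polynomial.eval_C,
      Polynomial.eval_ofNat, v1, v2, vA, vAB, vAA]
    ring
  rw [hW0, Polynomial.eval_zero] at vW
  have hi1 : (i : ℂ) ≠ 0 := by exact_mod_cast hi0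
  have hj1 : (j : ℂ) ≠ 0 := by exact_mod_cast hj0
  have h4 : (4 * q * i * j - (q - 1) * (i + j) : ℂ) = 0 := by
    rcases mul_eq_zero.1 vW.symm with h1 | h1
    · exact absurd h1 (mul_ne_zero (pow_ne_zero _ hj) (mul_ne_zero hi1 hj1))
    · exact h1
  have h5 : (4 * q * i * j - (q - 1) * (i + j) : ℝ) = 0 := by exact_mod_cast h4
  have hi2 : (1 : ℝ) ≤ i := by exact_mod_cast Nat.one_le_iff_ne_zero.2 hi0
  have hj2 : (1 : ℝ) ≤ j := by exact_mod_cast Nat.one_le_iff_ne_zero.2 hj0
  have h6 : 0 ≤ q * (2 * i * j - i - j) := by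
    apply mul_nonneg hq.le
    nlinarith
  nlinarith

end PL
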