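import Pool.Agent.Helper353.PL.Defs
import Pool.Agent.Helper353.PL.P_low_N
import Pool.Agent.Helper353.PL.P_edgeN
import Pool.Agent.Helper353.PL.P_vertexN_low

set_option autoImplicit false

open MvPolynomial

namespace PL



theorem NNle_deg {m : ℕ} {U : MvPolynomial (Fin 3) ℂ} (hU : U.IsHomogeneous m) {d : Fin 3 →₀ ℕ}
    (hd : d ∈ U.support) : d 0 + d 1 + d 2 = m := by
  by_contra hne
  apply MvPolynomial.mem_support_iff.1 hd
  apply hU.coeff_eq_zero
  rw [Finsupp.degree_eq_sum, Fin.sum_univ_three]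
  exact hne

theorem NNle_coeff {m s wa wb : ℕ} (hwa : 0 < wa) {U : MvPolynomial (Fin 3) ℂ}
    (hU : U.IsHomogeneous m) {d : Fin 3 →₀ ℕ}
    (hd : d ∈ U.support) (hs : wa * d 0 + wb * d 1 = s) :
    (lowN wa wb s U).coeff (d 1) = U.coeff d := by
  unfold lowN
  rw [Polynomial.finset_sum_coeff]
  rw [Finset.sum_eq_single d]
  · rw [Polynomial.coeff_monomial, if_pos rfl]
  · intro d' hd' hne
    rw [Finset.mem_filter] at hd'
    rw [Polynomial.coeff_monomial, if_neg]
    intro h1
    apply hne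
    have h0 : d' 0 = d 0 := by
      have h2 : wa * d' 0 = wa * d 0 := by
        have := hd'.2
        rw [h1] at this
        omega
      exact Nat.eq_of_mul_eq_mul_left hwa h2
    have e1 := NNle_deg hU hd
    have e2 := NNle_deg hU hd'.1
    ext i
    fin_cases i
    · exact h0
    · exact h1
    · show d' 2 = d 2
      omega
  · intro h
    exact absurd (Finset.mem_filter.2 ⟨hd, hs⟩) h

theorem NNle_ex {s wa wb j : ℕ} {U : MvPolynomial (Fin 3) ℂ}
    (h : (lowN wa wb s U).coeff j ≠ 0) :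
    ∃ d ∈ U.support, wa * d 0 + wb * d 1 = s ∧ d 1 = j := by
  unfold lowN at h
  rw [Polynomial.finset_sum_coeff] at h
  obtain ⟨d, hd, hne⟩ := Finset.exists_ne_zero_of_sum_ne_zero h
  rw [Finset.mem_filter] at hd
  refine ⟨d, hd.1, hd.2, ?_⟩
  by_contra hj
  apply hne
  rw [Polynomial.coeff_monomial, if_neg hj]

/-- a nonisotropic critical point is impossible, case `k ≤ l` -/
theorem NNle (q : ℝ) (hq : 0 < q) (hq1 : q ≠ 1) (m : ℕ) (U : MvPolynomial (Fin 3) ℂ)
    (hU : U.IsHomogeneous m) (hP : PJ q U = 0) (k l : ℕ) (hk : 2 ≤ k) (hkl : k ≤ l)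
    (ha : ∃ d ∈ U.support, d 1 = 0 ∧ d 0 = k) (ha' : ∀ d ∈ U.support, d 1 = 0 → k ≤ d 0)
    (hb : ∃ d ∈ U.support, d 0 = 0 ∧ d 1 = l) (hb' : ∀ d ∈ U.support, d 0 = 0 → l ≤ d 1) :
    False := by
  have hl0 : 0 < l := by omega
  have hk0 : 0 < k := by omega
  obtain ⟨dA, hdA, hA1, hA0⟩ := ha
  obtain ⟨dB, hdB, hB0, hB1⟩ := hb
  obtain ⟨dm, hdm, hmin⟩ := Finset.exists_min_image U.support (fun d => l * d 0 + k * d 1) ⟨dA, hdA⟩
  set s := l * dm 0 + k * dm 1 with hs
  have hsA : s ≤ l * k := by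
    have := hmin dA hdA
    simp only [hA1, hA0] at this
    simpa using this
  have hode := low_N (q : ℂ) m s l k hl0 hk0 U hU hP (fun d hd => hmin d hd)
  set f := lowN l k s U with hf
  have hex : ∃ j, f.coeff j ≠ 0 := by
    refine ⟨dm 1, ?_⟩
    rw [hf, NNle_coeff hl0 hU hdm rfl]
    exact MvPolynomial.mem_support_iff.1 hdm
  classical
  have hj := Nat.find_spec hex
  have hlow : ∀ j < Nat.find hex, f.coeff j = 0 := by
    intro j hj
    by_contra hne
    exact Nat.find_min hex hj hne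
  set j0 := Nat.find hex with hj0
  obtain ⟨d, hd, hds, hd1⟩ := NNle_ex hj
  have hlC : (l : ℂ) ≠ 0 := by exact_mod_cast hl0.ne'
  have hmu : (s : ℂ) / l - (k : ℂ) / l * j0 = (d 0 : ℕ) := by
    have h1 : ((l * d 0 + k * d 1 : ℕ) : ℂ) = (s : ℂ) := by rw [hds]
    rw [← h1, hd1]
    push_cast
    field_simp
    ring
  rcases vertexN_low (d 0) j0 q hq f _ _ hlow hj hmu hode with h0 | h0
  · -- d 0 = 0
    have h1 := hb' d hd h0
    rw [hd1] at h1
    have h2 : s = k * j0 := by rw [← hds, h0, hd1]; ring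
    have h3 : k * l ≤ k * j0 := Nat.mul_le_mul_left k h1
    have hsk : l * dA 0 + k * dA 1 = s := by
      rw [hA0, hA1]
      have : l * k = k * l := Nat.mul_comm l k
      omega
    have h4 : f.coeff 0 ≠ 0 := by
      rw [← hA1, hf, NNle_coeff hl0 hU hdA hsk]
      exact MvPolynomial.mem_support_iff.1 hdA
    have h5 : j0 ≤ 0 := Nat.find_min' hex h4
    omega
  · -- j0 = 0
    have h1 := ha' d hd (by rw [hd1, h0])
    have h2 : s = l * d 0 := by rw [← hds, hd1, h0]; ring
    have h3 : l * k ≤ l * d 0 := Nat.mul_le_mul_left l h1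
    have hsk : s = l * k := by omega
    have h4 : f.coeff 0 ≠ 0 := by rw [← h0]; exact hj
    have h5 : f.coeff l ≠ 0 := by
      have : l * dB 0 + k * dB 1 = s := by
        rw [hB0, hB1, hsk]; ring
      rw [← hB1, hf, NNle_coeff hl0 hU hdB this]
      exact MvPolynomial.mem_support_iff.1 hdB
    have h6 : ∀ j, f.coeff j ≠ 0 → l ∣ k * j ∧ j ≤ l := by
      intro j hj
      obtain ⟨d', hd', hds', hd1'⟩ := NNle_ex hj
      rw [hd1', hsk] at hds'
      constructor
      · exact (Nat.dvd_add_right (Dvd.intro _ rfl)).1 (by rw [hds']; exact Dvd.intro _ rfl)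
      · have : k * j ≤ k * l := by
          have e : l * k = k * l := Nat.mul_comm l k
          have e2 : 0 ≤ l * d' 0 := Nat.zero_le _
          omega
        exact Nat.le_of_mul_le_mul_left this hk0
    refine edgeN k l hk hkl q hq hq1 f h4 h5 ?_ (fun j hj => (h6 j hj).1) ?_
    · rw [Polynomial.natDegree_le_iff_coeff_eq_zero]
      intro N hN
      by_contra hne
      have := (h6 N hne).2
      omega
    · have e : (s : ℂ) / l = k := by
        rw [hsk]; push_cast; field_simp
      rw [e] at hode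
      exact hode

end PL
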