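import Pool.Agent.Helper353.PL.Defs

set_option autoImplicit false

open MvPolynomial

namespace PL



theorem PJ_swap_comm (i j : Fin 3) (P : MvPolynomial (Fin 3) ℂ) :
    pderiv i (pderiv j P) = pderiv j (pderiv i P) := by
  have h : ⁅pderiv (R := ℂ) i, pderiv (R := ℂ) j⁆ = 0 := by
    apply MvPolynomial.derivation_ext
    intro k
    rw [Derivation.commutator_apply]
    simp [pderiv_X, Pi.single_apply]
    split_ifs <;> simp
  have h2 := congrArg (fun D : Derivation ℂ (MvPolynomial (Fin 3) ℂ) (MvPolynomial (Fin 3) ℂ) =>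
    D P) h
  simp only [Derivation.commutator_apply, Derivation.zero_apply] at h2
  exact sub_eq_zero.1 h2

theorem PJ_swap_pd (i : Fin 3) (P : MvPolynomial (Fin 3) ℂ) :
    pderiv (Equiv.swap (0 : Fin 3) 1 i) (rename (Equiv.swap (0 : Fin 3) 1) P) =
      rename (Equiv.swap (0 : Fin 3) 1) (pderiv i P) :=
  pderiv_rename (Equiv.swap (0 : Fin 3) 1).injective i P

theorem PJ_swap (q : ℂ) (U : MvPolynomial (Fin 3) ℂ) :
    PJ q (rename (Equiv.swap (0 : Fin 3) 1) U) = rename (Equiv.swap (0 : Fin 3) 1) (PJ q U) := by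
  have e0 : ∀ P : MvPolynomial (Fin 3) ℂ, pderiv 1 (rename (Equiv.swap (0 : Fin 3) 1) P) =
      rename (Equiv.swap (0 : Fin 3) 1) (pderiv 0 P) := fun P => by
    have := PJ_swap_pd 0 P
    rwa [Equiv.swap_apply_left] at this
  have e1 : ∀ P : MvPolynomial (Fin 3) ℂ, pderiv 0 (rename (Equiv.swap (0 : Fin 3) 1) P) =
      rename (Equiv.swap (0 : Fin 3) 1) (pderiv 1 P) := fun P => by
    have := PJ_swap_pd 1 P
    rwa [Equiv.swap_apply_right] at this
  have e2 : ∀ P : MvPolynomial (Fin 3) ℂ, pderiv 2 (rename (Equiv.swap (0 : Fin 3) 1) P) =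
      rename (Equiv.swap (0 : Fin 3) 1) (pderiv 2 P) := fun P => by
    have := PJ_swap_pd 2 P
    rwa [show (Equiv.swap (0 : Fin 3) 1) 2 = 2 by decide] at this
  unfold PJ
  simp only [e0, e1, e2, map_add, map_mul, map_pow, map_ofNat, rename_C]
  rw [PJ_swap_comm 1 0]
  ring

end PL
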