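import Pool.Agent.Helper353.PL.Defs
import Pool.Agent.Helper353.PL.P_PJ_swap
import Pool.Agent.Helper353.PL.P_NNle

set_option autoImplicit false

open MvPolynomial

namespace PL



theorem j18863_coeff (U : MvPolynomial (Fin 3) ℂ) (d : Fin 3 →₀ ℕ) :
    (rename (Equiv.swap (0 : Fin 3) 1) U).coeff d =
      U.coeff (d.mapDomain (Equiv.swap (0 : Fin 3) 1)) := by
  have h1 : d = (d.mapDomain (Equiv.swap (0 : Fin 3) 1)).mapDomain (Equiv.swap (0 : Fin 3) 1) := by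
    rw [← Finsupp.mapDomain_comp]
    have h2 : (⇑(Equiv.swap (0 : Fin 3) 1) ∘ ⇑(Equiv.swap (0 : Fin 3) 1)) = id := by
      funext v
      simp
    rw [h2, Finsupp.mapDomain_id]
  conv_lhs => rw [h1]
  exact coeff_rename_mapDomain _ (Equiv.swap (0 : Fin 3) 1).injective U _

theorem j18863_ap (d : Fin 3 →₀ ℕ) (i : Fin 3) :
    (d.mapDomain (Equiv.swap (0 : Fin 3) 1)) i = d (Equiv.swap (0 : Fin 3) 1 i) := by
  rw [Finsupp.mapDomain_equiv_apply, Equiv.symm_swap]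

/-- a nonisotropic critical point is impossible -/
theorem NN (q : ℝ) (hq : 0 < q) (hq1 : q ≠ 1) (m : ℕ) (U : MvPolynomial (Fin 3) ℂ)
    (hU : U.IsHomogeneous m) (hP : PJ q U = 0)
    (hcrit : ∀ d ∈ U.support, 2 ≤ d 0 + d 1)
    (h0 : ∃ d ∈ U.support, d 0 = 0) (h1 : ∃ d ∈ U.support, d 1 = 0) : False := by
  classical
  obtain ⟨x, hx, hx1⟩ := h1
  obtain ⟨y, hy, hy0⟩ := h0
  obtain ⟨d, hd, hdm⟩ := Finset.exists_min_image (U.support.filter (fun d => d 1 = 0))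
    (fun d => d 0) ⟨x, Finset.mem_filter.2 ⟨hx, hx1⟩⟩
  obtain ⟨e, he, hem⟩ := Finset.exists_min_image (U.support.filter (fun d => d 0 = 0))
    (fun d => d 1) ⟨y, Finset.mem_filter.2 ⟨hy, hy0⟩⟩
  rw [Finset.mem_filter] at hd he
  have hk := hcrit d hd.1
  have hl := hcrit e he.1
  rcases le_total (d 0) (e 1) with h | h
  · refine NNle q hq hq1 m U hU hP (d 0) (e 1) (by omega) h ⟨d, hd.1, hd.2, rfl⟩
      (fun z hz hz1 => hdm z (Finset.mem_filter.2 ⟨hz, hz1⟩)) ⟨e, he.1, he.2, rfl⟩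
      (fun z hz hz0 => hem z (Finset.mem_filter.2 ⟨hz, hz0⟩))
  · have hsup : ∀ z : Fin 3 →₀ ℕ, z ∈ (rename (Equiv.swap (0 : Fin 3) 1) U).support ↔
        z.mapDomain (Equiv.swap (0 : Fin 3) 1) ∈ U.support := by
      intro z
      rw [mem_support_iff, mem_support_iff, j18863_coeff]
    have hinv : ∀ z : Fin 3 →₀ ℕ,
        (z.mapDomain (Equiv.swap (0 : Fin 3) 1)).mapDomain (Equiv.swap (0 : Fin 3) 1) = z := by
      intro z
      rw [← Finsupp.mapDomain_comp]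
      have h2 : (⇑(Equiv.swap (0 : Fin 3) 1) ∘ ⇑(Equiv.swap (0 : Fin 3) 1)) = id := by
        funext v
        simp
      rw [h2, Finsupp.mapDomain_id]
    have s0 : ∀ z : Fin 3 →₀ ℕ, (z.mapDomain (Equiv.swap (0 : Fin 3) 1)) 0 = z 1 := by
      intro z
      rw [j18863_ap, Equiv.swap_apply_left]
    have s1 : ∀ z : Fin 3 →₀ ℕ, (z.mapDomain (Equiv.swap (0 : Fin 3) 1)) 1 = z 0 := by
      intro z
      rw [j18863_ap, Equiv.swap_apply_right]
    refine NNle q hq hq1 m (rename (Equiv.swap (0 : Fin 3) 1) U) hU.rename_isHomogeneous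
      (by rw [PJ_swap, hP, map_zero]) (e 1) (d 0) (by omega) h
      ⟨e.mapDomain (Equiv.swap (0 : Fin 3) 1), ?_, ?_, ?_⟩ ?_
      ⟨d.mapDomain (Equiv.swap (0 : Fin 3) 1), ?_, ?_, ?_⟩ ?_
    · rw [hsup, hinv]; exact he.1
    · rw [s1]; exact he.2
    · rw [s0]
    · intro z hz hz1
      rw [hsup] at hz
      have := hem _ (Finset.mem_filter.2 ⟨hz, by rw [s0]; exact hz1⟩)
      rwa [s1] at this
    · rw [hsup, hinv]; exact hd.1
    · rw [s0]; exact hd.2
    · rw [s1]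
    · intro z hz hz0
      rw [hsup] at hz
      have := hdm _ (Finset.mem_filter.2 ⟨hz, by rw [s1]; exact hz0⟩)
      rwa [s0] at this

end PL
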