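import Pool.Agent.Helper353.PL.Defs
import Pool.Agent.Helper353.PL.P_low_N
import Pool.Agent.Helper353.PL.P_vertexN_low

set_option autoImplicit false

open MvPolynomial

namespace PL



theorem VN_deg {m : ℕ} {U : MvPolynomial (Fin 3) ℂ} (hU : U.IsHomogeneous m) {d : Fin 3 →₀ ℕ}
    (hd : d ∈ U.support) : d 0 + d 1 + d 2 = m := by
  have h := hU (MvPolynomial.mem_support_iff.1 hd)
  rw [Finsupp.weight_apply, Finsupp.sum_fintype _ _ (by simp)] at h
  simpa [Fin.sum_univ_three] using h

/-- a solution is not divisible by both isotropic coordinates -/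
theorem VN (q : ℝ) (hq : 0 < q) (m : ℕ) (U : MvPolynomial (Fin 3) ℂ) (hU : U.IsHomogeneous m)
    (hU0 : U ≠ 0) (hP : PJ q U = 0) : ∃ d ∈ U.support, d 0 = 0 ∨ d 1 = 0 := by
  have hne : U.support.Nonempty := MvPolynomial.support_nonempty.2 hU0
  obtain ⟨e, he, hmin⟩ := Finset.exists_min_image U.support (fun d => (m + 1) * d 0 + 1 * d 1) hne
  obtain ⟨s, hs⟩ : ∃ s, s = (m + 1) * e 0 + 1 * e 1 := ⟨_, rfl⟩
  have hN := low_N (q : ℂ) m s (m + 1) 1 (Nat.succ_pos m) one_pos U hU hP (fun d hd => by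
    rw [hs]; exact hmin d hd)
  have hede := VN_deg hU he
  have hfil : U.support.filter (fun d => (m + 1) * d 0 + 1 * d 1 = s) = {e} := by
    apply Finset.eq_singleton_iff_unique_mem.2
    refine ⟨Finset.mem_filter.2 ⟨he, hs.symm⟩, fun d hd => ?_⟩
    rw [Finset.mem_filter] at hd
    obtain ⟨hd1, hd2⟩ := hd
    have hdd := VN_deg hU hd1
    rw [hs] at hd2
    have h0 : d 0 = e 0 := by
      rcases lt_trichotomy (d 0) (e 0) with h | h | h
      · exfalso
        have h1 : (m + 1) * (d 0 + 1) ≤ (m + 1) * e 0 := Nat.mul_le_mul_left _ h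
        rw [mul_add] at h1
        omega
      · exact h
      · exfalso
        have h1 : (m + 1) * (e 0 + 1) ≤ (m + 1) * d 0 := Nat.mul_le_mul_left _ h
        rw [mul_add] at h1
        omega
    have h1 : d 1 = e 1 := by
      rw [h0] at hd2
      omega
    have h2 : d 2 = e 2 := by omega
    ext i
    fin_cases i
    · exact h0
    · exact h1
    · exact h2
  have hlow : lowN (m + 1) 1 s U = Polynomial.monomial (e 1) (U.coeff e) := by
    rw [lowN, hfil, Finset.sum_singleton]
  have hce : U.coeff e ≠ 0 := MvPolynomial.mem_support_iff.1 he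
  rw [hlow] at hN
  have hm : ((m + 1 : ℕ) : ℂ) ≠ 0 := Nat.cast_ne_zero.2 (Nat.succ_ne_zero m)
  refine ⟨e, he, vertexN_low (e 0) (e 1) q hq _ _ _ ?_ ?_ ?_ hN⟩
  · intro k hk
    rw [Polynomial.coeff_monomial, if_neg (by omega)]
  · rw [Polynomial.coeff_monomial, if_pos rfl]
    exact hce
  · rw [hs]
    push_cast at hm ⊢
    field_simp
    ring

end PL
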