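import Pool.Agent.Helper353.PL.Defs

set_option autoImplicit false

open MvPolynomial

namespace PL



theorem norm_unit_coprime {δ : MvPolynomial (Fin 2) ℂ} {M : ℕ}
    (h1 : δ ∣ (X 0 : MvPolynomial (Fin 2) ℂ) ^ M) (h2 : δ ∣ (X 1 : MvPolynomial (Fin 2) ℂ) ^ M) :
    IsUnit δ := by
  obtain ⟨i, -, hi⟩ := (dvd_prime_pow (X_prime (R := ℂ) (i := (0 : Fin 2))) M).1 h1
  obtain ⟨j, -, hj⟩ := (dvd_prime_pow (X_prime (R := ℂ) (i := (1 : Fin 2))) M).1 h2
  rcases Nat.eq_zero_or_pos i with h0 | h0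
  · rw [h0, pow_zero] at hi
    exact hi.symm.isUnit isUnit_one
  · exfalso
    have h3 : (X 0 : MvPolynomial (Fin 2) ℂ) ∣ X 1 ^ j :=
      (dvd_pow_self _ (by omega)).trans ((hi.symm.trans hj).dvd)
    have h4 := (X_prime (R := ℂ) (i := (0 : Fin 2))).dvd_of_dvd_pow h3
    rw [X_dvd_X] at h4
    exact absurd h4 (by decide)

/-- a monic polynomial and `H` without common zeros outside the origin generate everything -/
theorem norm_unit (q0 H : Polynomial (MvPolynomial (Fin 2) ℂ)) (hq : q0.Monic) (N : ℕ)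
    (h1 : Polynomial.C ((X 0 : MvPolynomial (Fin 2) ℂ) ^ N) ∈ Ideal.span {q0, H})
    (h2 : Polynomial.C ((X 1 : MvPolynomial (Fin 2) ℂ) ^ N) ∈ Ideal.span {q0, H}) :
    Ideal.span {q0, H} = ⊤ := by
  have hfree : Module.Free (MvPolynomial (Fin 2) ℂ) (AdjoinRoot q0) := .of_basis (AdjoinRoot.powerBasis' hq).basis
  have hfin : Module.Finite (MvPolynomial (Fin 2) ℂ) (AdjoinRoot q0) := .of_basis (AdjoinRoot.powerBasis' hq).basis
  have key : ∀ x : MvPolynomial (Fin 2) ℂ, Polynomial.C (x ^ N) ∈ Ideal.span {q0, H} →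
      Algebra.norm (MvPolynomial (Fin 2) ℂ) (AdjoinRoot.mk q0 H) ∣
        x ^ (N * Module.finrank (MvPolynomial (Fin 2) ℂ) (AdjoinRoot q0)) := by
    intro x hx
    obtain ⟨a, b, hab⟩ := Ideal.mem_span_pair.1 hx
    have h3 : algebraMap (MvPolynomial (Fin 2) ℂ) (AdjoinRoot q0) (x ^ N) =
        AdjoinRoot.mk q0 b * AdjoinRoot.mk q0 H := by
      have h4 : algebraMap (MvPolynomial (Fin 2) ℂ) (AdjoinRoot q0) (x ^ N) =
        AdjoinRoot.mk q0 (Polynomial.C (x ^ N)) := rfl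
      rw [h4, ← hab, map_add, map_mul, map_mul, AdjoinRoot.mk_self, mul_zero, zero_add]
    have h5 := congrArg (Algebra.norm (MvPolynomial (Fin 2) ℂ)) h3
    rw [Algebra.norm_algebraMap, map_mul, ← pow_mul] at h5
    rw [h5]
    exact dvd_mul_left _ _
  have hu := norm_unit_coprime (key _ h1) (key _ h2)
  rw [Algebra.norm_apply, ← LinearMap.isUnit_iff_isUnit_det] at hu
  have hs : Function.Surjective (Algebra.lmul (MvPolynomial (Fin 2) ℂ) (AdjoinRoot q0) (AdjoinRoot.mk q0 H)) :=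
    ((Module.End.isUnit_iff _).1 hu).2
  obtain ⟨y, hy⟩ := hs 1
  obtain ⟨b, rfl⟩ := AdjoinRoot.mk_surjective y
  have h6 : AdjoinRoot.mk q0 (H * b) = AdjoinRoot.mk q0 1 := by
    rw [map_mul, map_one]
    exact hy
  rw [AdjoinRoot.mk_eq_mk] at h6
  obtain ⟨c, hc⟩ := h6
  rw [Ideal.eq_top_iff_one, Ideal.mem_span_pair]
  exact ⟨-c, b, by linear_combination hc⟩

end PL
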