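import Pool.Agent.Helper353.PL.Defs

set_option autoImplicit false

open MvPolynomial

namespace PL



/-- Nullstellensatz -/
theorem nullst (f g h : MvPolynomial (Fin 3) ℂ)
    (hz : ∀ x : Fin 3 → ℂ, eval x f = 0 → eval x g = 0 → eval x h = 0 → x = 0) (i : Fin 3) :
    ∃ N, (X i : MvPolynomial (Fin 3) ℂ) ^ N ∈ Ideal.span {f, g, h} := by
  have h1 : (X i : MvPolynomial (Fin 3) ℂ) ∈
      vanishingIdeal ℂ (zeroLocus ℂ (Ideal.span {f, g, h})) := by
    intro x hx
    have hm : ∀ p ∈ ({f, g, h} : Set (MvPolynomial (Fin 3) ℂ)), eval x p = 0 := by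
      intro p hp
      have := hx p (Ideal.subset_span hp)
      rwa [aeval_eq_eval] at this
    have hx0 : x = 0 := hz x (hm f (by simp)) (hm g (by simp)) (hm h (by simp))
    rw [hx0]
    simp
  rw [vanishingIdeal_zeroLocus_eq_radical] at h1
  exact h1

end PL
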