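import Pool.Agent.Helper353.PL.Defs

set_option autoImplicit false

open MvPolynomial

namespace PL



/-- saturation -/
theorem sat_lemma {A : Type} [CommRing A] [IsDomain A] (s t : A) (hs : s ≠ 0)
    (hst : ∀ b : A, s ∣ t * b → s ∣ b)
    (F G P : Polynomial A) (hF : F.Monic)
    (hFG : ∀ B : Polynomial A, F ∣ B * G → F ∣ B)
    (a1 b1 a2 b2 : Polynomial A)
    (h1 : Polynomial.C s * P = a1 * F + b1 * G) (h2 : Polynomial.C t * P = a2 * F + b2 * G) :
    ∃ a b : Polynomial A, P = a * F + b * G := by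
  have e1 : F ∣ (Polynomial.C t * b1 - Polynomial.C s * b2) * G :=
    ⟨Polynomial.C s * a2 - Polynomial.C t * a1, by
      linear_combination (-Polynomial.C t) * h1 + Polynomial.C s * h2⟩
  have e2 := hFG _ e1
  have e3 : (Polynomial.C t * b1 - Polynomial.C s * b2) %ₘ F = 0 :=
    (Polynomial.modByMonic_eq_zero_iff_dvd hF).2 e2
  rw [Polynomial.sub_modByMonic, ← Polynomial.smul_eq_C_mul, ← Polynomial.smul_eq_C_mul,
    Polynomial.smul_modByMonic, Polynomial.smul_modByMonic] at e3
  have e4 : Polynomial.C s ∣ b1 %ₘ F := by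
    rw [Polynomial.C_dvd_iff_dvd_coeff]
    intro n
    apply hst
    refine ⟨(b2 %ₘ F).coeff n, ?_⟩
    have := congrArg (fun p => Polynomial.coeff p n) e3
    simp only [Polynomial.coeff_sub, Polynomial.coeff_smul, smul_eq_mul, Polynomial.coeff_zero] at this
    exact sub_eq_zero.1 this
  obtain ⟨b, hb⟩ := e4
  have e5 : b1 %ₘ F + F * (b1 /ₘ F) = b1 := Polynomial.modByMonic_add_div b1 F
  have e6 : Polynomial.C s * (P - b * G) = (a1 + (b1 /ₘ F) * G) * F := by
    rw [hb] at e5
    linear_combination h1 - G * e5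
  have e7 : (P - b * G) %ₘ F = 0 := by
    have h : (Polynomial.C s * (P - b * G)) %ₘ F = 0 := by
      rw [e6]
      exact (Polynomial.modByMonic_eq_zero_iff_dvd hF).2 (dvd_mul_left _ _)
    rw [← Polynomial.smul_eq_C_mul, Polynomial.smul_modByMonic] at h
    exact (smul_eq_zero.1 h).resolve_left hs
  obtain ⟨a, ha⟩ := (Polynomial.modByMonic_eq_zero_iff_dvd hF).1 e7
  exact ⟨a, b, by linear_combination ha⟩

end PL
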