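import Pool.Agent.Helper353.PL.Defs
import Pool.Agent.Helper353.PL.P_sat_lemma
import Pool.Agent.Helper353.PL.P_norm_unit
import Pool.Agent.Helper353.PL.P_nullst

set_option autoImplicit false

open MvPolynomial

namespace PL



theorem am_low {d : ℕ} {f q r : MvPolynomial (Fin 3) ℂ} (hf : f.IsHomogeneous d) (h : f = q * r)
    (hq : coeff 0 q ≠ 0) : ∀ n, ∀ m : Fin 3 →₀ ℕ, m.degree = n → n < d → coeff m r = 0 := by
  intro n
  induction n using Nat.strong_induction_on with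
  | _ n ih =>
    intro m hm hn
    have h1 : coeff m f = 0 := hf.coeff_eq_zero (by omega)
    rw [h, coeff_mul, Finset.sum_eq_single (0, m)] at h1
    · rcases mul_eq_zero.1 h1 with h2 | h2
      · exact absurd h2 hq
      · exact h2
    · intro x hx hne
      rw [Finset.HasAntidiagonal.mem_antidiagonal] at hx
      have hd : x.1.degree + x.2.degree = n := by rw [← map_add, hx, hm]
      have hx1 : x.1.degree ≠ 0 := by
        intro h0
        rw [Finsupp.degree_eq_zero_iff] at h0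
        apply hne
        rw [h0, zero_add] at hx
        exact Prod.ext h0 hx
      rw [ih x.2.degree (by omega) x.2 rfl (by omega), mul_zero]
    · intro hcon
      exfalso
      apply hcon
      rw [Finset.HasAntidiagonal.mem_antidiagonal]
      simp

theorem am_unit {d : ℕ} {f q r : MvPolynomial (Fin 3) ℂ} (hf : f.IsHomogeneous d) (hf0 : f ≠ 0)
    (h : f = q * r) (hq : coeff 0 q ≠ 0) : IsUnit q := by
  have hq0 : q ≠ 0 := by
    intro h0
    rw [h0] at hq
    simp at hq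
  have hr0 : r ≠ 0 := by
    intro h0
    rw [h0, mul_zero] at h
    exact hf0 h
  obtain ⟨m, hm⟩ := MvPolynomial.ne_zero_iff.1 hr0
  have h1 : d ≤ m.degree := by
    by_contra hcon
    exact hm (am_low hf h hq _ m rfl (by omega))
  have h2 : m.degree ≤ r.totalDegree := by
    have := le_totalDegree (p := r) (s := m) (mem_support_iff.2 hm)
    exact this
  have h3 : f.totalDegree = d := hf.totalDegree hf0
  have h4 : f.totalDegree = q.totalDegree + r.totalDegree := by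
    rw [h]
    exact totalDegree_mul_of_isDomain hq0 hr0
  have h5 : q.totalDegree = 0 := by omega
  rw [totalDegree_eq_zero_iff_eq_C.1 h5]
  exact (isUnit_iff_ne_zero.2 hq).map (C : ℂ →+* MvPolynomial (Fin 3) ℂ)

theorem am_cons_degree (m : Fin 2 →₀ ℕ) (i : ℕ) : (m.cons i : Fin 3 →₀ ℕ).degree = i + m.degree := by
  rw [Finsupp.degree_eq_sum, Finsupp.degree_eq_sum, Fin.sum_univ_succ]
  simp

theorem am_coeff_zero {d : ℕ} {f : MvPolynomial (Fin 3) ℂ} (hf : f.IsHomogeneous d) (i : ℕ)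
    (m : Fin 2 →₀ ℕ) (h : i + m.degree ≠ d) :
    coeff m ((finSuccEquiv ℂ 2 f).coeff i) = 0 := by
  rw [finSuccEquiv_coeff_coeff]
  exact hf.coeff_eq_zero (by rw [am_cons_degree]; exact h)

theorem am_natDegree {d : ℕ} {f : MvPolynomial (Fin 3) ℂ} (hf : f.IsHomogeneous d) :
    (finSuccEquiv ℂ 2 f).natDegree ≤ d := by
  rw [Polynomial.natDegree_le_iff_coeff_eq_zero]
  intro i hi
  ext m
  rw [am_coeff_zero hf i m (by omega), coeff_zero]

theorem am_monic {d : ℕ} {f : MvPolynomial (Fin 3) ℂ} (hf : f.IsHomogeneous d)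
    (hmon : eval ![1, 0, 0] f = 1) : (finSuccEquiv ℂ 2 f).Monic := by
  have hC : (finSuccEquiv ℂ 2 f).coeff d = C (coeff 0 ((finSuccEquiv ℂ 2 f).coeff d)) := by
    ext m
    rw [coeff_C]
    split_ifs with h
    · rw [h]
    · apply am_coeff_zero hf
      intro h2
      have h3 : m.degree = 0 := by omega
      rw [Finsupp.degree_eq_zero_iff] at h3
      exact h h3.symm
  have hev : eval ![1, 0, 0] f = coeff 0 ((finSuccEquiv ℂ 2 f).coeff d) := by
    have h1 := eval_eq_eval_mv_eval' (![0, 0] : Fin 2 → ℂ) 1 f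
    have h2 : (Fin.cons 1 ![0, 0] : Fin 3 → ℂ) = ![1, 0, 0] := rfl
    rw [h2] at h1
    rw [h1]
    rw [Polynomial.eval_eq_sum_range' (n := d + 1)
      (lt_of_le_of_lt Polynomial.natDegree_map_le (Nat.lt_succ_of_le (am_natDegree hf)))]
    rw [Finset.sum_eq_single d]
    · rw [Polynomial.coeff_map, one_pow, mul_one, hC]
      simp
    · intro i hi hid
      rw [Polynomial.coeff_map, one_pow, mul_one]
      have h3 : (![0, 0] : Fin 2 → ℂ) = 0 := by
        ext j
        fin_cases j <;> rfl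
      rw [h3]
      have h4 : eval (0 : Fin 2 → ℂ) ((finSuccEquiv ℂ 2 f).coeff i) =
          coeff 0 ((finSuccEquiv ℂ 2 f).coeff i) := by
        rw [← constantCoeff_eq]
        simp [constantCoeff_eq]
      rw [h4]
      apply am_coeff_zero hf
      simpa using hid
    · intro hcon
      exfalso
      apply hcon
      simp
  apply Polynomial.monic_of_natDegree_le_of_coeff_eq_one d (am_natDegree hf)
  rw [hC, ← hev, hmon, C_1]

theorem am_trip {R : Type*} [CommRing R] {f g h x : R} (hx : x ∈ Ideal.span {f, g, h}) :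
    ∃ a b c, x = a * f + b * g + c * h := by
  obtain ⟨a, z, hz, rfl⟩ := Ideal.mem_span_insert.1 hx
  obtain ⟨b, c, rfl⟩ := Ideal.mem_span_pair.1 hz
  exact ⟨a, b, c, by ring⟩

theorem am_mul_coeff {d : ℕ} {f : MvPolynomial (Fin 3) ℂ} (hf : f.IsHomogeneous d)
    (a : MvPolynomial (Fin 3) ℂ) (m : Fin 3 →₀ ℕ) (hm : m.degree < d) : coeff m (a * f) = 0 := by
  rw [coeff_mul]
  apply Finset.sum_eq_zero
  intro x hx
  rw [Finset.HasAntidiagonal.mem_antidiagonal] at hx
  have hd : x.1.degree + x.2.degree = m.degree := by rw [← map_add, hx]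
  rw [hf.coeff_eq_zero (d := x.2) (by omega), mul_zero]

theorem am_X1 : finSuccEquiv ℂ 2 (X 1) = Polynomial.C (X 0) := finSuccEquiv_X_succ (j := 0)

theorem am_X2 : finSuccEquiv ℂ 2 (X 2) = Polynomial.C (X 1) := finSuccEquiv_X_succ (j := 1)

theorem am_relprime (d : ℕ) (hd : 1 ≤ d) (f g h : MvPolynomial (Fin 3) ℂ)
    (hf : f.IsHomogeneous d) (hh : h.IsHomogeneous d)
    (hz : ∀ x : Fin 3 → ℂ, eval x f = 0 → eval x g = 0 → eval x h = 0 → x = 0)
    (hmon : eval ![1, 0, 0] f = 1) : IsRelPrime f g := by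
  intro q0 hq1 hq2
  obtain ⟨r, hr⟩ := hq1
  obtain ⟨r', hr'⟩ := hq2
  have hF : (finSuccEquiv ℂ 2 f).Monic := am_monic hf hmon
  have hFr : finSuccEquiv ℂ 2 f = finSuccEquiv ℂ 2 q0 * finSuccEquiv ℂ 2 r := by rw [hr, map_mul]
  have hGr : finSuccEquiv ℂ 2 g = finSuccEquiv ℂ 2 q0 * finSuccEquiv ℂ 2 r' := by
    rw [hr', map_mul]
  have hf0 : f ≠ 0 := by
    intro h0
    rw [h0] at hmon
    simp at hmon
  have hlc : (finSuccEquiv ℂ 2 q0).leadingCoeff * (finSuccEquiv ℂ 2 r).leadingCoeff = 1 := by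
    rw [← Polynomial.leadingCoeff_mul, ← hFr]
    exact hF
  have hCC : Polynomial.C (finSuccEquiv ℂ 2 r).leadingCoeff *
      Polynomial.C (finSuccEquiv ℂ 2 q0).leadingCoeff = 1 := by
    rw [← Polynomial.C_mul, mul_comm, hlc, Polynomial.C_1]
  obtain ⟨q1, hq1⟩ : ∃ q1, q1 = finSuccEquiv ℂ 2 q0 *
    Polynomial.C (finSuccEquiv ℂ 2 r).leadingCoeff := ⟨_, rfl⟩
  have hq1m : q1.Monic := by
    rw [hq1]
    exact Polynomial.monic_mul_C_of_leadingCoeff_mul_eq_one hlc
  have hdv : finSuccEquiv ℂ 2 q0 = q1 * Polynomial.C (finSuccEquiv ℂ 2 q0).leadingCoeff := by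
    rw [hq1, mul_assoc, hCC, mul_one]
  have htr : ∀ x ∈ Ideal.span {f, g, h}, finSuccEquiv ℂ 2 x ∈ Ideal.span {q1, finSuccEquiv ℂ 2 h} := by
    intro x hx
    obtain ⟨a, b, c, rfl⟩ := am_trip hx
    rw [Ideal.mem_span_pair]
    refine ⟨finSuccEquiv ℂ 2 a * (Polynomial.C (finSuccEquiv ℂ 2 q0).leadingCoeff *
      finSuccEquiv ℂ 2 r) + finSuccEquiv ℂ 2 b * (Polynomial.C (finSuccEquiv ℂ 2 q0).leadingCoeff *
      finSuccEquiv ℂ 2 r'), finSuccEquiv ℂ 2 c, ?_⟩
    rw [map_add, map_add, map_mul, map_mul, map_mul, hFr, hGr]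
    nth_rewrite 3 [hdv]
    nth_rewrite 4 [hdv]
    ring
  obtain ⟨N1, hN1⟩ := nullst f g h hz 1
  obtain ⟨N2, hN2⟩ := nullst f g h hz 2
  have hA : Polynomial.C ((X 0 : MvPolynomial (Fin 2) ℂ) ^ (N1 + N2)) ∈
      Ideal.span {q1, finSuccEquiv ℂ 2 h} := by
    have := htr _ (Ideal.mul_mem_right ((X 1 : MvPolynomial (Fin 3) ℂ) ^ N2) _ hN1)
    rw [← pow_add, map_pow, am_X1, ← map_pow] at this
    exact this
  have hB : Polynomial.C ((X 1 : MvPolynomial (Fin 2) ℂ) ^ (N1 + N2)) ∈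
      Ideal.span {q1, finSuccEquiv ℂ 2 h} := by
    have := htr _ (Ideal.mul_mem_left _ ((X 2 : MvPolynomial (Fin 3) ℂ) ^ N1) hN2)
    rw [← pow_add, map_pow, am_X2, ← map_pow] at this
    exact this
  have htop := norm_unit q1 (finSuccEquiv ℂ 2 h) hq1m (N1 + N2) hA hB
  have h1 : (1 : Polynomial (MvPolynomial (Fin 2) ℂ)) ∈ Ideal.span {q1, finSuccEquiv ℂ 2 h} := by
    rw [htop]
    trivial
  obtain ⟨a, b, hab⟩ := Ideal.mem_span_pair.1 h1
  apply am_unit hf hf0 hr
  intro hc0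
  have h2 := congrArg (finSuccEquiv ℂ 2).symm hab
  rw [hq1, map_add, map_mul, map_mul, map_mul, map_one, AlgEquiv.symm_apply_apply,
    AlgEquiv.symm_apply_apply] at h2
  have h3 := congrArg (constantCoeff : MvPolynomial (Fin 3) ℂ → ℂ) h2
  have hh0 : constantCoeff h = 0 := by
    rw [constantCoeff_eq]
    apply hh.coeff_eq_zero
    rw [map_zero]
    omega
  have hq00 : constantCoeff q0 = 0 := by
    rw [constantCoeff_eq]
    exact hc0
  simp only [map_add, map_mul, hh0, hq00, zero_mul, mul_zero, add_zero, map_one] at h3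
  exact zero_ne_one h3

theorem am_mem {f g h P x : MvPolynomial (Fin 3) ℂ} (hx : x ∈ Ideal.span {f, g, h})
    (hmem : h ^ 2 * P ∈ Ideal.span {f, g}) : ∃ a b, x ^ 2 * P = a * f + b * g := by
  obtain ⟨a, b, c, rfl⟩ := am_trip hx
  obtain ⟨a', b', hab⟩ := Ideal.mem_span_pair.1 hmem
  refine ⟨(2 * c * h + a * f + b * g) * a * P + c ^ 2 * a',
    (2 * c * h + a * f + b * g) * b * P + c ^ 2 * b', ?_⟩
  linear_combination -c ^ 2 * hab

theorem am_coprime (N M : ℕ) (b : MvPolynomial (Fin 2) ℂ)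
    (h : (X 0 : MvPolynomial (Fin 2) ℂ) ^ N ∣ X 1 ^ M * b) : (X 0 : MvPolynomial (Fin 2) ℂ) ^ N ∣ b := by
  have h1 : IsRelPrime (X 0 : MvPolynomial (Fin 2) ℂ) (X 1) := by
    rw [(X_prime (R := ℂ) (i := (0 : Fin 2))).irreducible.isRelPrime_iff_not_dvd, X_dvd_X]
    decide
  exact (h1.pow_left.pow_right).dvd_of_dvd_mul_left h

/-- the ideal-theoretic step when `f` is monic in the first variable -/
theorem alg_mono (d : ℕ) (hd : 1 ≤ d) (f g h P : MvPolynomial (Fin 3) ℂ)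
    (hf : f.IsHomogeneous d) (hg : g.IsHomogeneous d) (hh : h.IsHomogeneous d)
    (hP : P.IsHomogeneous (d - 1))
    (hz : ∀ x : Fin 3 → ℂ, eval x f = 0 → eval x g = 0 → eval x h = 0 → x = 0)
    (hmon : eval ![1, 0, 0] f = 1)
    (hmem : h ^ 2 * P ∈ Ideal.span {f, g}) : P = 0 := by
  have hrp := am_relprime d hd f g h hf hh hz hmon
  have hFG : ∀ B : Polynomial (MvPolynomial (Fin 2) ℂ),
      finSuccEquiv ℂ 2 f ∣ B * finSuccEquiv ℂ 2 g → finSuccEquiv ℂ 2 f ∣ B := by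
    intro B hB
    obtain ⟨B', rfl⟩ := (finSuccEquiv ℂ 2).surjective B
    rw [← map_mul, map_dvd_iff] at hB
    rw [map_dvd_iff]
    exact hrp.dvd_of_dvd_mul_right hB
  obtain ⟨N1, hN1⟩ := nullst f g h hz 1
  obtain ⟨N2, hN2⟩ := nullst f g h hz 2
  obtain ⟨a1, b1, h1⟩ := am_mem hN1 hmem
  obtain ⟨a2, b2, h2⟩ := am_mem hN2 hmem
  have h1' := congrArg (finSuccEquiv ℂ 2) h1
  have h2' := congrArg (finSuccEquiv ℂ 2) h2
  rw [← pow_mul, map_mul, map_pow, am_X1, ← map_pow, map_add, map_mul, map_mul] at h1'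
  rw [← pow_mul, map_mul, map_pow, am_X2, ← map_pow, map_add, map_mul, map_mul] at h2'
  obtain ⟨a, b, hab⟩ := sat_lemma ((X 0 : MvPolynomial (Fin 2) ℂ) ^ (N1 * 2)) (X 1 ^ (N2 * 2))
    (pow_ne_zero _ (X_ne_zero 0)) (am_coprime _ _) _ _ _ (am_monic hf hmon) hFG _ _ _ _ h1' h2'
  have hab' := congrArg (finSuccEquiv ℂ 2).symm hab
  rw [map_add, map_mul, map_mul, AlgEquiv.symm_apply_apply, AlgEquiv.symm_apply_apply,
    AlgEquiv.symm_apply_apply] at hab'
  ext m
  rw [coeff_zero]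
  by_cases hm : m.degree = d - 1
  · rw [hab', coeff_add, am_mul_coeff hf _ m (by omega), am_mul_coeff hg _ m (by omega), add_zero]
  · exact hP.coeff_eq_zero hm

end PL
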