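import Pool.Agent.Helper353.PL.Defs
import Pool.Agent.Helper353.PL.P_alg_mono

set_option autoImplicit false

open MvPolynomial

namespace PL



/-- linear substitution by a linear map -/
noncomputable def amS (A : (Fin 3 → ℂ) →ₗ[ℂ] (Fin 3 → ℂ)) :
    MvPolynomial (Fin 3) ℂ →ₐ[ℂ] MvPolynomial (Fin 3) ℂ :=
  aeval (fun i => ∑ j, C (A (Pi.single j 1) i) * X j)

theorem amS_eval (A : (Fin 3 → ℂ) →ₗ[ℂ] (Fin 3 → ℂ)) (y : Fin 3 → ℂ)
    (f : MvPolynomial (Fin 3) ℂ) : eval y (amS A f) = eval (A y) f := by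
  have hA : ∀ i, eval y (∑ j, C (A (Pi.single j 1) i) * X j) = A y i := by
    intro i
    rw [map_sum]
    simp only [map_mul, eval_C, eval_X]
    have h1 : y = ∑ j, y j • (Pi.single j (1 : ℂ) : Fin 3 → ℂ) := by
      ext k
      simp [Finset.sum_apply, Pi.single_apply]
    conv_rhs => rw [h1, map_sum]
    rw [Finset.sum_apply]
    refine Finset.sum_congr rfl fun j _ => ?_
    rw [map_smul, Pi.smul_apply, smul_eq_mul, mul_comm]
  induction f using MvPolynomial.induction_on with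
  | C a => simp [amS]
  | add p q hp hq => rw [map_add, map_add, map_add, hp, hq]
  | mul_X p i hp =>
    rw [map_mul, map_mul, map_mul, hp, eval_X]
    congr 1
    unfold amS
    rw [aeval_X]
    exact hA i

theorem amS_hom (A : (Fin 3 → ℂ) →ₗ[ℂ] (Fin 3 → ℂ)) (f : MvPolynomial (Fin 3) ℂ) (d : ℕ)
    (hf : f.IsHomogeneous d) : (amS A f).IsHomogeneous d := by
  have h1 : ∀ i : Fin 3, (∑ j, C (A (Pi.single j 1) i) * X j :
      MvPolynomial (Fin 3) ℂ).IsHomogeneous 1 := by
    intro i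
    refine IsHomogeneous.sum _ _ _ fun j _ => ?_
    exact (isHomogeneous_X ℂ j).C_mul _
  have h2 := hf.aeval _ h1
  rw [one_mul] at h2
  exact h2

theorem am_eval_zero (d : ℕ) (hd : 1 ≤ d) (f : MvPolynomial (Fin 3) ℂ) (hf : f.IsHomogeneous d) :
    eval 0 f = 0 := by
  have h1 : eval (0 : Fin 3 → ℂ) f = coeff 0 f := by
    rw [eval_zero]
    rfl
  rw [h1]
  refine hf.coeff_eq_zero ?_
  rw [map_zero]
  omega

theorem am_aux (d : ℕ) (hd : 1 ≤ d) (f g h P : MvPolynomial (Fin 3) ℂ)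
    (hf : f.IsHomogeneous d) (hg : g.IsHomogeneous d) (hh : h.IsHomogeneous d)
    (hP : P.IsHomogeneous (d - 1))
    (hz : ∀ x : Fin 3 → ℂ, eval x f = 0 → eval x g = 0 → eval x h = 0 → x = 0)
    (hmem : h ^ 2 * P ∈ Ideal.span {f, g}) (hf0 : f ≠ 0) : P = 0 := by
  obtain ⟨v, hv⟩ : ∃ v, eval v f ≠ 0 := by
    by_contra hcon
    push Not at hcon
    exact hf0 (MvPolynomial.funext fun x => by rw [hcon x, map_zero])
  have hv0 : v ≠ 0 := by
    rintro rfl
    exact hv (am_eval_zero d hd f hf)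
  have he0 : (Pi.single 0 1 : Fin 3 → ℂ) ≠ 0 := by
    intro h
    have := congrFun h 0
    simp at this
  obtain ⟨A, hA⟩ := SeparatingDual.exists_continuousLinearEquiv_apply_eq (R := ℂ) he0 hv0
  set B : (Fin 3 → ℂ) →ₗ[ℂ] (Fin 3 → ℂ) :=
    ((A : (Fin 3 → ℂ) →L[ℂ] (Fin 3 → ℂ)) : (Fin 3 → ℂ) →ₗ[ℂ] (Fin 3 → ℂ)) with hB
  have hBA : ∀ y, B y = A y := fun y => rfl
  have hc : eval v f ≠ 0 := hv
  have hlow : amS B P = 0 := by
    refine alg_mono d hd (C (eval v f)⁻¹ * amS B f) (amS B g) (amS B h) (amS B P)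
      ((amS_hom B f d hf).C_mul _) (amS_hom B g d hg) (amS_hom B h d hh) (amS_hom B P _ hP)
      ?_ ?_ ?_
    · intro x h1 h2 h3
      rw [map_mul, eval_C, mul_eq_zero, amS_eval] at h1
      rw [amS_eval] at h2 h3
      have h4 := hz (B x) (h1.resolve_left (inv_ne_zero hc)) h2 h3
      rw [hBA] at h4
      exact (map_eq_zero_iff A A.injective).1 h4
    · have e1 : (![1, 0, 0] : Fin 3 → ℂ) = Pi.single 0 1 := by
        ext i
        fin_cases i <;> simp
      rw [map_mul, eval_C, amS_eval, e1, hBA, hA, inv_mul_cancel₀ hc]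
    · rw [Ideal.mem_span_pair] at hmem ⊢
      obtain ⟨a, b, hab⟩ := hmem
      refine ⟨amS B a * C (eval v f), amS B b, ?_⟩
      have e3 : amS B h ^ 2 * amS B P = amS B a * amS B f + amS B b * amS B g := by
        have := congrArg (amS B) hab
        rw [map_add, map_mul, map_mul, map_mul, map_pow] at this
        exact this.symm
      rw [e3]
      have e2 : (C (eval v f) : MvPolynomial (Fin 3) ℂ) * C (eval v f)⁻¹ = 1 := by
        rw [← C_mul, mul_inv_cancel₀ hc, C_1]
      calc amS B a * C (eval v f) * (C (eval v f)⁻¹ * amS B f) + amS B b * amS B g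
          = (C (eval v f) * C (eval v f)⁻¹) * (amS B a * amS B f) + amS B b * amS B g := by ring
        _ = amS B a * amS B f + amS B b * amS B g := by rw [e2, one_mul]
  refine MvPolynomial.funext fun x => ?_
  have h5 : eval (A.symm x) (amS B P) = 0 := by rw [hlow, map_zero]
  rw [amS_eval, hBA, A.apply_symm_apply] at h5
  rw [h5, map_zero]

/-- the ideal-theoretic step -/
theorem alg_main (d : ℕ) (hd : 1 ≤ d) (f g h P : MvPolynomial (Fin 3) ℂ)
    (hf : f.IsHomogeneous d) (hg : g.IsHomogeneous d) (hh : h.IsHomogeneous d)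
    (hP : P.IsHomogeneous (d - 1))
    (hz : ∀ x : Fin 3 → ℂ, eval x f = 0 → eval x g = 0 → eval x h = 0 → x = 0)
    (hmem : h ^ 2 * P ∈ Ideal.span {f, g}) : P = 0 := by
  by_cases hf0 : f = 0
  · by_cases hg0 : g = 0
    · subst hf0 hg0
      have h0 : h ≠ 0 := by
        rintro rfl
        have := hz (fun _ => 1) (map_zero _) (map_zero _) (map_zero _)
        have := congrFun this 0
        simp at this
      rw [Set.pair_eq_singleton, Ideal.span_singleton_eq_bot.2 rfl, Ideal.mem_bot] at hmem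
      exact (mul_eq_zero.1 hmem).resolve_left (pow_ne_zero 2 h0)
    · exact am_aux d hd g f h P hg hf hh hP (fun x h1 h2 h3 => hz x h2 h1 h3)
        (by rw [Set.pair_comm]; exact hmem) hg0
  · exact am_aux d hd f g h P hf hg hh hP hz hmem hf0

end PL
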