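import Pool.Agent.Helper353.PL.Defs

set_option autoImplicit false

open MvPolynomial

namespace PL



/-- from the real identity at all points to the complex polynomial identity -/
theorem complexify (p : ℝ) (u : MvPolynomial (Fin 3) ℝ)
    (h : ∀ x : Fin 3 → ℝ,
          (∑ i, (MvPolynomial.eval x (MvPolynomial.pderiv i u)) ^ 2) *
              (∑ i, MvPolynomial.eval x (MvPolynomial.pderiv i (MvPolynomial.pderiv i u))) +
            (p - 2) * ∑ i, ∑ j,
              MvPolynomial.eval x (MvPolynomial.pderiv i u) *
                MvPolynomial.eval x (MvPolynomial.pderiv j u) *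
                MvPolynomial.eval x (MvPolynomial.pderiv i (MvPolynomial.pderiv j u)) = 0) :
    PE (((p - 1 : ℝ)) : ℂ) (map (algebraMap ℝ ℂ) u) = 0 := by
  have hR : (∑ i, (pderiv i u) ^ 2) * (∑ i, pderiv i (pderiv i u)) +
      C (p - 2) * ∑ i, ∑ j, pderiv i u * pderiv j u * pderiv i (pderiv j u)
      = (0 : MvPolynomial (Fin 3) ℝ) := by
    apply MvPolynomial.funext
    intro x
    have := h x
    simp only [map_add, map_mul, map_sum, map_pow, eval_C, map_zero]
    exact this
  have h2 := congrArg (map (algebraMap ℝ ℂ)) hR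
  simp only [map_add, map_mul, map_sum, map_pow, map_C, map_zero, ← pderiv_map] at h2
  unfold PE
  have h3 : (((p - 1 : ℝ)) : ℂ) - 1 = (algebraMap ℝ ℂ) (p - 2) := by
    simp only [Complex.coe_algebraMap]
    push_cast
    ring
  rw [h3]
  exact h2

end PL
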