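import Pool.Agent.Helper353.PL.Defs

set_option autoImplicit false

open MvPolynomial

namespace PL



theorem conj_eval (u : MvPolynomial (Fin 3) ℝ) (x : Fin 3 → ℂ) :
    eval (fun i => (starRingEnd ℂ) (x i)) (map (algebraMap ℝ ℂ) u)
      = (starRingEnd ℂ) (eval x (map (algebraMap ℝ ℂ) u)) := by
  induction u using MvPolynomial.induction_on with
  | C a => simp
  | add p q hp hq => simp only [map_add, hp, hq]
  | mul_X p i hp => simp only [map_mul, hp, map_X, eval_X]

end PL
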