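import Pool.Agent.Helper353.PL.Defs

set_option autoImplicit false

open MvPolynomial

namespace PL



theorem eval_pd787 (U : MvPolynomial (Fin 3) ℂ) (i : Fin 3) :
    eval ![1, 0, 0] (pderiv i U) = ∑ d ∈ U.support,
      (U.coeff d * (d i : ℂ)) * ((0:ℂ) ^ ((d - Finsupp.single i 1 : Fin 3 →₀ ℕ) 1) *
        0 ^ ((d - Finsupp.single i 1 : Fin 3 →₀ ℕ) 2)) := by
  conv_lhs => rw [← support_sum_monomial_coeff U]
  rw [map_sum, map_sum]
  refine Finset.sum_congr rfl fun d _ => ?_
  rw [pderiv_monomial, eval_monomial, Finsupp.prod_fintype _ _ (fun _ => pow_zero _),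
    Fin.prod_univ_three]
  simp

/-- criticality at `(1,0,0)` in terms of monomials -/
theorem crit_iso (m : ℕ) (hm : 2 ≤ m) (U : MvPolynomial (Fin 3) ℂ) (hU : U.IsHomogeneous m)
    (h : ∀ i, eval ![1, 0, 0] (pderiv i U) = 0) : ∀ d ∈ U.support, 2 ≤ 2 * d 1 + d 2 := by
  have hdeg : ∀ d ∈ U.support, d 0 + d 1 + d 2 = m := by
    intro d hd
    have := hU (mem_support_iff.1 hd)
    simpa [Finsupp.weight_apply, Finsupp.sum_fintype, Fin.sum_univ_three] using this
  have hext : ∀ d d' : Fin 3 →₀ ℕ, d 0 = d' 0 → d 1 = d' 1 → d 2 = d' 2 → d = d' := by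
    intro d d' h0 h1 h2
    ext i
    fin_cases i
    · exact h0
    · exact h1
    · exact h2
  intro d0 hd0
  by_contra hcon
  push Not at hcon
  have h1 : d0 1 = 0 := by omega
  have hm0 := hdeg d0 hd0
  have hc := mem_support_iff.1 hd0
  rcases Nat.eq_zero_or_pos (d0 2) with h2 | h2
  · have h3 := h 0
    rw [eval_pd787, Finset.sum_eq_single d0] at h3
    · rw [Finsupp.tsub_apply, Finsupp.tsub_apply, h1, h2, Nat.zero_sub, Nat.zero_sub, pow_zero,
        mul_one, mul_one] at h3
      have h4 : (d0 0 : ℂ) ≠ 0 := by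
        have : d0 0 ≠ 0 := by omega
        exact_mod_cast this
      exact (mul_ne_zero hc h4) h3
    · intro d hd hne
      have h5 := hdeg d hd
      have e1 : (d - Finsupp.single (0 : Fin 3) 1 : Fin 3 →₀ ℕ) 1 = d 1 := by
        rw [Finsupp.tsub_apply, Finsupp.single_eq_of_ne (by decide), Nat.sub_zero]
      have e2 : (d - Finsupp.single (0 : Fin 3) 1 : Fin 3 →₀ ℕ) 2 = d 2 := by
        rw [Finsupp.tsub_apply, Finsupp.single_eq_of_ne (by decide), Nat.sub_zero]
      rw [e1, e2]
      by_cases h6 : d 1 = 0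
      · have h7 : d 2 ≠ 0 := fun h8 => hne (hext d d0 (by omega) (by omega) (by omega))
        rw [zero_pow h7, mul_zero, mul_zero]
      · rw [zero_pow h6, zero_mul, mul_zero]
    · intro hn
      exact absurd hd0 hn
  · have h2' : d0 2 = 1 := by omega
    have h3 := h 2
    rw [eval_pd787, Finset.sum_eq_single d0] at h3
    · rw [Finsupp.tsub_apply, Finsupp.tsub_apply, h1, h2', Finsupp.single_eq_same, Nat.zero_sub,
        Nat.sub_self, pow_zero, mul_one, mul_one, Nat.cast_one, mul_one] at h3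
      exact hc h3
    · intro d hd hne
      have h5 := hdeg d hd
      have e1 : (d - Finsupp.single (2 : Fin 3) 1 : Fin 3 →₀ ℕ) 1 = d 1 := by
        rw [Finsupp.tsub_apply, Finsupp.single_eq_of_ne (by decide), Nat.sub_zero]
      have e2 : (d - Finsupp.single (2 : Fin 3) 1 : Fin 3 →₀ ℕ) 2 = d 2 - 1 := by
        rw [Finsupp.tsub_apply, Finsupp.single_eq_same]
      rw [e1, e2]
      by_cases h6 : d 1 = 0
      · rcases Nat.eq_zero_or_pos (d 2) with h7 | h7
        · rw [h7, Nat.cast_zero, mul_zero, zero_mul]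
        · have h8 : d 2 - 1 ≠ 0 := fun h9 => hne (hext d d0 (by omega) (by omega) (by omega))
          rw [zero_pow h8, mul_zero, mul_zero]
      · rw [zero_pow h6, zero_mul, mul_zero]
    · intro hn
      exact absurd hd0 hn

end PL
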