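import Pool.Agent.Helper353.PL.Defs

set_option autoImplicit false

open MvPolynomial

namespace PL

theorem eval_pd_non (U : MvPolynomial (Fin 3) ℂ) (i : Fin 3) :
    eval ![0, 0, 1] (pderiv i U) = ∑ d ∈ U.support,
      (U.coeff d * (d i : ℂ)) * ((0:ℂ) ^ ((d - Finsupp.single i 1 : Fin 3 →₀ ℕ) 0) *
        0 ^ ((d - Finsupp.single i 1 : Fin 3 →₀ ℕ) 1)) := by
  conv_lhs => rw [← support_sum_monomial_coeff U]
  rw [map_sum, map_sum]
  refine Finset.sum_congr rfl fun d _ => ?_
  rw [pderiv_monomial, eval_monomial, Finsupp.prod_fintype _ _ (fun _ => pow_zero _),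
    Fin.prod_univ_three]
  simp

/-- criticality at `(0,0,1)` in terms of monomials -/
theorem crit_non (m : ℕ) (hm : 2 ≤ m) (U : MvPolynomial (Fin 3) ℂ) (hU : U.IsHomogeneous m)
    (h : ∀ i, eval ![0, 0, 1] (pderiv i U) = 0) : ∀ d ∈ U.support, 2 ≤ d 0 + d 1 := by
  have hdeg : ∀ d ∈ U.support, d 0 + d 1 + d 2 = m := by
    intro d hd
    have := hU (mem_support_iff.1 hd)
    simpa [Finsupp.weight_apply, Finsupp.sum_fintype, Fin.sum_univ_three] using this
  have hext : ∀ d d' : Fin 3 →₀ ℕ, d 0 = d' 0 → d 1 = d' 1 → d 2 = d' 2 → d = d' := by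
    intro d d' h0 h1 h2
    ext i
    fin_cases i
    · exact h0
    · exact h1
    · exact h2
  intro d0 hd0
  by_contra hcon
  push Not at hcon
  have hm0 := hdeg d0 hd0
  have hc := mem_support_iff.1 hd0
  -- choose the direction
  have key : ∃ i : Fin 3, d0 i ≠ 0 ∧ (d0 - Finsupp.single i 1 : Fin 3 →₀ ℕ) 0 = 0 ∧
      (d0 - Finsupp.single i 1 : Fin 3 →₀ ℕ) 1 = 0 ∧
      (∀ j : Fin 3, j ≠ 2 → (d0 - Finsupp.single i 1 : Fin 3 →₀ ℕ) j = 0) := by
    rcases Nat.eq_zero_or_pos (d0 0) with h0 | h0
    · rcases Nat.eq_zero_or_pos (d0 1) with h1 | h1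
      · refine ⟨2, by omega, ?_, ?_, ?_⟩
        · rw [Finsupp.tsub_apply]; omega
        · rw [Finsupp.tsub_apply]; omega
        · intro j hj
          rw [Finsupp.tsub_apply]
          fin_cases j
          · show d0 0 - _ = 0
            omega
          · show d0 1 - _ = 0
            omega
          · exact absurd rfl hj
      · refine ⟨1, by omega, ?_, ?_, ?_⟩
        · rw [Finsupp.tsub_apply]; omega
        · rw [Finsupp.tsub_apply, Finsupp.single_eq_same]; omega
        · intro j hj
          rw [Finsupp.tsub_apply]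
          fin_cases j
          · show d0 0 - _ = 0
            omega
          · show d0 1 - (Finsupp.single (1 : Fin 3) 1) 1 = 0
            rw [Finsupp.single_eq_same]; omega
          · exact absurd rfl hj
    · refine ⟨0, by omega, ?_, ?_, ?_⟩
      · rw [Finsupp.tsub_apply, Finsupp.single_eq_same]; omega
      · rw [Finsupp.tsub_apply]; omega
      · intro j hj
        rw [Finsupp.tsub_apply]
        fin_cases j
        · show d0 0 - (Finsupp.single (0 : Fin 3) 1) 0 = 0
          rw [Finsupp.single_eq_same]; omega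
        · show d0 1 - _ = 0
          omega
        · exact absurd rfl hj
  obtain ⟨i, hi, hi0, hi1, -⟩ := key
  have h3 := h i
  rw [eval_pd_non, Finset.sum_eq_single d0] at h3
  · rw [hi0, hi1, pow_zero, mul_one, mul_one] at h3
    have h4 : (d0 i : ℂ) ≠ 0 := by exact_mod_cast hi
    exact (mul_ne_zero hc h4) h3
  · intro d hd hne
    have h5 := hdeg d hd
    by_cases hdi : d i = 0
    · rw [hdi, Nat.cast_zero, mul_zero, zero_mul]
    by_cases h6 : (d - Finsupp.single i 1 : Fin 3 →₀ ℕ) 0 = 0
    · by_cases h7 : (d - Finsupp.single i 1 : Fin 3 →₀ ℕ) 1 = 0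
      · exfalso
        apply hne
        rw [Finsupp.tsub_apply] at h6 h7 hi0 hi1
        fin_cases i
        · rw [show ((⟨0, by decide⟩ : Fin 3)) = 0 from rfl] at *
          rw [Finsupp.single_eq_same] at h6 hi0
          rw [Finsupp.single_eq_of_ne (by decide)] at h7 hi1
          exact hext d d0 (by simp at hdi hi; omega) (by omega) (by simp at hdi hi; omega)
        · rw [show ((⟨1, by decide⟩ : Fin 3)) = 1 from rfl] at *
          rw [Finsupp.single_eq_same] at h7 hi1
          rw [Finsupp.single_eq_of_ne (by decide)] at h6 hi0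
          exact hext d d0 (by omega) (by simp at hdi hi; omega) (by simp at hdi hi; omega)
        · rw [show ((⟨2, by decide⟩ : Fin 3)) = 2 from rfl] at *
          rw [Finsupp.single_eq_of_ne (by decide)] at h6 hi0 h7 hi1
          exact hext d d0 (by omega) (by omega) (by omega)
      · rw [zero_pow h7, mul_zero, mul_zero]
    · rw [zero_pow h6, zero_mul, mul_zero]
  · intro hn
    exact absurd hd0 hn

end PL
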