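import Pool.Agent.Helper353.PL.Defs

set_option autoImplicit false

open MvPolynomial

namespace PL



/-- if every monomial contains `X i` then the polynomial vanishes on `y i = 0` -/
theorem eval_zero_of (U : MvPolynomial (Fin 3) ℂ) (i : Fin 3) (h : ∀ d ∈ U.support, d i ≠ 0)
    (y : Fin 3 → ℂ) (hy : y i = 0) : eval y U = 0 := by
  rw [MvPolynomial.eval_eq']
  refine Finset.sum_eq_zero fun d hd => ?_
  rw [Finset.prod_eq_zero (Finset.mem_univ i) (by rw [hy, zero_pow (h d hd)]), mul_zero]

end PL
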