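import Pool.Agent.Helper353.PL.Defs

set_option autoImplicit false

open MvPolynomial

namespace PL



theorem frame_cols (E : Fin 3 → Fin 3 → ℂ) (hE : Frame E) :
    (∑ i, E i 0 * E i 0 = 0) ∧ (∑ i, E i 1 * E i 1 = 0) ∧ (∑ i, E i 2 * E i 2 = 1) ∧
    (∑ i, E i 0 * E i 1 = 1) ∧ (∑ i, E i 0 * E i 2 = 0) ∧ (∑ i, E i 1 * E i 2 = 0) := by
  obtain ⟨M, hM⟩ : ∃ M : Matrix (Fin 3) (Fin 3) ℂ, M = Matrix.of E := ⟨_, rfl⟩
  obtain ⟨J, hJ⟩ : ∃ J : Matrix (Fin 3) (Fin 3) ℂ, J = !![0, 1, 0; 1, 0, 0; 0, 0, 1] := ⟨_, rfl⟩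
  have hMJ : M * (J * M.transpose) = 1 := by
    ext i k
    rw [Matrix.mul_apply, Fin.sum_univ_three, Matrix.mul_apply, Matrix.mul_apply, Matrix.mul_apply,
      Fin.sum_univ_three, Fin.sum_univ_three, Fin.sum_univ_three, Matrix.one_apply, ← hE i k, hM, hJ]
    simp [Matrix.transpose_apply]
  have hJJ : J * J = 1 := by
    rw [hJ]
    ext i k
    fin_cases i <;> fin_cases k <;> simp [Matrix.mul_apply, Fin.sum_univ_three]
  have h2 : (J * M.transpose) * M = 1 := mul_eq_one_comm.mp hMJ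
  have h3 : M.transpose * M = J := by
    have h4 : J * ((J * M.transpose) * M) = J := by rw [h2, Matrix.mul_one]
    rw [Matrix.mul_assoc, ← Matrix.mul_assoc, hJJ, Matrix.one_mul] at h4
    exact h4
  have h5 : ∀ a b, ∑ i, E i a * E i b = J a b := by
    intro a b
    rw [← h3, Matrix.mul_apply, hM]
    rfl
  rw [h5, h5, h5, h5, h5, h5, hJ]
  simp

end PL
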