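import Pool.Agent.Helper353.PL.Defs

set_option autoImplicit false

open MvPolynomial

namespace PL



theorem frame_expand (E : Fin 3 → Fin 3 → ℂ) (hE : Frame E) (x : Fin 3 → ℂ) (i : Fin 3) :
    x i = (∑ k, x k * E k 1) * E i 0 + (∑ k, x k * E k 0) * E i 1 + (∑ k, x k * E k 2) * E i 2 := by
  rw [Finset.sum_mul, Finset.sum_mul, Finset.sum_mul, ← Finset.sum_add_distrib, ← Finset.sum_add_distrib]
  have h : ∀ k, x k * E k 1 * E i 0 + x k * E k 0 * E i 1 + x k * E k 2 * E i 2 = if i = k then x k else 0 := by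
    intro k
    have h1 := hE i k
    have h2 : x k * E k 1 * E i 0 + x k * E k 0 * E i 1 + x k * E k 2 * E i 2
        = x k * (E i 0 * E k 1 + E i 1 * E k 0 + E i 2 * E k 2) := by ring
    rw [h2, h1]
    split_ifs <;> simp
  rw [Finset.sum_congr rfl (fun k _ => h k)]
  simp

end PL
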