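import Pool.Agent.Helper353.PL.Defs

set_option autoImplicit false

open MvPolynomial

namespace PL



theorem frame_real_18724 (x y n : Fin 3 → ℝ) (s : ℝ)
    (n0 : n 0 = x 1 * y 2 - x 2 * y 1) (n1 : n 1 = x 2 * y 0 - x 0 * y 2)
    (n2 : n 2 = x 0 * y 1 - x 1 * y 0)
    (h1 : x 0 ^ 2 + x 1 ^ 2 + x 2 ^ 2 = s) (h2 : y 0 ^ 2 + y 1 ^ 2 + y 2 ^ 2 = s)
    (h3 : x 0 * y 0 + x 1 * y 1 + x 2 * y 2 = 0) (i k : Fin 3) :
    s * (x i * x k + y i * y k) + n i * n k = if i = k then s ^ 2 else 0 := by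
  have d0 : s * (x 0 * x 0 + y 0 * y 0) + n 0 * n 0 = s ^ 2 := by
    rw [n0]
    linear_combination (y 1 ^ 2 + y 2 ^ 2) * h1 + (s - x 0 ^ 2) * h2 -
      (x 1 * y 1 + x 2 * y 2 - x 0 * y 0) * h3
  have d1 : s * (x 1 * x 1 + y 1 * y 1) + n 1 * n 1 = s ^ 2 := by
    rw [n1]
    linear_combination (y 0 ^ 2 + y 2 ^ 2) * h1 + (s - x 1 ^ 2) * h2 -
      (x 0 * y 0 + x 2 * y 2 - x 1 * y 1) * h3
  have d2 : s * (x 2 * x 2 + y 2 * y 2) + n 2 * n 2 = s ^ 2 := by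
    rw [n2]
    linear_combination (y 0 ^ 2 + y 1 ^ 2) * h1 + (s - x 2 ^ 2) * h2 -
      (x 0 * y 0 + x 1 * y 1 - x 2 * y 2) * h3
  have o01 : s * (x 0 * x 1 + y 0 * y 1) + n 0 * n 1 = 0 := by
    rw [n0, n1]
    linear_combination (x 1 * y 0 + x 0 * y 1) * h3 - x 0 * x 1 * h2 - y 0 * y 1 * h1
  have o02 : s * (x 0 * x 2 + y 0 * y 2) + n 0 * n 2 = 0 := by
    rw [n0, n2]
    linear_combination (x 2 * y 0 + x 0 * y 2) * h3 - x 0 * x 2 * h2 - y 0 * y 2 * h1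
  have o12 : s * (x 1 * x 2 + y 1 * y 2) + n 1 * n 2 = 0 := by
    rw [n1, n2]
    linear_combination (x 2 * y 1 + x 1 * y 2) * h3 - x 1 * x 2 * h2 - y 1 * y 2 * h1
  fin_cases i <;> fin_cases k
  · simpa using d0
  · simpa using o01
  · simpa using o02
  · have : s * (x 1 * x 0 + y 1 * y 0) + n 1 * n 0 = 0 := by linarith
    simpa using this
  · simpa using d1
  · simpa using o12
  · have : s * (x 2 * x 0 + y 2 * y 0) + n 2 * n 0 = 0 := by linarith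
    simpa using this
  · have : s * (x 2 * x 1 + y 2 * y 1) + n 2 * n 1 = 0 := by linarith
    simpa using this
  · simpa using d2

theorem frame_iso (ν : Fin 3 → ℂ) (h0 : ν ≠ 0) (hiso : ∑ i, ν i ^ 2 = 0) :
    ∃ E, Frame E ∧ (∀ i, E i 0 = ν i) ∧
      ∃ r : ℝ, 0 < r ∧ ∀ i, E i 1 = r * (starRingEnd ℂ) (ν i) := by
  rw [Fin.sum_univ_three] at hiso
  have hre := congrArg Complex.re hiso
  have him := congrArg Complex.im hiso
  simp only [Complex.add_re, Complex.add_im, sq, Complex.mul_re, Complex.mul_im, Complex.zero_re,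
    Complex.zero_im] at hre him
  set x : Fin 3 → ℝ := fun i => (ν i).re with hx
  set y : Fin 3 → ℝ := fun i => (ν i).im with hy
  set n : Fin 3 → ℝ := ![x 1 * y 2 - x 2 * y 1, x 2 * y 0 - x 0 * y 2, x 0 * y 1 - x 1 * y 0] with hn
  set s : ℝ := x 0 ^ 2 + x 1 ^ 2 + x 2 ^ 2 with hs
  have h2 : y 0 ^ 2 + y 1 ^ 2 + y 2 ^ 2 = s := by
    rw [hs]
    show (ν 0).im ^ 2 + (ν 1).im ^ 2 + (ν 2).im ^ 2 = (ν 0).re ^ 2 + (ν 1).re ^ 2 + (ν 2).re ^ 2
    linarith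
  have h3 : x 0 * y 0 + x 1 * y 1 + x 2 * y 2 = 0 := by
    show (ν 0).re * (ν 0).im + (ν 1).re * (ν 1).im + (ν 2).re * (ν 2).im = 0
    linarith
  have hspos : 0 < s := by
    rcases (show 0 ≤ s by positivity).lt_or_eq with h | h
    · exact h
    · exfalso
      apply h0
      have e0 : x 0 = 0 := by nlinarith [sq_nonneg (x 0), sq_nonneg (x 1), sq_nonneg (x 2)]
      have e1 : x 1 = 0 := by nlinarith [sq_nonneg (x 0), sq_nonneg (x 1), sq_nonneg (x 2)]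
      have e2 : x 2 = 0 := by nlinarith [sq_nonneg (x 0), sq_nonneg (x 1), sq_nonneg (x 2)]
      have f0 : y 0 = 0 := by nlinarith [sq_nonneg (y 0), sq_nonneg (y 1), sq_nonneg (y 2)]
      have f1 : y 1 = 0 := by nlinarith [sq_nonneg (y 0), sq_nonneg (y 1), sq_nonneg (y 2)]
      have f2 : y 2 = 0 := by nlinarith [sq_nonneg (y 0), sq_nonneg (y 1), sq_nonneg (y 2)]
      funext i
      fin_cases i
      · exact Complex.ext e0 f0
      · exact Complex.ext e1 f1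
      · exact Complex.ext e2 f2
  have key := frame_real_18724 x y n s rfl rfl rfl rfl h2 h3
  refine ⟨fun i => ![ν i, (((1 / (2 * s) : ℝ)) : ℂ) * (starRingEnd ℂ) (ν i), ((n i / s : ℝ) : ℂ)],
    ?_, fun i => rfl, 1 / (2 * s), by positivity, fun i => rfl⟩
  intro i k
  have hk := key i k
  show ν i * ((((1 / (2 * s) : ℝ)) : ℂ) * (starRingEnd ℂ) (ν k)) +
    ((((1 / (2 * s) : ℝ)) : ℂ) * (starRingEnd ℂ) (ν i)) * ν k + ((n i / s : ℝ) : ℂ) * ((n k / s : ℝ) : ℂ)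
    = if i = k then 1 else 0
  have hsum : ν i * ((((1 / (2 * s) : ℝ)) : ℂ) * (starRingEnd ℂ) (ν k)) +
    ((((1 / (2 * s) : ℝ)) : ℂ) * (starRingEnd ℂ) (ν i)) * ν k + ((n i / s : ℝ) : ℂ) * ((n k / s : ℝ) : ℂ)
    = (((s * (x i * x k + y i * y k) + n i * n k) / s ^ 2 : ℝ) : ℂ) := by
    have hνi : ν i = (x i : ℂ) + (y i : ℂ) * Complex.I := (Complex.re_add_im (ν i)).symm
    have hνk : ν k = (x k : ℂ) + (y k : ℂ) * Complex.I := (Complex.re_add_im (ν k)).symm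
    have hs0 : (s : ℂ) ≠ 0 := by exact_mod_cast hspos.ne'
    rw [hνi, hνk]
    simp only [map_add, map_mul, Complex.conj_ofReal, Complex.conj_I]
    push_cast
    field_simp
    linear_combination (-(2 : ℂ) * (y i : ℂ) * (y k : ℂ) * s) * Complex.I_sq
  rw [hsum, hk]
  split_ifs
  · rw [div_self (by positivity)]
    simp
  · simp

end PL
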