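import Pool.Agent.Helper353.PL.Defs

set_option autoImplicit false

open MvPolynomial

namespace PL



theorem frame_non_scale (a b c x y z : ℂ) (h : x ^ 2 + y ^ 2 + z ^ 2 ≠ 0)
    (ho : x * a + y * b + z * c = 0) :
    ∃ p q r : ℂ, p ^ 2 + q ^ 2 + r ^ 2 = 1 ∧ p * a + q * b + r * c = 0 := by
  obtain ⟨s, hs⟩ := IsAlgClosed.exists_pow_nat_eq ((x ^ 2 + y ^ 2 + z ^ 2)⁻¹) (show 0 < 2 by norm_num)
  refine ⟨s * x, s * y, s * z, ?_, ?_⟩
  · have e : (s * x) ^ 2 + (s * y) ^ 2 + (s * z) ^ 2 = s ^ 2 * (x ^ 2 + y ^ 2 + z ^ 2) := by ring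
    rw [e, hs, inv_mul_cancel₀ h]
  · linear_combination s * ho

theorem frame_non_exv (a b c : ℂ) (h : a ^ 2 + b ^ 2 + c ^ 2 = 1) :
    ∃ p q r : ℂ, p ^ 2 + q ^ 2 + r ^ 2 = 1 ∧ p * a + q * b + r * c = 0 := by
  by_cases h1 : (0 : ℂ) ^ 2 + c ^ 2 + (-b) ^ 2 = 0
  · by_cases h2 : c ^ 2 + (0 : ℂ) ^ 2 + (-a) ^ 2 = 0
    · apply frame_non_scale a b c b (-a) 0
      · intro h3
        have : (2 : ℂ) = 0 := by linear_combination (-2) * h + h1 + h2 + h3
        norm_num at this
      · ring
    · exact frame_non_scale a b c c 0 (-a) h2 (by ring)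
  · exact frame_non_scale a b c 0 c (-b) h1 (by ring)

theorem frame_non (ζ : Fin 3 → ℂ) (hζ : ∑ i, ζ i ^ 2 = 1) :
    ∃ E, Frame E ∧ (∀ i, E i 2 = ζ i) := by
  rw [Fin.sum_univ_three] at hζ
  obtain ⟨p, q, r, h1, h2⟩ := frame_non_exv (ζ 0) (ζ 1) (ζ 2) hζ
  obtain ⟨c, hc⟩ := IsAlgClosed.exists_pow_nat_eq ((1 / 2 : ℂ)) (show 0 < 2 by norm_num)
  set a := ζ 0 with ha
  set b := ζ 1 with hb
  set d := ζ 2 with hd
  let v : Fin 3 → ℂ := ![p, q, r]
  let w : Fin 3 → ℂ := ![b * r - d * q, d * p - a * r, a * q - b * p]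
  let M : Matrix (Fin 3) (Fin 3) ℂ := !![p, b * r - d * q, a; q, d * p - a * r, b;
    r, a * q - b * p, d]
  have hM : M.transpose * M = 1 := by
    ext i j
    rw [Matrix.mul_apply, Fin.sum_univ_three]
    fin_cases i <;> fin_cases j
    · show p * p + q * q + r * r = 1
      linear_combination h1
    · show p * (b * r - d * q) + q * (d * p - a * r) + r * (a * q - b * p) = 0
      ring
    · show p * a + q * b + r * d = 0
      exact h2
    · show (b * r - d * q) * p + (d * p - a * r) * q + (a * q - b * p) * r = 0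
      ring
    · show (b * r - d * q) * (b * r - d * q) + (d * p - a * r) * (d * p - a * r) +
        (a * q - b * p) * (a * q - b * p) = 1
      linear_combination (p ^ 2 + q ^ 2 + r ^ 2) * hζ + h1 - (p * a + q * b + r * d) * h2
    · show (b * r - d * q) * a + (d * p - a * r) * b + (a * q - b * p) * d = 0
      ring
    · show a * p + b * q + d * r = 0
      linear_combination h2
    · show a * (b * r - d * q) + b * (d * p - a * r) + d * (a * q - b * p) = 0
      ring
    · show a * a + b * b + d * d = 1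
      linear_combination hζ
  have hM2 : M * M.transpose = 1 := mul_eq_one_comm.1 hM
  have key : ∀ i k, v i * v k + w i * w k + ζ i * ζ k = if i = k then 1 else 0 := by
    intro i k
    have h3 := congrFun (congrFun hM2 i) k
    rw [Matrix.mul_apply, Fin.sum_univ_three, Matrix.one_apply] at h3
    rw [← h3]
    fin_cases i <;> fin_cases k <;> rfl
  refine ⟨fun i j => ![c * (v i + Complex.I * w i), c * (v i - Complex.I * w i), ζ i] j, ?_, ?_⟩
  · intro i k
    rw [← key i k]
    show c * (v i + Complex.I * w i) * (c * (v k - Complex.I * w k)) +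
      c * (v i - Complex.I * w i) * (c * (v k + Complex.I * w k)) + ζ i * ζ k
      = v i * v k + w i * w k + ζ i * ζ k
    have hI : Complex.I ^ 2 = -1 := Complex.I_sq
    linear_combination (2 * v i * v k - 2 * Complex.I ^ 2 * w i * w k) * hc - w i * w k * hI
  · intro i
    rfl

end PL
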