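import Pool.Agent.Helper353.PL.Defs

set_option autoImplicit false

open MvPolynomial

namespace PL



theorem lin_add' (E : Fin 3 → Fin 3 → ℂ) (u v : MvPolynomial (Fin 3) ℂ) :
    lin E (u + v) = lin E u + lin E v := by
  unfold lin; rw [map_add]

theorem lin_mul' (E : Fin 3 → Fin 3 → ℂ) (u v : MvPolynomial (Fin 3) ℂ) :
    lin E (u * v) = lin E u * lin E v := by
  unfold lin; rw [map_mul]

theorem lin_C' (E : Fin 3 → Fin 3 → ℂ) (a : ℂ) : lin E (C a) = C a := by
  unfold lin; rw [aeval_C]; rfl

theorem lin_zero' (E : Fin 3 → Fin 3 → ℂ) : lin E 0 = 0 := by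
  unfold lin; rw [map_zero]

theorem lin_one' (E : Fin 3 → Fin 3 → ℂ) : lin E 1 = 1 := by
  unfold lin; rw [map_one]

theorem lin_X' (E : Fin 3 → Fin 3 → ℂ) (k : Fin 3) : lin E (X k) = ∑ j, C (E k j) * X j := by
  unfold lin; rw [aeval_X]

theorem lin_pderiv (E : Fin 3 → Fin 3 → ℂ) (u : MvPolynomial (Fin 3) ℂ) (j : Fin 3) :
    pderiv j (lin E u) = ∑ i, C (E i j) * lin E (pderiv i u) := by
  induction u using MvPolynomial.induction_on with
  | C a =>
    rw [lin_C', pderiv_C]
    symm
    refine Finset.sum_eq_zero fun i _ => ?_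
    rw [pderiv_C, lin_zero', mul_zero]
  | add p q hp hq =>
    rw [lin_add', map_add, hp, hq, ← Finset.sum_add_distrib]
    refine Finset.sum_congr rfl fun i _ => ?_
    rw [map_add, lin_add', mul_add]
  | mul_X p k hp =>
    rw [lin_mul', Derivation.leibniz, hp, lin_X']
    have h1 : pderiv j (∑ l, C (E k l) * X l : MvPolynomial (Fin 3) ℂ) = C (E k j) := by
      rw [map_sum, Finset.sum_eq_single j]
      · rw [Derivation.leibniz, pderiv_C, pderiv_X_self, smul_zero, add_zero, smul_eq_mul, mul_one]
      · intro l _ hl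
        rw [Derivation.leibniz, pderiv_C, pderiv_X_of_ne hl, smul_zero, smul_zero, add_zero]
      · intro h; exact absurd (Finset.mem_univ j) h
    have h2 : ∀ i : Fin 3, C (E i j) * lin E (pderiv i (p * X k))
        = (∑ l, C (E k l) * X l) * (C (E i j) * lin E (pderiv i p)) +
          (if i = k then lin E p * C (E k j) else 0) := by
      intro i
      rw [Derivation.leibniz, smul_eq_mul, smul_eq_mul, lin_add', lin_mul', lin_mul', lin_X']
      by_cases hik : i = k
      · rw [if_pos hik, hik, pderiv_X_self, lin_one']; ring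
      · rw [if_neg hik, pderiv_X_of_ne (fun h => hik h.symm), lin_zero']; ring
    rw [h1, Finset.sum_congr rfl (fun i _ => h2 i), Finset.sum_add_distrib, ← Finset.mul_sum,
      Finset.sum_ite_eq' Finset.univ k, if_pos (Finset.mem_univ k), smul_eq_mul, smul_eq_mul]
    ring

end PL
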