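import Pool.Agent.Helper353.PL.Defs
import Pool.Agent.Helper353.PL.P_lin_pderiv

set_option autoImplicit false

open MvPolynomial

namespace PL



theorem pd_comm_18570 (i j : Fin 3) (u : MvPolynomial (Fin 3) ℂ) :
    pderiv i (pderiv j u) = pderiv j (pderiv i u) := by
  have h : ⁅(pderiv i : Derivation ℂ (MvPolynomial (Fin 3) ℂ) (MvPolynomial (Fin 3) ℂ)),
      (pderiv j : Derivation ℂ (MvPolynomial (Fin 3) ℂ) (MvPolynomial (Fin 3) ℂ))⁆ = 0 := by
    apply MvPolynomial.derivation_ext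
    intro k
    rw [Derivation.commutator_apply, pderiv_X, pderiv_X, Pi.single_apply, Pi.single_apply]
    split_ifs <;> simp
  have h2 := congrArg (fun D : Derivation ℂ (MvPolynomial (Fin 3) ℂ) (MvPolynomial (Fin 3) ℂ) => D u) h
  simp only [Derivation.commutator_apply, Derivation.coe_zero, Pi.zero_apply] at h2
  exact sub_eq_zero.1 h2

theorem alg_18570 {R : Type*} [CommRing R] (c00 c01 c02 c10 c11 c12 c20 c21 c22 v0 v1 v2
    w00 w01 w02 w11 w12 w22 κ : R)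
    (h00 : c00 * c01 + c01 * c00 + c02 * c02 = 1)
    (h01 : c00 * c11 + c01 * c10 + c02 * c12 = 0)
    (h02 : c00 * c21 + c01 * c20 + c02 * c22 = 0)
    (h11 : c10 * c11 + c11 * c10 + c12 * c12 = 1)
    (h12 : c10 * c21 + c11 * c20 + c12 * c22 = 0)
    (h22 : c20 * c21 + c21 * c20 + c22 * c22 = 1)
    (U0 U1 U2 U00 U01 U02 U11 U12 U22 : R)
    (e0 : U0 = c00 * v0 + c10 * v1 + c20 * v2)
    (e1 : U1 = c01 * v0 + c11 * v1 + c21 * v2)
    (e2 : U2 = c02 * v0 + c12 * v1 + c22 * v2)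
    (e00 : U00 = c00 * (c00 * w00 + c10 * w01 + c20 * w02) + c10 * (c00 * w01 + c10 * w11 + c20 * w12)
      + c20 * (c00 * w02 + c10 * w12 + c20 * w22))
    (e01 : U01 = c01 * (c00 * w00 + c10 * w01 + c20 * w02) + c11 * (c00 * w01 + c10 * w11 + c20 * w12)
      + c21 * (c00 * w02 + c10 * w12 + c20 * w22))
    (e02 : U02 = c02 * (c00 * w00 + c10 * w01 + c20 * w02) + c12 * (c00 * w01 + c10 * w11 + c20 * w12)
      + c22 * (c00 * w02 + c10 * w12 + c20 * w22))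
    (e11 : U11 = c01 * (c01 * w00 + c11 * w01 + c21 * w02) + c11 * (c01 * w01 + c11 * w11 + c21 * w12)
      + c21 * (c01 * w02 + c11 * w12 + c21 * w22))
    (e12 : U12 = c02 * (c01 * w00 + c11 * w01 + c21 * w02) + c12 * (c01 * w01 + c11 * w11 + c21 * w12)
      + c22 * (c01 * w02 + c11 * w12 + c21 * w22))
    (e22 : U22 = c02 * (c02 * w00 + c12 * w01 + c22 * w02) + c12 * (c02 * w01 + c12 * w11 + c22 * w12)
      + c22 * (c02 * w02 + c12 * w12 + c22 * w22)) :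
    (2 * U0 * U1 + U2 ^ 2) * (2 * U01 + U22) +
      κ * (U1 ^ 2 * U00 + U0 ^ 2 * U11 + U2 ^ 2 * U22 + 2 * U0 * U1 * U01 + 2 * U1 * U2 * U02
        + 2 * U0 * U2 * U12) =
    (v0 ^ 2 + v1 ^ 2 + v2 ^ 2) * (w00 + w11 + w22) +
      κ * (v0 * v0 * w00 + v1 * v1 * w11 + v2 * v2 * w22 + 2 * (v0 * v1 * w01) + 2 * (v0 * v2 * w02)
        + 2 * (v1 * v2 * w12)) := by
  have a0 : c00 * U1 + c01 * U0 + c02 * U2 = v0 := by
    rw [e0, e1, e2]
    linear_combination v0 * h00 + v1 * h01 + v2 * h02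
  have a1 : c10 * U1 + c11 * U0 + c12 * U2 = v1 := by
    rw [e0, e1, e2]
    linear_combination v0 * h01 + v1 * h11 + v2 * h12
  have a2 : c20 * U1 + c21 * U0 + c22 * U2 = v2 := by
    rw [e0, e1, e2]
    linear_combination v0 * h02 + v1 * h12 + v2 * h22
  have f1 : 2 * U0 * U1 + U2 ^ 2 = v0 ^ 2 + v1 ^ 2 + v2 ^ 2 := by
    rw [e0, e1, e2]
    linear_combination v0 ^ 2 * h00 + v1 ^ 2 * h11 + v2 ^ 2 * h22 + 2 * v0 * v1 * h01
      + 2 * v0 * v2 * h02 + 2 * v1 * v2 * h12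
  have f2 : 2 * U01 + U22 = w00 + w11 + w22 := by
    rw [e01, e22]
    linear_combination w00 * h00 + w11 * h11 + w22 * h22 + 2 * w01 * h01 + 2 * w02 * h02 +
      2 * w12 * h12
  have f3 : U1 ^ 2 * U00 + U0 ^ 2 * U11 + U2 ^ 2 * U22 + 2 * U0 * U1 * U01 + 2 * U1 * U2 * U02
        + 2 * U0 * U2 * U12 = v0 * v0 * w00 + v1 * v1 * w11 + v2 * v2 * w22 + 2 * (v0 * v1 * w01)
        + 2 * (v0 * v2 * w02) + 2 * (v1 * v2 * w12) := by
    rw [e00, e01, e02, e11, e12, e22]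
    calc _ = (c00 * U1 + c01 * U0 + c02 * U2) * (c00 * U1 + c01 * U0 + c02 * U2) * w00 +
        (c10 * U1 + c11 * U0 + c12 * U2) * (c10 * U1 + c11 * U0 + c12 * U2) * w11 +
        (c20 * U1 + c21 * U0 + c22 * U2) * (c20 * U1 + c21 * U0 + c22 * U2) * w22 +
        2 * ((c00 * U1 + c01 * U0 + c02 * U2) * (c10 * U1 + c11 * U0 + c12 * U2) * w01) +
        2 * ((c00 * U1 + c01 * U0 + c02 * U2) * (c20 * U1 + c21 * U0 + c22 * U2) * w02) +
        2 * ((c10 * U1 + c11 * U0 + c12 * U2) * (c20 * U1 + c21 * U0 + c22 * U2) * w12) := by ring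
      _ = _ := by rw [a0, a1, a2]
  rw [f1, f2, f3]

theorem lin_PJ (E : Fin 3 → Fin 3 → ℂ) (hE : Frame E) (q : ℂ) (u : MvPolynomial (Fin 3) ℂ) :
    PJ q (lin E u) = lin E (PE q u) := by
  have hd1 : ∀ j, pderiv j (lin E u) = C (E 0 j) * lin E (pderiv 0 u) + C (E 1 j) * lin E (pderiv 1 u)
      + C (E 2 j) * lin E (pderiv 2 u) := fun j => by
    rw [lin_pderiv, Fin.sum_univ_three]
  have hd2 : ∀ j l, pderiv j (lin E (pderiv l u)) = C (E 0 j) * lin E (pderiv 0 (pderiv l u)) +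
      C (E 1 j) * lin E (pderiv 1 (pderiv l u)) + C (E 2 j) * lin E (pderiv 2 (pderiv l u)) :=
    fun j l => by rw [lin_pderiv, Fin.sum_univ_three]
  have hdd : ∀ j k, pderiv j (pderiv k (lin E u)) =
      C (E 0 k) * (C (E 0 j) * lin E (pderiv 0 (pderiv 0 u)) + C (E 1 j) * lin E (pderiv 0 (pderiv 1 u))
        + C (E 2 j) * lin E (pderiv 0 (pderiv 2 u))) +
      C (E 1 k) * (C (E 0 j) * lin E (pderiv 0 (pderiv 1 u)) + C (E 1 j) * lin E (pderiv 1 (pderiv 1 u))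
        + C (E 2 j) * lin E (pderiv 1 (pderiv 2 u))) +
      C (E 2 k) * (C (E 0 j) * lin E (pderiv 0 (pderiv 2 u)) + C (E 1 j) * lin E (pderiv 1 (pderiv 2 u))
        + C (E 2 j) * lin E (pderiv 2 (pderiv 2 u))) := by
    intro j k
    rw [hd1 k]
    simp only [map_add, pderiv_C_mul]
    rw [hd2 j 0, hd2 j 1, hd2 j 2, pd_comm_18570 1 0, pd_comm_18570 2 0, pd_comm_18570 2 1]
  have hfr : ∀ i k, (C (E i 0) * C (E k 1) + C (E i 1) * C (E k 0) + C (E i 2) * C (E k 2) :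
      MvPolynomial (Fin 3) ℂ) = C (if i = k then 1 else 0) := by
    intro i k
    rw [← hE i k]
    simp only [map_add, map_mul]
  have key := alg_18570 (R := MvPolynomial (Fin 3) ℂ)
    (C (E 0 0)) (C (E 0 1)) (C (E 0 2)) (C (E 1 0)) (C (E 1 1)) (C (E 1 2))
    (C (E 2 0)) (C (E 2 1)) (C (E 2 2))
    (lin E (pderiv 0 u)) (lin E (pderiv 1 u)) (lin E (pderiv 2 u))
    (lin E (pderiv 0 (pderiv 0 u))) (lin E (pderiv 0 (pderiv 1 u))) (lin E (pderiv 0 (pderiv 2 u)))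
    (lin E (pderiv 1 (pderiv 1 u))) (lin E (pderiv 1 (pderiv 2 u))) (lin E (pderiv 2 (pderiv 2 u)))
    (C (q - 1)) (by rw [hfr, if_pos rfl, C_1]) (by rw [hfr, if_neg (by decide), C_0])
    (by rw [hfr, if_neg (by decide), C_0]) (by rw [hfr, if_pos rfl, C_1])
    (by rw [hfr, if_neg (by decide), C_0]) (by rw [hfr, if_pos rfl, C_1])
    (pderiv 0 (lin E u)) (pderiv 1 (lin E u)) (pderiv 2 (lin E u))
    (pderiv 0 (pderiv 0 (lin E u))) (pderiv 0 (pderiv 1 (lin E u))) (pderiv 0 (pderiv 2 (lin E u)))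
    (pderiv 1 (pderiv 1 (lin E u))) (pderiv 1 (pderiv 2 (lin E u))) (pderiv 2 (pderiv 2 (lin E u)))
    (hd1 0) (hd1 1) (hd1 2) (hdd 0 0) (hdd 0 1) (hdd 0 2) (hdd 1 1) (hdd 1 2) (hdd 2 2)
  have hL : lin E (PE q u) = ((lin E (pderiv 0 u)) ^ 2 + (lin E (pderiv 1 u)) ^ 2 +
      (lin E (pderiv 2 u)) ^ 2) * (lin E (pderiv 0 (pderiv 0 u)) + lin E (pderiv 1 (pderiv 1 u)) +
      lin E (pderiv 2 (pderiv 2 u))) + C (q - 1) * (
      lin E (pderiv 0 u) * lin E (pderiv 0 u) * lin E (pderiv 0 (pderiv 0 u)) +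
      lin E (pderiv 1 u) * lin E (pderiv 1 u) * lin E (pderiv 1 (pderiv 1 u)) +
      lin E (pderiv 2 u) * lin E (pderiv 2 u) * lin E (pderiv 2 (pderiv 2 u)) +
      2 * (lin E (pderiv 0 u) * lin E (pderiv 1 u) * lin E (pderiv 0 (pderiv 1 u))) +
      2 * (lin E (pderiv 0 u) * lin E (pderiv 2 u) * lin E (pderiv 0 (pderiv 2 u))) +
      2 * (lin E (pderiv 1 u) * lin E (pderiv 2 u) * lin E (pderiv 1 (pderiv 2 u)))) := by
    have e1 : lin E (PE q u) = (∑ i, (lin E (pderiv i u)) ^ 2) * (∑ i, lin E (pderiv i (pderiv i u))) +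
        C (q - 1) * ∑ i, ∑ j, lin E (pderiv i u) * lin E (pderiv j u) * lin E (pderiv i (pderiv j u)) := by
      unfold PE lin
      simp only [map_add, map_mul, map_sum, map_pow, aeval_C]
      rfl
    rw [e1]
    simp only [Fin.sum_univ_three]
    rw [pd_comm_18570 1 0, pd_comm_18570 2 0, pd_comm_18570 2 1]
    ring
  rw [hL, ← key]
  unfold PJ
  ring

end PL
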