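import Pool.Agent.Helper353.PL.Defs

set_option autoImplicit false

open MvPolynomial

namespace PL



theorem lin_eval (E : Fin 3 → Fin 3 → ℂ) (u : MvPolynomial (Fin 3) ℂ) (y : Fin 3 → ℂ) :
    eval y (lin E u) = eval (fun i => ∑ j, E i j * y j) u := by
  unfold lin
  induction u using MvPolynomial.induction_on with
  | C a => simp
  | add p q hp hq => rw [map_add, map_add, map_add, hp, hq]
  | mul_X p n hp => rw [map_mul, map_mul, map_mul, hp]; simp

end PL
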