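import Pool.Agent.Helper353.PL.Defs

set_option autoImplicit false

open MvPolynomial

namespace PL



theorem lin_hom (E : Fin 3 → Fin 3 → ℂ) (u : MvPolynomial (Fin 3) ℂ) (m : ℕ)
    (hu : u.IsHomogeneous m) : (lin E u).IsHomogeneous m := by
  unfold lin
  have h1 : ∀ i, (∑ j, C (E i j) * X j : MvPolynomial (Fin 3) ℂ).IsHomogeneous 1 := by
    intro i
    apply IsHomogeneous.sum
    intro j _
    have := (isHomogeneous_C (Fin 3) (E i j)).mul (isHomogeneous_X ℂ j)
    rwa [zero_add] at this
  have h2 := hu.aeval (fun i => ∑ j, C (E i j) * X j) h1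
  rwa [one_mul] at h2

end PL
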