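import Pool.Agent.Helper353.PL.Defs
import Pool.Agent.Helper353.PL.P_frame_expand
import Pool.Agent.Helper353.PL.P_lin_eval

set_option autoImplicit false

open MvPolynomial

namespace PL



theorem lin_ne (E : Fin 3 → Fin 3 → ℂ) (hE : Frame E) (u : MvPolynomial (Fin 3) ℂ)
    (hu : u ≠ 0) : lin E u ≠ 0 := by
  intro h
  apply hu
  apply MvPolynomial.funext
  intro x
  have h1 := lin_eval E u ![∑ k, x k * E k 1, ∑ k, x k * E k 0, ∑ k, x k * E k 2]
  rw [h, map_zero] at h1
  have h2 : (fun i => ∑ j, E i j * (![∑ k, x k * E k 1, ∑ k, x k * E k 0, ∑ k, x k * E k 2] : Fin 3 → ℂ) j) = x := by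
    funext i
    rw [Fin.sum_univ_three, frame_expand E hE x i]
    simp only [Matrix.cons_val_zero, Matrix.cons_val_one, Matrix.cons_val]
    ring
  rw [h2] at h1
  rw [map_zero]
  exact h1.symm

end PL
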