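import Pool.Agent.Helper353.PL.Defs
import Pool.Agent.Helper353.PL.P_lin_pderiv
import Pool.Agent.Helper353.PL.P_lin_PJ
import Pool.Agent.Helper353.PL.P_alg_main
import Pool.Agent.Helper353.PL.P_frame_cols
import Pool.Agent.Helper353.PL.P_frame_expand
import Pool.Agent.Helper353.PL.P_lin_eval
import Pool.Agent.Helper353.PL.P_lin_hom
import Pool.Agent.Helper353.PL.P_lin_ne

set_option autoImplicit false

open MvPolynomial

namespace PL



/-- second derivatives in isotropic directions vanish -/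
theorem frame_second (q : ℝ) (hq1 : q ≠ 1) (m : ℕ) (hm : 2 ≤ m)
    (v : MvPolynomial (Fin 3) ℂ) (hv : v.IsHomogeneous m) (hP : PE (q : ℂ) v = 0)
    (hz : ∀ ζ : Fin 3 → ℂ, (∀ i, eval ζ (pderiv i v) = 0) → ζ = 0)
    (E : Fin 3 → Fin 3 → ℂ) (hE : Frame E) :
    ∑ i, ∑ k, C (E i 0 * E k 0) * pderiv i (pderiv k v) = 0 := by
  have hU : (lin E v).IsHomogeneous m := lin_hom E v m hv
  have hPJ : PJ (q : ℂ) (lin E v) = 0 := by
    rw [lin_PJ E hE, hP]
    unfold lin
    rw [map_zero]
  have hq : (q : ℂ) - 1 ≠ 0 := by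
    intro h
    apply hq1
    have : (q : ℂ) = 1 := by linear_combination h
    exact_mod_cast this
  have hP0 : pderiv 0 (pderiv 0 (lin E v)) = 0 := by
    refine alg_main (m - 1) (by omega) (pderiv 0 (lin E v)) (pderiv 2 (lin E v))
      (pderiv 1 (lin E v)) _ hU.pderiv hU.pderiv hU.pderiv hU.pderiv.pderiv ?_ ?_
    · intro y h0 h2 h1
      rw [lin_pderiv] at h0 h1 h2
      simp only [map_sum, map_mul, eval_C, lin_eval] at h0 h1 h2
      have hw : ∀ i, eval (fun i => ∑ j, E i j * y j) (pderiv i v) = 0 := by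
        intro i
        have hx := frame_expand E hE
          (fun i => eval (fun i => ∑ j, E i j * y j) (pderiv i v)) i
        have e0 : (∑ k, eval (fun i => ∑ j, E i j * y j) (pderiv k v) * E k 0) = 0 := by
          rw [← h0]; exact Finset.sum_congr rfl fun i _ => mul_comm _ _
        have e1 : (∑ k, eval (fun i => ∑ j, E i j * y j) (pderiv k v) * E k 1) = 0 := by
          rw [← h1]; exact Finset.sum_congr rfl fun i _ => mul_comm _ _
        have e2 : (∑ k, eval (fun i => ∑ j, E i j * y j) (pderiv k v) * E k 2) = 0 := by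
          rw [← h2]; exact Finset.sum_congr rfl fun i _ => mul_comm _ _
        rw [e0, e1, e2] at hx
        rw [hx]
        ring
      have hEy := hz _ hw
      obtain ⟨c00, c11, c22, c01, c02, c12⟩ := frame_cols E hE
      have k0 := congrFun hEy 0
      have k1 := congrFun hEy 1
      have k2 := congrFun hEy 2
      simp only [Fin.sum_univ_three, Pi.zero_apply] at k0 k1 k2 c00 c11 c22 c01 c02 c12
      funext j
      fin_cases j
      · show y 0 = 0
        linear_combination E 0 1 * k0 + E 1 1 * k1 + E 2 1 * k2 - y 0 * c01 - y 1 * c11 - y 2 * c12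
      · show y 1 = 0
        linear_combination E 0 0 * k0 + E 1 0 * k1 + E 2 0 * k2 - y 0 * c00 - y 1 * c01 - y 2 * c02
      · show y 2 = 0
        linear_combination E 0 2 * k0 + E 1 2 * k1 + E 2 2 * k2 - y 0 * c02 - y 1 * c12 - y 2 * c22
    · rw [Ideal.mem_span_pair]
      have hKK : (C ((q : ℂ) - 1) : MvPolynomial (Fin 3) ℂ) * C (((q : ℂ) - 1)⁻¹) = 1 := by
        rw [← C_mul, mul_inv_cancel₀ hq, C_1]
      unfold PJ at hPJ
      generalize lin E v = U at hPJ
      refine ⟨-(C (((q : ℂ) - 1)⁻¹) * (2 * pderiv 1 U * (2 * pderiv 0 (pderiv 1 U) + pderiv 2 (pderiv 2 U))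
          + C ((q : ℂ) - 1) * (pderiv 0 U * pderiv 1 (pderiv 1 U) + 2 * pderiv 1 U * pderiv 0 (pderiv 1 U)
            + 2 * pderiv 2 U * pderiv 1 (pderiv 2 U)))),
        -(C (((q : ℂ) - 1)⁻¹) * (pderiv 2 U * (2 * pderiv 0 (pderiv 1 U) + pderiv 2 (pderiv 2 U))
          + C ((q : ℂ) - 1) * (pderiv 2 U * pderiv 2 (pderiv 2 U) +
            2 * pderiv 1 U * pderiv 0 (pderiv 2 U)))), ?_⟩
      linear_combination (-C (((q : ℂ) - 1)⁻¹)) * hPJ +
        (pderiv 1 U) ^ 2 * pderiv 0 (pderiv 0 U) * hKK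
  by_contra hne
  apply lin_ne E hE _ hne
  rw [← hP0]
  have e1 : pderiv 0 (pderiv 0 (lin E v)) =
      ∑ i, ∑ k, C (E i 0) * (C (E k 0) * lin E (pderiv k (pderiv i v))) := by
    rw [lin_pderiv, map_sum]
    refine Finset.sum_congr rfl fun i _ => ?_
    rw [pderiv_C_mul, lin_pderiv, Finset.mul_sum]
  have e2 : lin E (∑ i, ∑ k, C (E i 0 * E k 0) * pderiv i (pderiv k v)) =
      ∑ i, ∑ k, C (E i 0) * (C (E k 0) * lin E (pderiv i (pderiv k v))) := by
    unfold lin
    rw [map_sum]
    refine Finset.sum_congr rfl fun i _ => ?_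
    rw [map_sum]
    refine Finset.sum_congr rfl fun k _ => ?_
    rw [map_mul, C_mul, map_mul, aeval_C, aeval_C]
    rw [mul_assoc]
    rfl
  rw [e1, e2, Finset.sum_comm]
  refine Finset.sum_congr rfl fun i _ => ?_
  refine Finset.sum_congr rfl fun k _ => ?_
  ring

end PL
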