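import Pool.Agent.Helper353.PL.Defs
import Pool.Agent.Helper353.PL.P_frame_iso

set_option autoImplicit false

open MvPolynomial

namespace PL



theorem pd_comm919 (i j : Fin 3) (v : MvPolynomial (Fin 3) ℂ) :
    pderiv i (pderiv j v) = pderiv j (pderiv i v) := by
  have h : ⁅(pderiv i : Derivation ℂ (MvPolynomial (Fin 3) ℂ) _),
      (pderiv j : Derivation ℂ (MvPolynomial (Fin 3) ℂ) _)⁆ = 0 := by
    apply derivation_ext
    intro k
    rw [Derivation.commutator_apply, pderiv_X, pderiv_X]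
    rw [Derivation.zero_apply]
    have h1 : ∀ a b : Fin 3, (pderiv a : Derivation ℂ (MvPolynomial (Fin 3) ℂ) _)
        (Pi.single (M := fun _ => MvPolynomial (Fin 3) ℂ) b 1 k) = 0 := by
      intro a b
      by_cases hb : b = k
      · subst hb
        rw [Pi.single_eq_same]
        exact pderiv_one
      · rw [Pi.single_eq_of_ne' hb, map_zero]
    rw [h1, h1, sub_zero]
  have h2 := congrArg (fun D : Derivation ℂ (MvPolynomial (Fin 3) ℂ) _ => D v) h
  simp only [Derivation.commutator_apply, Derivation.zero_apply] at h2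
  exact sub_eq_zero.1 h2

/-- two entries out of an isotropic pair -/
theorem pair919 (A B S : MvPolynomial (Fin 3) ℂ)
    (h1 : A - B + 2 * (C Complex.I * S) = 0) (h2 : A - B - 2 * (C Complex.I * S) = 0) :
    S = 0 ∧ A = B := by
  have h3 : A - B = 0 := by
    have h4 : (C 2 : MvPolynomial (Fin 3) ℂ) * (A - B) = 0 := by
      rw [show (C 2 : MvPolynomial (Fin 3) ℂ) = 2 from map_ofNat C 2]
      linear_combination h1 + h2
    refine (mul_eq_zero.1 h4).resolve_left ?_
    rw [C_eq_zero]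
    norm_num
  refine ⟨?_, sub_eq_zero.1 h3⟩
  have h4 : (C (2 * Complex.I) : MvPolynomial (Fin 3) ℂ) * S = 0 := by
    rw [C_mul, show (C 2 : MvPolynomial (Fin 3) ℂ) = 2 from map_ofNat C 2]
    linear_combination h1 - h3
  refine (mul_eq_zero.1 h4).resolve_left ?_
  rw [C_eq_zero]
  simp

/-- if all isotropic second derivatives vanish the polynomial is `c |x|²` -/
theorem iso_all (m : ℕ) (hm : 2 ≤ m) (v : MvPolynomial (Fin 3) ℂ) (hv : v.IsHomogeneous m)
    (h : ∀ E : Fin 3 → Fin 3 → ℂ, Frame E →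
      ∑ i, ∑ k, C (E i 0 * E k 0) * pderiv i (pderiv k v) = 0) :
    ∃ c : ℂ, v = C c * ∑ i, X i ^ 2 := by
  have hI : Complex.I ^ 2 = -1 := Complex.I_sq
  have key : ∀ ν : Fin 3 → ℂ, ν ≠ 0 → ∑ i, ν i ^ 2 = 0 →
      ∑ i, ∑ k, C (ν i * ν k) * pderiv i (pderiv k v) = 0 := by
    intro ν h0 hiso
    obtain ⟨E, hE, hν, -⟩ := frame_iso ν h0 hiso
    have h1 := h E hE
    simp only [hν] at h1
    exact h1
  have hCI : (C Complex.I : MvPolynomial (Fin 3) ℂ) * C Complex.I = -1 := by
    rw [← C_mul, Complex.I_mul_I]; simp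
  have h01 := pair919 (pderiv 0 (pderiv 0 v)) (pderiv 1 (pderiv 1 v)) (pderiv 0 (pderiv 1 v))
    (by
      have h1 := key ![1, Complex.I, 0] (fun h0 => by simpa using congrFun h0 0)
        (by simp [Fin.sum_univ_three])
      simp only [Fin.sum_univ_three, Matrix.cons_val_zero, Matrix.cons_val_one,
        Matrix.cons_val, C_mul, C_1, C_0] at h1
      rw [pd_comm919 1 0] at h1
      linear_combination h1 - (pderiv 1 (pderiv 1 v)) * hCI)
    (by
      have h1 := key ![1, -Complex.I, 0] (fun h0 => by simpa using congrFun h0 0)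
        (by simp [Fin.sum_univ_three])
      simp only [Fin.sum_univ_three, Matrix.cons_val_zero, Matrix.cons_val_one,
        Matrix.cons_val, C_mul, C_1, C_0, C_neg] at h1
      rw [pd_comm919 1 0] at h1
      linear_combination h1 - (pderiv 1 (pderiv 1 v)) * hCI)
  have h02 := pair919 (pderiv 0 (pderiv 0 v)) (pderiv 2 (pderiv 2 v)) (pderiv 0 (pderiv 2 v))
    (by
      have h1 := key ![1, 0, Complex.I] (fun h0 => by simpa using congrFun h0 0)
        (by simp [Fin.sum_univ_three])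
      simp only [Fin.sum_univ_three, Matrix.cons_val_zero, Matrix.cons_val_one,
        Matrix.cons_val, C_mul, C_1, C_0] at h1
      rw [pd_comm919 2 0] at h1
      linear_combination h1 - (pderiv 2 (pderiv 2 v)) * hCI)
    (by
      have h1 := key ![1, 0, -Complex.I] (fun h0 => by simpa using congrFun h0 0)
        (by simp [Fin.sum_univ_three])
      simp only [Fin.sum_univ_three, Matrix.cons_val_zero, Matrix.cons_val_one,
        Matrix.cons_val, C_mul, C_1, C_0, C_neg] at h1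
      rw [pd_comm919 2 0] at h1
      linear_combination h1 - (pderiv 2 (pderiv 2 v)) * hCI)
  have h12 := pair919 (pderiv 1 (pderiv 1 v)) (pderiv 2 (pderiv 2 v)) (pderiv 1 (pderiv 2 v))
    (by
      have h1 := key ![0, 1, Complex.I] (fun h0 => by simpa using congrFun h0 1)
        (by simp [Fin.sum_univ_three])
      simp only [Fin.sum_univ_three, Matrix.cons_val_zero, Matrix.cons_val_one,
        Matrix.cons_val, C_mul, C_1, C_0] at h1
      rw [pd_comm919 2 1] at h1
      linear_combination h1 - (pderiv 2 (pderiv 2 v)) * hCI)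
    (by
      have h1 := key ![0, 1, -Complex.I] (fun h0 => by simpa using congrFun h0 1)
        (by simp [Fin.sum_univ_three])
      simp only [Fin.sum_univ_three, Matrix.cons_val_zero, Matrix.cons_val_one,
        Matrix.cons_val, C_mul, C_1, C_0, C_neg] at h1
      rw [pd_comm919 2 1] at h1
      linear_combination h1 - (pderiv 2 (pderiv 2 v)) * hCI)
  obtain ⟨T, hT⟩ : ∃ T, T = pderiv 0 (pderiv 0 v) := ⟨_, rfl⟩
  have e00 : pderiv 0 (pderiv 0 v) = T := hT.symm
  have e11 : pderiv 1 (pderiv 1 v) = T := by rw [hT, h01.2]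
  have e22 : pderiv 2 (pderiv 2 v) = T := by rw [hT, h02.2]
  have e01 : pderiv 0 (pderiv 1 v) = 0 := h01.1
  have e02 : pderiv 0 (pderiv 2 v) = 0 := h02.1
  have e12 : pderiv 1 (pderiv 2 v) = 0 := h12.1
  have e10 : pderiv 1 (pderiv 0 v) = 0 := by rw [pd_comm919]; exact e01
  have e20 : pderiv 2 (pderiv 0 v) = 0 := by rw [pd_comm919]; exact e02
  have e21 : pderiv 2 (pderiv 1 v) = 0 := by rw [pd_comm919]; exact e12
  have d0 : pderiv 0 T = 0 := by rw [← e11, pd_comm919, e01, map_zero]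
  have d1 : pderiv 1 T = 0 := by rw [← e00, pd_comm919, e10, map_zero]
  have d2 : pderiv 2 T = 0 := by rw [← e00, pd_comm919, e20, map_zero]
  have hv1 : ∀ i, (pderiv i v).IsHomogeneous (m - 1) := fun i => hv.pderiv
  have hT1 : T.IsHomogeneous (m - 1 - 1) := by rw [hT]; exact (hv1 0).pderiv
  have eu := hv.sum_X_mul_pderiv
  have eu0 := (hv1 0).sum_X_mul_pderiv
  have eu1 := (hv1 1).sum_X_mul_pderiv
  have eu2 := (hv1 2).sum_X_mul_pderiv
  have euT := hT1.sum_X_mul_pderiv
  rw [Fin.sum_univ_three] at eu eu0 eu1 eu2 euT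
  rw [e00, e10, e20, nsmul_eq_mul] at eu0
  rw [e01, e11, e21, nsmul_eq_mul] at eu1
  rw [e02, e12, e22, nsmul_eq_mul] at eu2
  rw [d0, d1, d2, nsmul_eq_mul] at euT
  rw [nsmul_eq_mul] at eu
  have hmain : ((m : ℕ) : MvPolynomial (Fin 3) ℂ) * ((m - 1 : ℕ) : MvPolynomial (Fin 3) ℂ) * v =
      T * (X 0 ^ 2 + X 1 ^ 2 + X 2 ^ 2) := by
    linear_combination -((m - 1 : ℕ) : MvPolynomial (Fin 3) ℂ) * eu - X 0 * eu0 - X 1 * eu1 -
      X 2 * eu2
  have hTc : ∃ t, T = C t := by
    by_cases h2 : m = 2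
    · subst h2
      have h3 : T.totalDegree = 0 := (totalDegree_zero_iff_isHomogeneous _).2 hT1
      exact ⟨_, totalDegree_eq_zero_iff_eq_C.1 h3⟩
    · refine ⟨0, ?_⟩
      have h3 : ((m - 1 - 1 : ℕ) : MvPolynomial (Fin 3) ℂ) * T = 0 := by
        rw [← euT]; ring
      have h4 : ((m - 1 - 1 : ℕ) : MvPolynomial (Fin 3) ℂ) ≠ 0 := by
        have : m - 1 - 1 ≠ 0 := by omega
        exact_mod_cast this
      rw [C_0]
      exact (mul_eq_zero.1 h3).resolve_left h4
  obtain ⟨t, ht⟩ := hTc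
  have hm1 : ((m : ℂ) * ((m - 1 : ℕ) : ℂ)) ≠ 0 := by
    refine mul_ne_zero ?_ ?_
    · have : m ≠ 0 := by omega
      exact_mod_cast this
    · have : m - 1 ≠ 0 := by omega
      exact_mod_cast this
  refine ⟨t / ((m : ℂ) * ((m - 1 : ℕ) : ℂ)), ?_⟩
  have hC : (C ((m : ℂ) * ((m - 1 : ℕ) : ℂ)) : MvPolynomial (Fin 3) ℂ) ≠ 0 := by
    rw [Ne, C_eq_zero]; exact hm1
  refine mul_left_cancel₀ hC ?_
  rw [← mul_assoc, ← C_mul, mul_div_cancel₀ _ hm1, Fin.sum_univ_three, ← ht, ← hmain, C_mul]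
  simp

end PL
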