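import Pool.Agent.Helper353.PL.Defs

set_option autoImplicit false

open MvPolynomial

namespace PL



theorem last_step (q : ℝ) (hq : 0 < q) (c : ℂ)
    (hP : PE (q : ℂ) (C c * ∑ i, X i ^ 2) = 0) : c = 0 := by
  have hd : ∀ i : Fin 3, pderiv i (C c * ∑ j, (X j : MvPolynomial (Fin 3) ℂ) ^ 2) =
      C (2 * c) * X i := by
    intro i
    have h2 : (C (2 * c) : MvPolynomial (Fin 3) ℂ) = 2 * C c := by
      rw [C_mul]
      rfl
    rw [h2]
    fin_cases i <;> simp [Fin.sum_univ_three, pderiv_X, Derivation.leibniz_pow] <;>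
      ring
  have hdd : ∀ i j : Fin 3, pderiv i (C (2 * c) * (X j : MvPolynomial (Fin 3) ℂ)) =
      if i = j then C (2 * c) else 0 := by
    intro i j
    rw [pderiv_C_mul, pderiv_X]
    by_cases h : i = j
    · subst h
      simp
    · rw [if_neg h, Pi.single_eq_of_ne (fun h' => h h'.symm), mul_zero]
  unfold PE at hP
  simp only [hd] at hP
  simp only [hdd] at hP
  simp only [Fin.sum_univ_three] at hP
  have h := congrArg (eval ![(1 : ℂ), 0, 0]) hP
  simp at h
  have h3 : c ^ 3 * ((q : ℂ) + 2) = 0 := by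
    linear_combination h / 8
  rcases mul_eq_zero.1 h3 with h4 | h4
  · exact pow_eq_zero_iff (by norm_num) |>.1 h4
  · exfalso
    have h5 : (((q + 2 : ℝ)) : ℂ) = 0 := by
      push_cast
      exact h4
    have h6 : q + 2 = 0 := by exact_mod_cast h5
    linarith

end PL
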