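import Pool.Agent.Helper353.PL.Defs

set_option autoImplicit false

open MvPolynomial

namespace PL



/-- substitution `X 0 ↦ 0` does not change the coefficients without `X 0` -/
theorem vanish_a_aux (U : MvPolynomial (Fin 3) ℂ) (d : Fin 3 →₀ ℕ) (hd : d 0 = 0) :
    coeff d (aeval (fun i : Fin 3 => if i = 0 then (0 : MvPolynomial (Fin 3) ℂ) else X i) U) =
      coeff d U := by
  induction U using MvPolynomial.induction_on' with
  | monomial m c =>
    rw [aeval_monomial]
    by_cases hm : m 0 = 0
    · have : (m.prod fun i k => (if i = 0 then (0 : MvPolynomial (Fin 3) ℂ) else X i) ^ k) =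
          m.prod fun i k => (X i : MvPolynomial (Fin 3) ℂ) ^ k := by
        refine Finsupp.prod_congr fun i hi => ?_
        have : i ≠ 0 := by
          rintro rfl
          exact (Finsupp.mem_support_iff.1 hi) hm
        rw [if_neg this]
      rw [this, MvPolynomial.algebraMap_eq, ← MvPolynomial.monomial_eq]
    · have : (m.prod fun i k => (if i = 0 then (0 : MvPolynomial (Fin 3) ℂ) else X i) ^ k) = 0 := by
        rw [Finsupp.prod]
        refine Finset.prod_eq_zero (i := 0) (Finsupp.mem_support_iff.2 hm) ?_
        rw [if_pos rfl, zero_pow hm]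
      rw [this, mul_zero, coeff_zero, coeff_monomial, if_neg]
      rintro rfl
      exact hm hd
  | add p q hp hq => rw [map_add, coeff_add, coeff_add, hp, hq]

/-- if a polynomial vanishes on `a = 0` then every monomial contains `a` -/
theorem vanish_a (U : MvPolynomial (Fin 3) ℂ) (h : ∀ y : Fin 3 → ℂ, y 0 = 0 → eval y U = 0) :
    ∀ d ∈ U.support, d 0 ≠ 0 := by
  intro d hdU hd
  have hV : aeval (fun i : Fin 3 => if i = 0 then (0 : MvPolynomial (Fin 3) ℂ) else X i) U = 0 := by
    apply MvPolynomial.funext
    intro y
    rw [map_zero]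
    have : eval y (aeval (fun i : Fin 3 => if i = 0 then (0 : MvPolynomial (Fin 3) ℂ) else X i) U) =
        eval (fun i => if i = 0 then 0 else y i) U := by
      rw [aeval_def, eval₂_comp_left]
      rw [MvPolynomial.eval₂_eq', MvPolynomial.eval_eq']
      refine Finset.sum_congr rfl fun e _ => ?_
      congr 1
      · simp
      · refine Finset.prod_congr rfl fun i _ => ?_
        simp only [Function.comp]
        split_ifs <;> simp
    rw [this]
    exact h _ (by simp)
  have := vanish_a_aux U d hd
  rw [hV, coeff_zero] at this
  exact (MvPolynomial.mem_support_iff.1 hdU) this.symm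

end PL
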