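import Pool.Agent.Helper353.PL.Defs

set_option autoImplicit false

open MvPolynomial

namespace PL



/-- if a polynomial vanishes on `b = 0` then every monomial contains `b` -/
theorem vanish_b (U : MvPolynomial (Fin 3) ℂ) (h : ∀ y : Fin 3 → ℂ, y 1 = 0 → eval y U = 0) :
    ∀ d ∈ U.support, d 1 ≠ 0 := by
  classical
  intro d hd hd1
  set W : MvPolynomial (Fin 3) ℂ :=
    ∑ e ∈ U.support.filter (fun e => e 1 = 0), monomial e (U.coeff e) with hW
  have hW0 : W = 0 := by
    refine MvPolynomial.funext fun y => ?_
    have h1 := h (Function.update y 1 0) (by simp)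
    rw [eval_eq'] at h1
    rw [map_zero, ← h1, hW, map_sum, Finset.sum_filter]
    refine Finset.sum_congr rfl fun e _ => ?_
    by_cases he : e 1 = 0
    · rw [if_pos he, eval_monomial, Finsupp.prod_fintype _ _ (fun i => pow_zero _)]
      congr 1
      refine Finset.prod_congr rfl fun i _ => ?_
      by_cases hi : i = 1
      · rw [hi, he, pow_zero, pow_zero]
      · rw [Function.update_of_ne hi]
    · rw [if_neg he]
      symm
      rw [Finset.prod_eq_zero (Finset.mem_univ (1 : Fin 3)), mul_zero]
      rw [Function.update_self, zero_pow he]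
  have h2 : coeff d W = coeff d U := by
    rw [hW, coeff_sum]
    simp only [coeff_monomial]
    rw [Finset.sum_ite_eq' (U.support.filter fun e => e 1 = 0) d, if_pos]
    exact Finset.mem_filter.2 ⟨hd, hd1⟩
  rw [hW0, coeff_zero] at h2
  exact (mem_support_iff.1 hd) h2.symm

end PL
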