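import Pool.Agent.Helper353.PL.Defs
import Pool.Agent.Helper353.PL.P_lin_PJ
import Pool.Agent.Helper353.PL.P_VN
import Pool.Agent.Helper353.PL.P_frame_cols
import Pool.Agent.Helper353.PL.P_frame_iso
import Pool.Agent.Helper353.PL.P_lin_eval
import Pool.Agent.Helper353.PL.P_lin_hom
import Pool.Agent.Helper353.PL.P_lin_ne
import Pool.Agent.Helper353.PL.P_conj_eval
import Pool.Agent.Helper353.PL.P_vanish_b
import Pool.Agent.Helper353.PL.P_vanish_a

set_option autoImplicit false

open MvPolynomial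

namespace PL



/-- a real solution does not vanish on an isotropic plane -/
theorem no_factor (q : ℝ) (hq : 0 < q) (m : ℕ) (u : MvPolynomial (Fin 3) ℝ)
    (hu : u.IsHomogeneous m) (hu0 : u ≠ 0) (hP : PE (q : ℂ) (map (algebraMap ℝ ℂ) u) = 0)
    (ν : Fin 3 → ℂ) (h0 : ν ≠ 0) (hiso : ∑ i, ν i ^ 2 = 0) :
    ∃ x : Fin 3 → ℂ, ∑ i, x i * ν i = 0 ∧ eval x (map (algebraMap ℝ ℂ) u) ≠ 0 := by
  by_contra hcon
  push Not at hcon
  obtain ⟨E, hE, hE0, r, hr, hE1⟩ := frame_iso ν h0 hiso
  obtain ⟨c00, c11, c22, c01, c02, c12⟩ := frame_cols E hE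
  obtain ⟨v, hv⟩ : ∃ v, v = map (algebraMap ℝ ℂ) u := ⟨_, rfl⟩
  rw [← hv] at hP hcon
  have hvh : v.IsHomogeneous m := by rw [hv]; exact hu.map _
  have hv0 : v ≠ 0 := by
    rw [hv]
    intro h
    exact hu0 (map_injective _ (algebraMap ℝ ℂ).injective (by rw [h, map_zero]))
  have hPU : PJ (q : ℂ) (lin E v) = 0 := by
    rw [lin_PJ E hE, hP]
    unfold lin
    exact map_zero _
  obtain ⟨d, hd, h⟩ := VN q hq m (lin E v) (lin_hom E v m hvh) (lin_ne E hE v hv0) hPU
  simp only [Fin.sum_univ_three] at c00 c11 c22 c01 c02 c12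
  rcases h with h | h
  · refine vanish_a (lin E v) ?_ d hd h
    intro y hy
    rw [lin_eval]
    have h1 := hcon (fun i => (starRingEnd ℂ) (∑ j, E i j * y j)) ?_
    · rw [hv, conj_eval] at h1
      rw [hv]
      exact (map_eq_zero _).1 h1
    · have h2 : ∑ i, (∑ j, E i j * y j) * E i 1 = 0 := by
        simp only [Fin.sum_univ_three]
        rw [hy]
        linear_combination y 1 * c11 + y 2 * c12
      have h3 : ∑ i, (∑ j, E i j * y j) * (starRingEnd ℂ) (ν i) = 0 := by
        have h4 : (r : ℂ) * ∑ i, (∑ j, E i j * y j) * (starRingEnd ℂ) (ν i) = 0 := by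
          rw [← h2, Finset.mul_sum]
          refine Finset.sum_congr rfl fun i _ => ?_
          rw [hE1]
          ring
        rcases mul_eq_zero.1 h4 with h5 | h5
        · exact absurd (Complex.ofReal_eq_zero.1 h5) hr.ne'
        · exact h5
      have h6 := congrArg (starRingEnd ℂ) h3
      rw [map_sum, map_zero] at h6
      rw [← h6]
      refine Finset.sum_congr rfl fun i _ => ?_
      rw [map_mul, Complex.conj_conj]
  · refine vanish_b (lin E v) ?_ d hd h
    intro y hy
    rw [lin_eval]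
    apply hcon
    simp only [← hE0]
    simp only [Fin.sum_univ_three]
    rw [hy]
    linear_combination y 0 * c00 + y 2 * c02

end PL
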