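import Pool.Agent.Helper353.PL.Defs
import Pool.Agent.Helper353.PL.P_lin_pderiv
import Pool.Agent.Helper353.PL.P_lin_PJ
import Pool.Agent.Helper353.PL.P_NN
import Pool.Agent.Helper353.PL.P_II
import Pool.Agent.Helper353.PL.P_frame_cols
import Pool.Agent.Helper353.PL.P_frame_expand
import Pool.Agent.Helper353.PL.P_frame_iso
import Pool.Agent.Helper353.PL.P_frame_non
import Pool.Agent.Helper353.PL.P_lin_eval
import Pool.Agent.Helper353.PL.P_lin_hom
import Pool.Agent.Helper353.PL.P_eval_zero_of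
import Pool.Agent.Helper353.PL.P_no_factor
import Pool.Agent.Helper353.PL.P_crit_non
import Pool.Agent.Helper353.PL.P_crit_iso

set_option autoImplicit false

open MvPolynomial

namespace PL



theorem no_crit_scale (n : ℕ) (p : MvPolynomial (Fin 3) ℂ) (hp : p.IsHomogeneous n) (c : ℂ)
    (z : Fin 3 → ℂ) : eval (fun i => c * z i) p = c ^ n * eval z p := by
  rw [eval_eq', eval_eq', Finset.mul_sum]
  apply Finset.sum_congr rfl
  intro d hd
  have hdeg : d.degree = n := by
    by_contra hne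
    exact (mem_support_iff.1 hd) (hp.coeff_eq_zero hne)
  have hsum : ∑ i, d i = n := by
    rw [← hdeg, Finsupp.degree_eq_sum]
  simp only [mul_pow, Finset.prod_mul_distrib, Finset.prod_pow_eq_pow_sum, hsum]
  ring

theorem no_crit_exp (E : Fin 3 → Fin 3 → ℂ) (hE : Frame E) (x : Fin 3 → ℂ) :
    (fun i => ∑ j, E i j * (![∑ k, x k * E k 1, ∑ k, x k * E k 0, ∑ k, x k * E k 2] : Fin 3 → ℂ) j)
      = x := by
  funext i
  rw [frame_expand E hE x i]
  simp only [Fin.sum_univ_three, Matrix.cons_val_zero, Matrix.cons_val_one, Matrix.cons_val]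
  ring

/-- the complexification of a real solution has no critical point except the origin -/
theorem no_crit (q : ℝ) (hq : 0 < q) (hq1 : q ≠ 1) (m : ℕ) (hm : 2 ≤ m)
    (u : MvPolynomial (Fin 3) ℝ)
    (hu : u.IsHomogeneous m) (hu0 : u ≠ 0) (hP : PE (q : ℂ) (map (algebraMap ℝ ℂ) u) = 0)
    (ζ : Fin 3 → ℂ) (h : ∀ i, eval ζ (pderiv i (map (algebraMap ℝ ℂ) u)) = 0) : ζ = 0 := by
  by_contra hζ
  have hv : (map (algebraMap ℝ ℂ) u).IsHomogeneous m := hu.map _
  by_cases hN : ∑ i, ζ i ^ 2 = 0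
  · -- isotropic
    obtain ⟨E, hE, hE0, _⟩ := frame_iso ζ hζ hN
    have hU := lin_hom E _ m hv
    have hPJ : PJ (q : ℂ) (lin E (map (algebraMap ℝ ℂ) u)) = 0 := by
      rw [lin_PJ E hE, hP]
      simp [lin]
    have hcr : ∀ j, eval ![1, 0, 0] (pderiv j (lin E (map (algebraMap ℝ ℂ) u))) = 0 := by
      intro j
      rw [lin_pderiv, map_sum]
      apply Finset.sum_eq_zero
      intro i _
      rw [map_mul, lin_eval]
      have h1 : (fun i => ∑ j, E i j * (![1, 0, 0] : Fin 3 → ℂ) j) = ζ := by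
        funext i
        simp [Fin.sum_univ_three, hE0]
      rw [h1, h i, mul_zero]
    have hc := crit_iso m hm _ hU hcr
    obtain ⟨x, hx, hx2⟩ := no_factor q hq m u hu hu0 hP ζ hζ hN
    refine II q hq hq1 m _ hU hPJ hc ?_
    by_contra hcon
    push Not at hcon
    have h3 := eval_zero_of _ 1 hcon
      (![∑ k, x k * E k 1, ∑ k, x k * E k 0, ∑ k, x k * E k 2] : Fin 3 → ℂ) (by
        show ∑ k, x k * E k 0 = 0
        simpa only [hE0] using hx)
    rw [lin_eval, no_crit_exp E hE x] at h3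
    exact hx2 h3
  · -- non isotropic
    obtain ⟨c, hc⟩ := IsAlgClosed.exists_pow_nat_eq (∑ i, ζ i ^ 2)⁻¹ (n := 2) (by norm_num)
    have hz : ∑ i, (c * ζ i) ^ 2 = 1 := by
      simp only [mul_pow, ← Finset.mul_sum]
      rw [hc, inv_mul_cancel₀ hN]
    obtain ⟨E, hE, hE2⟩ := frame_non (fun i => c * ζ i) hz
    have hU := lin_hom E _ m hv
    have hPJ : PJ (q : ℂ) (lin E (map (algebraMap ℝ ℂ) u)) = 0 := by
      rw [lin_PJ E hE, hP]
      simp [lin]
    have hcr : ∀ j, eval ![0, 0, 1] (pderiv j (lin E (map (algebraMap ℝ ℂ) u))) = 0 := by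
      intro j
      rw [lin_pderiv, map_sum]
      apply Finset.sum_eq_zero
      intro i _
      rw [map_mul, lin_eval]
      have h1 : (fun i => ∑ j, E i j * (![0, 0, 1] : Fin 3 → ℂ) j) = fun i => c * ζ i := by
        funext i
        simp [Fin.sum_univ_three, hE2]
      rw [h1, no_crit_scale (m - 1) _ hv.pderiv, h i, mul_zero, mul_zero]
    have hcc := crit_non m hm _ hU hcr
    obtain ⟨c00, c11, _, c01, _, _⟩ := frame_cols E hE
    have hne0 : (fun i => E i 0) ≠ 0 := by
      intro h0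
      have : ∀ i, E i 0 = 0 := fun i => congrFun h0 i
      simp [this] at c01
    have hne1 : (fun i => E i 1) ≠ 0 := by
      intro h0
      have : ∀ i, E i 1 = 0 := fun i => congrFun h0 i
      simp [this] at c01
    obtain ⟨x, hx, hx2⟩ := no_factor q hq m u hu hu0 hP (fun i => E i 0) hne0 (by
      simpa only [pow_two] using c00)
    obtain ⟨x', hx', hx2'⟩ := no_factor q hq m u hu hu0 hP (fun i => E i 1) hne1 (by
      simpa only [pow_two] using c11)
    refine NN q hq hq1 m _ hU hPJ hcc ?_ ?_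
    · by_contra hcon
      push Not at hcon
      have h3 := eval_zero_of _ 0 hcon
        (![∑ k, x' k * E k 1, ∑ k, x' k * E k 0, ∑ k, x' k * E k 2] : Fin 3 → ℂ) hx'
      rw [lin_eval, no_crit_exp E hE x'] at h3
      exact hx2' h3
    · by_contra hcon
      push Not at hcon
      have h3 := eval_zero_of _ 1 hcon
        (![∑ k, x k * E k 1, ∑ k, x k * E k 0, ∑ k, x k * E k 2] : Fin 3 → ℂ) hx
      rw [lin_eval, no_crit_exp E hE x] at h3
      exact hx2 h3

end PL
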