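import Pool.Agent.Helper353.PL.Defs
import Pool.Agent.Helper353.PL.P_complexify
import Pool.Agent.Helper353.PL.P_no_crit
import Pool.Agent.Helper353.PL.P_frame_second
import Pool.Agent.Helper353.PL.P_iso_all
import Pool.Agent.Helper353.PL.P_last_step

set_option autoImplicit false

open MvPolynomial

namespace PL



/-- three dimensions -/
theorem main3 (p : ℝ) (hp : 1 < p) (hp2 : p ≠ 2) (m : ℕ) (hm : 2 ≤ m) :
      ¬ ∃ u : MvPolynomial (Fin 3) ℝ, u ≠ 0 ∧ u.IsHomogeneous m ∧
        ∀ x : Fin 3 → ℝ,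
          (∑ i, (MvPolynomial.eval x (MvPolynomial.pderiv i u)) ^ 2) *
              (∑ i, MvPolynomial.eval x (MvPolynomial.pderiv i (MvPolynomial.pderiv i u))) +
            (p - 2) * ∑ i, ∑ j,
              MvPolynomial.eval x (MvPolynomial.pderiv i u) *
                MvPolynomial.eval x (MvPolynomial.pderiv j u) *
                MvPolynomial.eval x (MvPolynomial.pderiv i (MvPolynomial.pderiv j u)) = 0 := by
  rintro ⟨u, hu0, hu, h⟩
  have hq : 0 < p - 1 := by linarith
  have hq1 : p - 1 ≠ 1 := by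
    intro h1
    apply hp2
    linarith
  have hP := complexify p u h
  have hv : (map (algebraMap ℝ ℂ) u).IsHomogeneous m := hu.map _
  have hz := no_crit (p - 1) hq hq1 m hm u hu hu0 hP
  obtain ⟨c, hc⟩ := iso_all m hm _ hv (fun E hE => frame_second (p - 1) hq1 m hm _ hv hP
    (fun ζ hζ => hz ζ hζ) E hE)
  rw [hc] at hP
  have hc0 := last_step (p - 1) hq c hP
  rw [hc0, C_0, zero_mul] at hc
  apply hu0
  have hinj : Function.Injective (map (σ := Fin 3) (algebraMap ℝ ℂ)) :=
    map_injective _ (algebraMap ℝ ℂ).injective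
  apply hinj
  rw [hc, _root_.map_zero]

end PL
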